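import Pool.Agent.H.MP_a6405b_nt.helper54.AvgMeas

set_option autoImplicit false

namespace Pool.A6405.LL

/- PROOF. Otherwise the integral over [u,u+w] of the left side would exceed w times the right side; but it is at most
the sum of c j * 2 t j (w + 2/|A j|) by meas_le. -/
open Classical in
/-- averaging lemma -/
theorem averaging {κ : Type*} (J : Finset κ) (c : κ → ℝ) (A : κ → ℤ) (β t : κ → ℝ) (u w : ℝ) (hw : 0 < w)
    (hc : ∀ j ∈ J, 0 ≤ c j) (hA : ∀ j ∈ J, A j ≠ 0) (ht : ∀ j ∈ J, 0 ≤ t j) :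
    ∃ x : ℝ, u ≤ x ∧ x ≤ u + w ∧
      ∑ j ∈ J, c j * (if nn (A j * x + β j) ≤ t j then 1 else 0) ≤
        ∑ j ∈ J, c j * (2 * t j * (1 + 2 / (|(A j : ℝ)| * w))) := by
  obtain ⟨S, hS⟩ : ∃ S : κ → Set ℝ, S = fun j =>
      {x : ℝ | x ∈ Set.Icc u (u + w) ∧ nn (A j * x + β j) ≤ t j} := ⟨_, rfl⟩
  have hSm : ∀ j, MeasurableSet (S j) := fun j => by
    rw [hS]
    exact meas_measurable (A j) (β j) (t j) u w
  have hSsub : ∀ j, S j ⊆ Set.Icc u (u + w) := fun j x hx => by
    rw [hS] at hx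
    exact hx.1
  have hSle : ∀ j ∈ J, MeasureTheory.volume.real (S j) ≤ 2 * t j * (w + 2 / |(A j : ℝ)|) := by
    intro j hj
    have h1 := meas_le (A j) (hA j hj) (β j) (t j) u w hw (ht j hj)
    have h2 : 0 ≤ 2 * t j * (w + 2 / |(A j : ℝ)|) := by
      have := ht j hj
      have h3 : 0 ≤ 2 / |(A j : ℝ)| := by positivity
      positivity
    rw [MeasureTheory.measureReal_def, hS]
    exact ENNReal.toReal_le_of_le_ofReal h2 h1
  have hvol : MeasureTheory.volume (Set.Icc u (u + w)) = ENNReal.ofReal w := by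
    rw [Real.volume_Icc, add_sub_cancel_left]
  have hv0 : MeasureTheory.volume (Set.Icc u (u + w)) ≠ 0 := by
    rw [hvol]
    exact (ENNReal.ofReal_pos.2 hw).ne'
  have hv1 : MeasureTheory.volume (Set.Icc u (u + w)) ≠ ⊤ := by
    rw [hvol]
    exact ENNReal.ofReal_ne_top
  have hint : ∀ j, MeasureTheory.IntegrableOn (fun x => c j * (S j).indicator (fun _ => (1 : ℝ)) x)
      (Set.Icc u (u + w)) := by
    intro j
    refine MeasureTheory.Integrable.const_mul ?_ _
    refine MeasureTheory.Integrable.indicator ?_ (hSm j)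
    exact (MeasureTheory.integrableOn_const hv1)
  have hint2 : MeasureTheory.IntegrableOn
      (fun x => ∑ j ∈ J, c j * (S j).indicator (fun _ => (1 : ℝ)) x) (Set.Icc u (u + w)) :=
    MeasureTheory.integrable_finsetSum J fun j _ => hint j
  obtain ⟨x, hx, hle⟩ := MeasureTheory.exists_le_setAverage hv0 hv1 hint2
  refine ⟨x, hx.1, hx.2, ?_⟩
  have e1 : ∑ j ∈ J, c j * (if nn (A j * x + β j) ≤ t j then 1 else 0) =
      ∑ j ∈ J, c j * (S j).indicator (fun _ => (1 : ℝ)) x := by
    refine Finset.sum_congr rfl fun j _ => ?_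
    congr 1
    rw [hS]
    by_cases h : nn (A j * x + β j) ≤ t j
    · rw [if_pos h, Set.indicator_of_mem]
      exact ⟨hx, h⟩
    · rw [if_neg h, Set.indicator_of_notMem]
      exact fun h' => h h'.2
  rw [e1]
  refine hle.trans ?_
  rw [MeasureTheory.setAverage_eq, MeasureTheory.integral_finsetSum J fun j _ => hint j,
    smul_eq_mul, Finset.mul_sum, MeasureTheory.measureReal_def, hvol, ENNReal.toReal_ofReal hw.le]
  refine Finset.sum_le_sum fun j hj => ?_
  rw [MeasureTheory.integral_const_mul, MeasureTheory.integral_indicator (hSm j),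
    MeasureTheory.Measure.restrict_restrict (hSm j), Set.inter_eq_left.2 (hSsub j),
    MeasureTheory.setIntegral_const, smul_eq_mul, mul_one, ← mul_assoc, mul_comm w⁻¹, mul_assoc]
  refine mul_le_mul_of_nonneg_left ?_ (hc j hj)
  have h3 := mul_le_mul_of_nonneg_left (hSle j hj) (inv_pos.2 hw).le
  refine h3.trans (le_of_eq ?_)
  have hA0 : |(A j : ℝ)| ≠ 0 := abs_ne_zero.2 (Int.cast_ne_zero.2 (hA j hj))
  field_simp

end Pool.A6405.LL
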