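import Pool.Agent.H.MP_a6405b_nt.helper54.Basic

set_option autoImplicit false

namespace Pool.A6405.LL

/-- the case `A > 0`, `t ≤ 1/2` -/
theorem AvgMeas_pos (A : ℤ) (hA : 0 < A) (β t u w : ℝ) (hw : 0 < w) (ht : 0 ≤ t)
    (ht2 : t ≤ 1 / 2) :
    MeasureTheory.volume {x : ℝ | x ∈ Set.Icc u (u + w) ∧ nn (A * x + β) ≤ t} ≤
      ENNReal.ofReal (2 * t * (w + 2 / (A : ℝ))) := by
  have hAR : (0 : ℝ) < (A : ℝ) := by exact_mod_cast hA
  set lo : ℝ := A * u + β - t with hlo
  set hi : ℝ := A * (u + w) + β + t with hhi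
  have hsub : {x : ℝ | x ∈ Set.Icc u (u + w) ∧ nn (A * x + β) ≤ t} ⊆
      ⋃ p ∈ Finset.Icc ⌈lo⌉ ⌊hi⌋, Set.Icc (((p : ℝ) - β - t) / A) (((p : ℝ) - β + t) / A) := by
    rintro x ⟨⟨h1, h2⟩, h3⟩
    obtain ⟨p, hp⟩ := exists_nn (A * x + β)
    rw [hp, abs_le] at h3
    have h4 : (A : ℝ) * u ≤ A * x := mul_le_mul_of_nonneg_left h1 hAR.le
    have h5 : (A : ℝ) * x ≤ A * (u + w) := mul_le_mul_of_nonneg_left h2 hAR.le
    refine Set.mem_biUnion (x := p) ?_ ?_
    · rw [Finset.coe_Icc, Set.mem_Icc]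
      constructor
      · rw [Int.ceil_le, hlo]
        linarith [h3.2]
      · rw [Int.le_floor, hhi]
        linarith [h3.1]
    · rw [Set.mem_Icc, div_le_iff₀ hAR, le_div_iff₀ hAR]
      constructor
      · linarith [h3.1, h3.2]
      · linarith [h3.1, h3.2]
  refine (MeasureTheory.measure_mono hsub).trans ?_
  refine (MeasureTheory.measure_biUnion_finset_le _ _).trans ?_
  have hvol : ∀ p : ℤ, MeasureTheory.volume
      (Set.Icc (((p : ℝ) - β - t) / A) (((p : ℝ) - β + t) / A)) = ENNReal.ofReal (2 * t / A) := by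
    intro p
    rw [Real.volume_Icc]
    congr 1
    field_simp
    ring
  rw [Finset.sum_congr rfl fun p _ => hvol p, Finset.sum_const, nsmul_eq_mul,
    ← ENNReal.ofReal_natCast, ← ENNReal.ofReal_mul (Nat.cast_nonneg _)]
  apply ENNReal.ofReal_le_ofReal
  have hcard : ((Finset.Icc ⌈lo⌉ ⌊hi⌋).card : ℝ) ≤ A * w + 2 := by
    rw [Int.card_Icc]
    have h1 : hi - lo = A * w + 2 * t := by
      rw [hhi, hlo]
      ring
    have h2 : 0 ≤ (A : ℝ) * w := mul_nonneg hAR.le hw.le
    rcases le_total 0 (⌊hi⌋ + 1 - ⌈lo⌉) with h | h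
    · have h3 : (((⌊hi⌋ + 1 - ⌈lo⌉).toNat : ℕ) : ℝ) = ((⌊hi⌋ + 1 - ⌈lo⌉ : ℤ) : ℝ) := by
        exact_mod_cast Int.toNat_of_nonneg h
      rw [h3]
      push_cast
      linarith [Int.floor_le hi, Int.le_ceil lo]
    · rw [Int.toNat_of_nonpos h, Nat.cast_zero]
      linarith
  have h6 : 0 ≤ 2 * t / (A : ℝ) := div_nonneg (by linarith) hAR.le
  calc ((Finset.Icc ⌈lo⌉ ⌊hi⌋).card : ℝ) * (2 * t / A) ≤ (A * w + 2) * (2 * t / A) :=
        mul_le_mul_of_nonneg_right hcard h6
    _ = 2 * t * (w + 2 / (A : ℝ)) := by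
        field_simp

/- PROOF. For t > 1/2 trivial (w ≤ 2 t (w + ...)). For t ≤ 1/2 the set is covered by the intervals of length 2t/|A| around (p - β)/A, p integer,
at most |A| w + 2 t + 1 ≤ |A| w + 2 of them meet [u, u+w]. -/
/-- measure of the set where `A x + β` is within `t` of an integer -/
theorem meas_le (A : ℤ) (hA : A ≠ 0) (β t u w : ℝ) (hw : 0 < w) (ht : 0 ≤ t) :
    MeasureTheory.volume {x : ℝ | x ∈ Set.Icc u (u + w) ∧ nn (A * x + β) ≤ t} ≤
      ENNReal.ofReal (2 * t * (w + 2 / |(A : ℝ)|)) := by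
  rcases le_total t (1 / 2) with ht2 | ht2
  · rcases lt_or_gt_of_ne hA with h | h
    · have h1 : (0 : ℤ) < -A := by linarith
      have h2 := AvgMeas_pos (-A) h1 (-β) t u w hw ht ht2
      have h3 : ∀ x : ℝ, nn (((-A : ℤ) : ℝ) * x + -β) = nn (A * x + β) := by
        intro x
        rw [← nn_neg (A * x + β)]
        congr 1
        push_cast
        ring
      have hAR : (A : ℝ) < 0 := by exact_mod_cast h
      simp only [h3] at h2
      rw [abs_of_neg hAR]
      rw [Int.cast_neg] at h2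
      exact h2
    · have hAR : (0 : ℝ) < A := by exact_mod_cast h
      rw [abs_of_pos hAR]
      exact AvgMeas_pos A h β t u w hw ht ht2
  · have h1 : MeasureTheory.volume {x : ℝ | x ∈ Set.Icc u (u + w) ∧ nn (A * x + β) ≤ t} ≤
        MeasureTheory.volume (Set.Icc u (u + w)) := MeasureTheory.measure_mono fun x hx => hx.1
    rw [Real.volume_Icc] at h1
    refine h1.trans (ENNReal.ofReal_le_ofReal ?_)
    have h2 : 0 ≤ 2 / |(A : ℝ)| := div_nonneg zero_le_two (abs_nonneg _)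
    have h3 : w ≤ w + 2 / |(A : ℝ)| := by linarith
    nlinarith

/-- the set above is measurable (closed) -/
theorem meas_measurable (A : ℤ) (β t u w : ℝ) :
    MeasurableSet {x : ℝ | x ∈ Set.Icc u (u + w) ∧ nn (A * x + β) ≤ t} := by
  have hnn : Measurable nn := by
    have h1 : (nn : ℝ → ℝ) = fun x => |x - ((⌊x + 1 / 2⌋ : ℤ) : ℝ)| := by
      funext x
      unfold nn
      rw [round_eq]
    rw [h1]
    exact continuous_abs.measurable.comp (measurable_id.sub
      ((measurable_from_top (f := fun z : ℤ => (z : ℝ))).comp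
        (Int.measurable_floor.comp (measurable_id.add_const _))))
  have h2 : Measurable fun x : ℝ => nn (A * x + β) :=
    hnn.comp ((measurable_id.const_mul _).add_const _)
  exact measurableSet_Icc.inter (measurableSet_le h2 measurable_const)

end Pool.A6405.LL
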