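import Mathlib

/-! LogLoss (MP_a6405b_nt): definitions and elementary facts.  Paper proof: team-store file a6405b_LogLoss.md -/

namespace Pool.A6405.LL

/-- distance to the nearest integer -/
noncomputable def nn (x : ℝ) : ℝ := |x - round x|

noncomputable def hb (k : ℤ) : ℝ := max 1 |(k : ℝ)|

/-- the threshold `ψ(q) = max (δ / 2^n) (η / q)` -/
noncomputable def psi (n : ℕ) (δ η : ℝ) (q : ℕ) : ℝ := max (δ / 2 ^ n) (η / q)

noncomputable def yy (ξ₁ ξ₂ : ℝ) (q : ℕ) : ℝ := nn (q * ξ₁) * nn (q * ξ₂)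

/-- threshold of the P-event `q` -/
noncomputable def tauP (n : ℕ) (δ η ξ₁ ξ₂ : ℝ) (q : ℕ) : ℝ := psi n δ η q / yy ξ₁ ξ₂ q

/-- half length of the P-event `q` -/
noncomputable def rP (n : ℕ) (δ η ξ₁ ξ₂ : ℝ) (q : ℕ) : ℝ := psi n δ η q / (q * yy ξ₁ ξ₂ q)

/-- threshold of the D-event `a` -/
noncomputable def tauD (η : ℝ) (a : ℤ × ℤ × ℕ) : ℝ := η / (hb a.1 * hb a.2.1 * a.2.2)

/-- half length of the D-event `a` -/
noncomputable def rD (η : ℝ) (a : ℤ × ℤ × ℕ) : ℝ := η / (hb a.1 * hb a.2.1 * (a.2.2 : ℝ) ^ 2)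

/-- index set of the P-events -/
def EP (n : ℕ) : Finset ℕ := Finset.Icc 1 (2 ^ n)

open Classical in
/-- index set of the D-events -/
noncomputable def ED (n : ℕ) : Finset (ℤ × ℤ × ℕ) :=
  ((Finset.Icc (-2 ^ n : ℤ) (2 ^ n)) ×ˢ (Finset.Icc (-2 ^ n : ℤ) (2 ^ n)) ×ˢ (Finset.Icc 1 (2 ^ n))).filter
    (fun a => hb a.1 * hb a.2.1 * (a.2.2 : ℝ) ≤ 2 ^ n)

/-- condition (B1) -/
def B1 (n : ℕ) (ξ₁ ξ₂ : ℝ) : Prop :=
  ∀ q : ℕ, 1 ≤ q → q ≤ 2 ^ n → (1 : ℝ) / 2 ^ (2 * n) ≤ nn (q * ξ₁) ∧ (1 : ℝ) / 2 ^ (2 * n) ≤ nn (q * ξ₂)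

/-- condition (B2) -/
def B2 (n : ℕ) (η ξ₁ ξ₂ : ℝ) : Prop :=
  ∀ a₁ a₂ : ℤ, (a₁ ≠ 0 ∨ a₂ ≠ 0) → hb a₁ * hb a₂ ≤ 2 ^ n → η / (hb a₁ * hb a₂) ≤ nn (a₁ * ξ₁ + a₂ * ξ₂)

/-- `x` avoids all P-events with `lam ≤ r` -/
def AvP (n : ℕ) (δ η ξ₁ ξ₂ x lam : ℝ) : Prop :=
  ∀ q ∈ EP n, lam ≤ rP n δ η ξ₁ ξ₂ q → tauP n δ η ξ₁ ξ₂ q ≤ nn (q * x)

/-- `x` avoids all D-events with `lam ≤ r` -/
def AvD (n : ℕ) (η ξ₁ ξ₂ x lam : ℝ) : Prop :=
  ∀ a ∈ ED n, lam ≤ rD η a → tauD η a ≤ nn (a.2.2 * x + (a.1 * ξ₁ + a.2.1 * ξ₂))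

lemma nn_nonneg (x : ℝ) : 0 ≤ nn x := abs_nonneg _

lemma nn_le_half (x : ℝ) : nn x ≤ 1 / 2 := abs_sub_round x

lemma nn_le (x : ℝ) (z : ℤ) : nn x ≤ |x - z| := round_le x z

lemma exists_nn (x : ℝ) : ∃ z : ℤ, nn x = |x - z| := ⟨round x, rfl⟩

lemma nn_neg (x : ℝ) : nn (-x) = nn x := by
  apply le_antisymm
  · obtain ⟨z, hz⟩ := exists_nn x
    have := nn_le (-x) (-z)
    rw [hz]; refine this.trans (le_of_eq ?_)
    push_cast; rw [← abs_neg]; congr 1; ring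
  · obtain ⟨z, hz⟩ := exists_nn (-x)
    have := nn_le x (-z)
    rw [hz]; refine this.trans (le_of_eq ?_)
    push_cast; rw [← abs_neg]; congr 1; ring

lemma nn_add_le (x y : ℝ) : nn (x + y) ≤ nn x + nn y := by
  obtain ⟨z, hz⟩ := exists_nn x
  obtain ⟨w, hw⟩ := exists_nn y
  have := nn_le (x + y) (z + w)
  rw [hz, hw]
  refine this.trans ?_
  push_cast
  have : x + y - (z + w) = (x - z) + (y - w) := by ring
  rw [this]; exact abs_add_le _ _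

lemma nn_sub_le (x y : ℝ) : nn (x - y) ≤ nn x + nn y := by
  have := nn_add_le x (-y); rwa [nn_neg, ← sub_eq_add_neg] at this

lemma nn_add_abs (x y : ℝ) : nn (x + y) ≤ nn x + |y| := by
  have h := nn_add_le x y
  have h2 : nn y ≤ |y| := by simpa using nn_le y 0
  linarith

lemma nn_sub_abs (x y : ℝ) : nn x - |y| ≤ nn (x + y) := by
  have h := nn_add_abs (x + y) (-y)
  rw [add_neg_cancel_right, abs_neg] at h
  linarith

lemma nn_add_int (x : ℝ) (z : ℤ) : nn (x + z) = nn x := by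
  unfold nn; rw [round_add_intCast]; push_cast; congr 1; ring

lemma nn_int_mul (k : ℤ) (x : ℝ) : nn (k * x) ≤ |(k : ℝ)| * nn x := by
  obtain ⟨z, hz⟩ := exists_nn x
  have := nn_le (k * x) (k * z)
  rw [hz, ← abs_mul]
  refine this.trans (le_of_eq ?_)
  push_cast; congr 1; ring

lemma nn_nat_mul (k : ℕ) (x : ℝ) : nn (k * x) ≤ k * nn x := by
  have := nn_int_mul k x
  simpa using this

/-- if `|x - z| < 1/2`, then `nn x = |x - z|` -/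
lemma nn_eq_of_lt (x : ℝ) (z : ℤ) (h : |x - z| < 1 / 2) : nn x = |x - z| := by
  have : round x = z := by
    rw [abs_lt] at h
    rw [round_eq, Int.floor_eq_iff]
    constructor <;> linarith
  unfold nn; rw [this]

lemma one_le_hb (k : ℤ) : 1 ≤ hb k := le_max_left _ _

lemma hb_pos (k : ℤ) : 0 < hb k := lt_of_lt_of_le one_pos (one_le_hb k)

lemma abs_le_hb (k : ℤ) : |(k : ℝ)| ≤ hb k := le_max_right _ _

lemma hb_le {k : ℤ} {t : ℝ} (h1 : 1 ≤ t) (h2 : |(k : ℝ)| ≤ t) : hb k ≤ t := max_le h1 h2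

lemma hb_neg (k : ℤ) : hb (-k) = hb k := by unfold hb; push_cast; rw [abs_neg]

end Pool.A6405.LL
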