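import Pool.Agent.H.MP_a6405b_nt.helper54.Basic

set_option autoImplicit false

namespace Pool.A6405.LL

open MeasureTheory UnitAddTorus

attribute [local instance] instMeasureSpaceUnitAddCircle

local instance boxProb : IsProbabilityMeasure (volume : Measure UnitAddCircle) :=
  inferInstanceAs (IsProbabilityMeasure AddCircle.haarAddCircle)

lemma box_ball (x : UnitAddCircle) (ε : ℝ) :
    volume (Metric.closedBall x ε) = ENNReal.ofReal (min 1 (2 * ε)) := by
  have h1 := AddCircle.volume_closedBall (T := 1) (x := x) ε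
  rw [AddCircle.volume_eq_smul_haarAddCircle, ENNReal.ofReal_one, one_smul] at h1
  exact h1

lemma box_norm (x : ℝ) : ‖(x : UnitAddCircle)‖ = nn x := by
  rw [UnitAddCircle.norm_eq]; rfl

lemma box_re (z : UnitAddCircle) (hz : ‖z‖ ≤ 1 / 6) :
    1 / 2 ≤ ((AddCircle.toCircle z : Circle) : ℂ).re := by
  induction z using QuotientAddGroup.induction_on with
  | H y =>
    have h1 : ‖(y : UnitAddCircle)‖ = |y - round y| := UnitAddCircle.norm_eq
    have h2 : ((y : ℝ) : UnitAddCircle) = ((y - round y : ℝ) : UnitAddCircle) := by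
      rw [AddCircle.coe_sub]
      have h3 : (((round y : ℤ) : ℝ) : UnitAddCircle) = 0 := by
        rw [AddCircle.coe_eq_zero_iff]
        exact ⟨round y, by simp⟩
      rw [h3, sub_zero]
    have hz' : |y - round y| ≤ 1 / 6 := by
      rw [← h1]
      exact hz
    change 1 / 2 ≤ ((AddCircle.toCircle ((y : ℝ) : UnitAddCircle) : Circle) : ℂ).re
    rw [h2, AddCircle.toCircle_apply_mk, Circle.coe_exp, Complex.exp_ofReal_mul_I_re,
      ← Real.cos_abs, abs_mul]
    have hpi := Real.pi_pos
    have h4 : |2 * Real.pi / 1| = 2 * Real.pi := by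
      rw [div_one]
      exact abs_of_pos (by positivity)
    rw [h4, ← Real.cos_pi_div_three]
    refine Real.cos_le_cos_of_nonneg_of_le_pi (by positivity) (by linarith) ?_
    nlinarith [abs_nonneg (y - round y)]

lemma box_mFourier {d : ℕ} (a : Fin d → ℤ) (t : UnitAddTorus (Fin d)) :
    mFourier a t = ((AddCircle.toCircle (∑ i, a i • t i) : Circle) : ℂ) := by
  have h : ∀ s : Finset (Fin d), ∏ i ∈ s, (fourier (a i) (t i) : ℂ) =
      ((AddCircle.toCircle (∑ i ∈ s, a i • t i) : Circle) : ℂ) := by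
    intro s
    induction s using Finset.induction_on with
    | empty => simp
    | insert i s his ih =>
      rw [Finset.prod_insert his, Finset.sum_insert his, ih, AddCircle.toCircle_add,
        Circle.coe_mul, fourier_apply]
  exact h Finset.univ

lemma box_sq {d : ℕ} (S : Finset (Fin d → ℤ)) :
    ∫ t : UnitAddTorus (Fin d), ‖∑ a ∈ S, mFourier a t‖ ^ 2 = S.card := by
  have h1 := orthonormal_mFourier (d := Fin d)
  have h2 : (inner ℂ (∑ a ∈ S, mFourierLp (d := Fin d) 2 a) (∑ a ∈ S, mFourierLp (d := Fin d) 2 a)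
      : ℂ) = S.card := by
    have h3 := h1.inner_sum (fun _ => (1 : ℂ)) (fun _ => (1 : ℂ)) S
    simpa using h3
  rw [MeasureTheory.L2.inner_def] at h2
  have h4 : (∑ a ∈ S, mFourierLp (d := Fin d) 2 a : Lp ℂ 2 (volume : Measure (UnitAddTorus (Fin d))))
      =ᵐ[volume] fun t => ∑ a ∈ S, mFourier a t := by
    have h5 : (∑ a ∈ S, mFourierLp (d := Fin d) 2 a) =
        ContinuousMap.toLp (E := ℂ) 2 volume ℂ (∑ a ∈ S, mFourier a) := by
      rw [map_sum]
    rw [h5]
    refine (ContinuousMap.coeFn_toLp volume (∑ a ∈ S, mFourier a)).trans ?_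
    refine Filter.Eventually.of_forall fun t => ?_
    simp
  have h6 : ∫ t : UnitAddTorus (Fin d), ((‖∑ a ∈ S, mFourier a t‖ ^ 2 : ℝ) : ℂ) = S.card := by
    rw [← h2]
    refine integral_congr_ae ?_
    filter_upwards [h4] with t ht
    rw [ht, inner_self_eq_norm_sq_to_K]
    norm_cast
  rw [integral_complex_ofReal] at h6
  exact_mod_cast h6

/- PROOF (section 1). f(t) = sum over a in S of mFourier a t on UnitAddTorus (Fin d); the integral of |f|^2 is |S| by
orthonormality (orthonormal_mFourier). Box_p = Set.pi univ (closed balls around theta p i of radius 1/(12 d u_i)); these are pairwise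
disjoint (2/(12 d u_i) < 1/u_i) and have volume prod of 1/(6 d u_i). On Box_p: the distance of a.t to the integers is at most
1/12 + sum u_i/(12 d u_i) = 1/6, so every summand has real part at least cos(pi/3) = 1/2 and |f| >= |S|/2. Compare the integrals. -/
/-- Box lemma: finite set `S` of integer vectors with `|a i| ≤ u i`, points `θ p` separated in boxes `1 / u i`,
all `a · θ p` within `1/12` of an integer. -/
theorem box_lemma {d : ℕ} (hd : 1 ≤ d) (u : Fin d → ℕ) (hu : ∀ i, 1 ≤ u i)
    (S : Finset (Fin d → ℤ)) (hS : ∀ a ∈ S, ∀ i, |(a i : ℝ)| ≤ u i)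
    {ι : Type*} (P : Finset ι) (θ : ι → Fin d → ℝ)
    (hsep : ∀ p ∈ P, ∀ p' ∈ P, p ≠ p' → ∃ i, 1 / (u i : ℝ) ≤ nn (θ p i - θ p' i))
    (hnear : ∀ a ∈ S, ∀ p ∈ P, nn (∑ i, (a i : ℝ) * θ p i) ≤ 1 / 12) :
    (S.card : ℝ) * P.card ≤ 4 * (6 * d) ^ d * ∏ i, (u i : ℝ) := by
  classical
  have hd' : (1 : ℝ) ≤ d := by exact_mod_cast hd
  have hu' : ∀ i, (1 : ℝ) ≤ u i := fun i => by exact_mod_cast hu i
  rcases Finset.eq_empty_or_nonempty S with rfl | hne
  · rw [Finset.card_empty, Nat.cast_zero, zero_mul]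
    have : 0 ≤ ∏ i, (u i : ℝ) := Finset.prod_nonneg fun i _ => (zero_le_one.trans (hu' i))
    positivity
  have hScard : (0 : ℝ) < S.card := by exact_mod_cast hne.card_pos
  let r : Fin d → ℝ := fun i => 1 / (12 * d * u i)
  have hr : ∀ i, 0 < r i := fun i => by
    have := hu' i
    have h1 : (0 : ℝ) < 12 * d * u i := by positivity
    exact one_div_pos.2 h1
  let Bx : ι → Set (UnitAddTorus (Fin d)) := fun p =>
    Set.univ.pi fun i => Metric.closedBall ((θ p i : ℝ) : UnitAddCircle) (r i)
  have hmeas : ∀ p, MeasurableSet (Bx p) := fun p =>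
    MeasurableSet.univ_pi fun i => Metric.isClosed_closedBall.measurableSet
  -- volume
  have hvol : ∀ p, (volume : Measure (UnitAddTorus (Fin d))).real (Bx p) =
      ∏ i, (1 / (6 * d * u i) : ℝ) := by
    intro p
    have h1 : (volume : Measure (UnitAddTorus (Fin d))) (Bx p) =
        ∏ i, volume (Metric.closedBall ((θ p i : ℝ) : UnitAddCircle) (r i)) :=
      MeasureTheory.volume_pi_pi _
    rw [MeasureTheory.measureReal_def, h1, ENNReal.toReal_prod]
    refine Finset.prod_congr rfl fun i _ => ?_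
    have h3 : (0 : ℝ) < 12 * d * u i := by
      have := hu' i
      positivity
    have h4 : 2 * r i = 1 / (6 * d * u i) := by
      have := hu' i
      show (2 : ℝ) * (1 / (12 * d * u i)) = _
      field_simp
      ring
    have h5 : 2 * r i ≤ 1 := by
      rw [h4, div_le_one (by have := hu' i; positivity)]
      nlinarith [hu' i, mul_le_mul hd' (hu' i) zero_le_one (by linarith)]
    rw [box_ball, min_eq_right h5, h4, ENNReal.toReal_ofReal]
    have := hu' i
    positivity
  -- disjointness
  have hdisj : (P : Set ι).PairwiseDisjoint Bx := by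
    intro p hp p' hp' hne'
    rw [Function.onFun, Set.disjoint_left]
    intro t ht ht'
    obtain ⟨i, hi⟩ := hsep p hp p' hp' hne'
    have h1 := ht i (Set.mem_univ i)
    have h2 := ht' i (Set.mem_univ i)
    rw [Metric.mem_closedBall, dist_eq_norm] at h1 h2
    have h3 : ‖((θ p i - θ p' i : ℝ) : UnitAddCircle)‖ ≤ r i + r i := by
      have h4 : ((θ p i - θ p' i : ℝ) : UnitAddCircle) =
          (t i - ((θ p' i : ℝ) : UnitAddCircle)) - (t i - ((θ p i : ℝ) : UnitAddCircle)) := by
        rw [AddCircle.coe_sub]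
        abel
      rw [h4]
      exact (norm_sub_le _ _).trans (add_le_add h2 h1)
    rw [box_norm] at h3
    have h5 : r i + r i < 1 / (u i : ℝ) := by
      show 1 / (12 * d * u i) + 1 / (12 * d * u i) < 1 / (u i : ℝ)
      have := hu' i
      rw [← two_mul, mul_one_div, div_lt_div_iff₀ (by positivity) (by positivity)]
      nlinarith [mul_le_mul hd' (hu' i) zero_le_one (by linarith)]
    linarith
  -- lower bound on the boxes
  have hlow : ∀ p ∈ P, ∀ t ∈ Bx p, ((S.card : ℝ) / 2) ^ 2 ≤ ‖∑ a ∈ S, mFourier a t‖ ^ 2 := by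
    intro p hp t ht
    refine pow_le_pow_left₀ (by positivity) ?_ 2
    refine le_trans ?_ (Complex.re_le_norm _)
    rw [Complex.re_sum]
    have h1 : ∀ a ∈ S, (1 : ℝ) / 2 ≤ (mFourier a t).re := by
      intro a ha
      rw [box_mFourier]
      refine box_re _ ?_
      have h2 : ∑ i, a i • t i = ((∑ i, (a i : ℝ) * θ p i : ℝ) : UnitAddCircle) +
          ∑ i, a i • (t i - ((θ p i : ℝ) : UnitAddCircle)) := by
        have h3 : ((∑ i, (a i : ℝ) * θ p i : ℝ) : UnitAddCircle) =
            ∑ i, a i • ((θ p i : ℝ) : UnitAddCircle) := by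
          rw [show ((∑ i, (a i : ℝ) * θ p i : ℝ) : UnitAddCircle) =
            (QuotientAddGroup.mk' _ : ℝ →+ UnitAddCircle) (∑ i, (a i : ℝ) * θ p i) from rfl,
            map_sum]
          refine Finset.sum_congr rfl fun i _ => ?_
          rw [← zsmul_eq_mul, map_zsmul]
          rfl
        rw [h3, ← Finset.sum_add_distrib]
        refine Finset.sum_congr rfl fun i _ => ?_
        rw [← smul_add]
        congr 1
        abel
      rw [h2]
      refine (norm_add_le _ _).trans ?_
      rw [box_norm]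
      have h4 : ‖∑ i, a i • (t i - ((θ p i : ℝ) : UnitAddCircle))‖ ≤ 1 / 12 := by
        refine (norm_sum_le _ _).trans ?_
        have h5 : ∀ i ∈ Finset.univ, ‖a i • (t i - ((θ p i : ℝ) : UnitAddCircle))‖ ≤
            1 / (12 * d : ℝ) := by
          intro i _
          have h6 := ht i (Set.mem_univ i)
          rw [Metric.mem_closedBall, dist_eq_norm] at h6
          have h7 : ‖a i • (t i - ((θ p i : ℝ) : UnitAddCircle))‖ ≤
              |(a i : ℝ)| * ‖t i - ((θ p i : ℝ) : UnitAddCircle)‖ := by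
            have h8 := norm_zsmul_le (a i) (t i - ((θ p i : ℝ) : UnitAddCircle))
            rwa [Int.norm_eq_abs] at h8
          refine h7.trans ((mul_le_mul (hS a ha i) h6 (norm_nonneg _)
            (zero_le_one.trans (hu' i))).trans (le_of_eq ?_))
          show (u i : ℝ) * (1 / (12 * d * u i)) = _
          have := hu' i
          field_simp
        refine (Finset.sum_le_sum h5).trans (le_of_eq ?_)
        rw [Finset.sum_const, Finset.card_univ, Fintype.card_fin, nsmul_eq_mul]
        field_simp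
      have h9 := hnear a ha p hp
      linarith
    have h10 := Finset.sum_le_sum h1
    rw [Finset.sum_const, nsmul_eq_mul] at h10
    linarith
  -- comparison of the integrals
  have hcont : Continuous fun t : UnitAddTorus (Fin d) => ‖∑ a ∈ S, mFourier a t‖ ^ 2 := by
    fun_prop
  have hint : Integrable (fun t : UnitAddTorus (Fin d) => ‖∑ a ∈ S, mFourier a t‖ ^ 2) volume :=
    hcont.integrable_of_hasCompactSupport (HasCompactSupport.of_compactSpace _)
  have hmk := mul_meas_ge_le_integral_of_nonneg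
    (Filter.Eventually.of_forall fun t : UnitAddTorus (Fin d) =>
      sq_nonneg ‖∑ a ∈ S, mFourier a t‖) hint (((S.card : ℝ) / 2) ^ 2)
  rw [box_sq] at hmk
  have hsub : (volume : Measure (UnitAddTorus (Fin d))).real (⋃ p ∈ P, Bx p) ≤
      (volume : Measure (UnitAddTorus (Fin d))).real
        {t | ((S.card : ℝ) / 2) ^ 2 ≤ ‖∑ a ∈ S, mFourier a t‖ ^ 2} := by
    refine measureReal_mono ?_ (measure_ne_top _ _)
    intro t ht
    rw [Set.mem_iUnion₂] at ht
    obtain ⟨p, hp, ht⟩ := ht
    exact hlow p hp t ht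
  rw [measureReal_biUnion_finset hdisj (fun p _ => hmeas p) (fun p _ => measure_ne_top _ _),
    Finset.sum_congr rfl (fun p _ => hvol p), Finset.sum_const, nsmul_eq_mul] at hsub
  have h1 : ((S.card : ℝ) / 2) ^ 2 * (P.card * ∏ i, (1 / (6 * d * u i) : ℝ)) ≤ S.card :=
    (mul_le_mul_of_nonneg_left hsub (by positivity)).trans hmk
  have h2 : ∏ i, (1 / (6 * d * u i) : ℝ) = 1 / ((6 * d) ^ d * ∏ i, (u i : ℝ)) := by
    rw [Finset.prod_div_distrib, Finset.prod_const_one, Finset.prod_mul_distrib,
      Finset.prod_const, Finset.card_univ, Fintype.card_fin]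
  have h3 : (0 : ℝ) < (6 * d) ^ d * ∏ i, (u i : ℝ) := by
    have : 0 < ∏ i, (u i : ℝ) := Finset.prod_pos fun i _ => lt_of_lt_of_le one_pos (hu' i)
    positivity
  rw [h2, mul_one_div, ← mul_div_assoc, div_le_iff₀ h3] at h1
  have h4 : (S.card : ℝ) * ((S.card : ℝ) * P.card) ≤
      (S.card : ℝ) * (4 * (6 * d) ^ d * ∏ i, (u i : ℝ)) := by
    nlinarith [h1]
  exact le_of_mul_le_mul_left h4 hScard

end Pool.A6405.LL
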