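import Pool.Agent.H.MP_a6405b_nt.helper54.Box

set_option autoImplicit false

namespace Pool.A6405.LL

/- PROOF. box_lemma for d = 1 and d = 3 (4 * 6 = 24, 4 * 18^3 = 23328), S mapped injectively into Fin d → ℤ. -/
/-- the case `d = 1` for sets of natural numbers -/
theorem box_lemma_one (N : ℕ) (hN : 1 ≤ N) (S : Finset ℕ) (hS : ∀ q ∈ S, q ≤ N)
    {ι : Type*} (P : Finset ι) (θ : ι → ℝ)
    (hsep : ∀ p ∈ P, ∀ p' ∈ P, p ≠ p' → 1 / (N : ℝ) ≤ nn (θ p - θ p'))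
    (hnear : ∀ q ∈ S, ∀ p ∈ P, nn ((q : ℝ) * θ p) ≤ 1 / 12) :
    (S.card : ℝ) * P.card ≤ 24 * N := by
  classical
  have hinj : Function.Injective (fun q : ℕ => (fun _ => (q : ℤ) : Fin 1 → ℤ)) := by
    intro q q' h
    have h1 : (q : ℤ) = (q' : ℤ) := congrFun h 0
    exact_mod_cast h1
  have h := box_lemma (d := 1) le_rfl (fun _ => N) (fun _ => hN)
    (S.map ⟨fun q : ℕ => (fun _ => (q : ℤ) : Fin 1 → ℤ), hinj⟩) ?_ P (fun p _ => θ p) ?_ ?_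
  · rw [Finset.card_map] at h
    refine h.trans (le_of_eq ?_)
    simp only [Finset.univ_unique, Finset.prod_const, Finset.card_singleton, pow_one]
    norm_num
  · intro a ha i
    rw [Finset.mem_map] at ha
    obtain ⟨q, hq, rfl⟩ := ha
    have h1 : (q : ℝ) ≤ N := by exact_mod_cast hS q hq
    simpa using h1
  · intro p hp p' hp' hne
    exact ⟨0, hsep p hp p' hp' hne⟩
  · intro a ha p hp
    rw [Finset.mem_map] at ha
    obtain ⟨q, hq, rfl⟩ := ha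
    simpa using hnear q hq p hp

/-- the case `d = 3` for triples -/
theorem box_lemma_three (u₁ u₂ u₃ : ℕ) (h₁ : 1 ≤ u₁) (h₂ : 1 ≤ u₂) (h₃ : 1 ≤ u₃)
    (S : Finset (ℤ × ℤ × ℕ))
    (hS : ∀ a ∈ S, |(a.1 : ℝ)| ≤ u₁ ∧ |(a.2.1 : ℝ)| ≤ u₂ ∧ (a.2.2 : ℝ) ≤ u₃)
    {ι : Type*} (P : Finset ι) (θ : ι → ℝ × ℝ × ℝ)
    (hsep : ∀ p ∈ P, ∀ p' ∈ P, p ≠ p' → 1 / (u₁ : ℝ) ≤ nn ((θ p).1 - (θ p').1) ∨
      1 / (u₂ : ℝ) ≤ nn ((θ p).2.1 - (θ p').2.1) ∨ 1 / (u₃ : ℝ) ≤ nn ((θ p).2.2 - (θ p').2.2))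
    (hnear : ∀ a ∈ S, ∀ p ∈ P,
      nn ((a.1 : ℝ) * (θ p).1 + (a.2.1 : ℝ) * (θ p).2.1 + (a.2.2 : ℝ) * (θ p).2.2) ≤ 1 / 12) :
    (S.card : ℝ) * P.card ≤ 23328 * ((u₁ : ℝ) * u₂ * u₃) := by
  classical
  have hinj : Function.Injective (fun a : ℤ × ℤ × ℕ => (![a.1, a.2.1, (a.2.2 : ℤ)] : Fin 3 → ℤ)) := by
    intro a b h
    have e0 := congrFun h 0
    have e1 := congrFun h 1
    have e2 := congrFun h 2
    simp only [Matrix.cons_val_zero, Matrix.cons_val_one, Matrix.cons_val] at e0 e1 e2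
    refine Prod.ext e0 (Prod.ext e1 ?_)
    exact_mod_cast e2
  have h := box_lemma (d := 3) (by norm_num) ![u₁, u₂, u₃] ?_
    (S.map ⟨fun a : ℤ × ℤ × ℕ => (![a.1, a.2.1, (a.2.2 : ℤ)] : Fin 3 → ℤ), hinj⟩) ?_ P
    (fun p => ![(θ p).1, (θ p).2.1, (θ p).2.2]) ?_ ?_
  · rw [Finset.card_map] at h
    refine h.trans (le_of_eq ?_)
    simp only [Fin.prod_univ_three, Matrix.cons_val_zero, Matrix.cons_val_one, Matrix.cons_val]
    norm_num
  · intro i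
    fin_cases i
    · exact h₁
    · exact h₂
    · exact h₃
  · intro a ha i
    rw [Finset.mem_map] at ha
    obtain ⟨q, hq, rfl⟩ := ha
    obtain ⟨e1, e2, e3⟩ := hS q hq
    fin_cases i
    · simpa using e1
    · simpa using e2
    · simpa using e3
  · intro p hp p' hp' hne
    rcases hsep p hp p' hp' hne with h | h | h
    · exact ⟨0, by simpa using h⟩
    · exact ⟨1, by simpa using h⟩
    · exact ⟨2, by simpa using h⟩
  · intro a ha p hp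
    rw [Finset.mem_map] at ha
    obtain ⟨q, hq, rfl⟩ := ha
    have h := hnear q hq p hp
    simpa [Fin.sum_univ_three] using h

end Pool.A6405.LL
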