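import Pool.Agent.H.MP_a6405b_nt.helper54.Basic

set_option autoImplicit false

namespace Pool.A6405.LL

/- PROOF. b = the largest natural number with t ≤ (1/2)^b (Nat.find or floor of log). -/
/-- dyadic exponent of a number in `(0,1/2]` -/
theorem exists_dyadic (t : ℝ) (ht : 0 < t) (ht' : t ≤ 1 / 2) :
    ∃ b : ℕ, 1 ≤ b ∧ t ≤ (1 / 2) ^ b ∧ (1 / 2) ^ (b + 1) < t := by
  classical
  have hex : ∃ k : ℕ, (1 / 2 : ℝ) ^ (k + 1) < t := by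
    obtain ⟨k, hk⟩ := exists_pow_lt_of_lt_one ht (by norm_num : (1 / 2 : ℝ) < 1)
    refine ⟨k, lt_of_le_of_lt ?_ hk⟩
    exact pow_le_pow_of_le_one (by norm_num) (by norm_num) (by omega)
  let b := Nat.find hex
  have hb : (1 / 2 : ℝ) ^ (b + 1) < t := Nat.find_spec hex
  have hb1 : 1 ≤ b := by
    by_contra h
    have h0 : b = 0 := by omega
    rw [h0] at hb
    norm_num at hb
    linarith
  refine ⟨b, hb1, ?_, hb⟩
  have := Nat.find_min hex (show b - 1 < b by omega)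
  push Not at this
  rwa [Nat.sub_add_cancel hb1] at this

/-- under (B1) the dyadic exponents of `nn (q ξ_i)` are at most `2 n` -/
theorem exists_dyadic_B1 (n : ℕ) (ξ₁ ξ₂ : ℝ) (hB1 : B1 n ξ₁ ξ₂) (q : ℕ) (h1 : 1 ≤ q) (h2 : q ≤ 2 ^ n) :
    ∃ b₁ b₂ : ℕ, 1 ≤ b₁ ∧ b₁ ≤ 2 * n ∧ 1 ≤ b₂ ∧ b₂ ≤ 2 * n ∧
      nn (q * ξ₁) ≤ (1 / 2) ^ b₁ ∧ (1 / 2) ^ (b₁ + 1) < nn (q * ξ₁) ∧
      nn (q * ξ₂) ≤ (1 / 2) ^ b₂ ∧ (1 / 2) ^ (b₂ + 1) < nn (q * ξ₂) := by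
  obtain ⟨ha, hb⟩ := hB1 q h1 h2
  have h0 : (0 : ℝ) < 1 / 2 ^ (2 * n) := by positivity
  have key : ∀ t : ℝ, (1 : ℝ) / 2 ^ (2 * n) ≤ t → t ≤ 1 / 2 →
      ∃ b : ℕ, 1 ≤ b ∧ b ≤ 2 * n ∧ t ≤ (1 / 2) ^ b ∧ (1 / 2) ^ (b + 1) < t := by
    intro t ht ht'
    obtain ⟨b, hb1, hb2, hb3⟩ := exists_dyadic t (lt_of_lt_of_le h0 ht) ht'
    refine ⟨b, hb1, ?_, hb2, hb3⟩
    by_contra hcon
    have hlt : (1 / 2 : ℝ) ^ b < (1 / 2) ^ (2 * n) :=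
      pow_lt_pow_right_of_lt_one₀ (by norm_num) (by norm_num) (by omega)
    have e : (1 : ℝ) / 2 ^ (2 * n) = (1 / 2) ^ (2 * n) := by rw [one_div_pow]
    rw [e] at ht
    linarith
  obtain ⟨b₁, x1, x2, x3, x4⟩ := key _ ha (nn_le_half _)
  obtain ⟨b₂, y1, y2, y3, y4⟩ := key _ hb (nn_le_half _)
  exact ⟨b₁, b₂, x1, x2, y1, y2, x3, x4, y3, y4⟩

/-- the threshold is almost constant on dyadic blocks -/
theorem psi_block (n : ℕ) (δ η : ℝ) (hδ : 0 < δ) (hη : 0 < η) (j q : ℕ) (h1 : 2 ^ j ≤ q) (h2 : q < 2 ^ (j + 1)) :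
    psi n δ η (2 ^ j) / 2 ≤ psi n δ η q ∧ psi n δ η q ≤ psi n δ η (2 ^ j) := by
  have hq1 : (2 : ℝ) ^ j ≤ q := by exact_mod_cast h1
  have hq2 : (q : ℝ) ≤ 2 ^ (j + 1) := by exact_mod_cast h2.le
  have hj : (0 : ℝ) < 2 ^ j := by positivity
  have hq0 : (0 : ℝ) < q := lt_of_lt_of_le hj hq1
  unfold psi
  push_cast
  constructor
  · have hd : 0 < δ / 2 ^ n := by positivity
    rw [div_le_iff₀ (by norm_num : (0 : ℝ) < 2)]
    refine max_le ?_ ?_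
    · have := le_max_left (δ / 2 ^ n) (η / q)
      linarith
    · have h3 := le_max_right (δ / 2 ^ n) (η / (q : ℝ))
      have h4 : η / 2 ^ j ≤ η / q * 2 := by
        rw [div_mul_eq_mul_div, div_le_div_iff₀ hj hq0]
        have : (2 : ℝ) ^ (j + 1) = 2 * 2 ^ j := by rw [pow_succ]; ring
        rw [this] at hq2
        nlinarith
      linarith
  · apply max_le_max (le_refl _)
    gcongr

theorem pow_mul_psi (n : ℕ) (δ η : ℝ) (hδ : 0 < δ) (hη : 0 < η) (j : ℕ) :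
    (2 : ℝ) ^ j * psi n δ η (2 ^ j) ≤ δ * 2 ^ j / 2 ^ n + η := by
  unfold psi
  push_cast
  have hj : (0 : ℝ) < 2 ^ j := by positivity
  have hn : (0 : ℝ) < 2 ^ n := by positivity
  rw [mul_max_of_nonneg _ _ hj.le]
  refine max_le ?_ ?_
  · have : (2 : ℝ) ^ j * (δ / 2 ^ n) = δ * 2 ^ j / 2 ^ n := by ring
    rw [this]; linarith
  · have : (2 : ℝ) ^ j * (η / 2 ^ j) = η := by field_simp
    rw [this]
    have : 0 < δ * 2 ^ j / 2 ^ n := by positivity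
    linarith

end Pool.A6405.LL
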