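import Pool.Agent.H.MP_a6405b_nt.helper54.OneScale

set_option autoImplicit false

namespace Pool.A6405.LL

open Filter Topology

/-- the threshold at scale `n` -/
noncomputable def thr (n : ℕ) : ℝ := (1 / 2 : ℝ) ^ 43 / (n * (Nat.log 2 n + 1 : ℕ)) / 2 ^ n

lemma continuous_nn : Continuous nn := by
  rw [Metric.continuous_iff]
  intro b ε hε
  refine ⟨ε, hε, fun a ha => ?_⟩
  rw [Real.dist_eq] at ha ⊢
  have h1 : nn a ≤ nn b + |a - b| := by
    have := nn_add_abs b (a - b); rwa [add_sub_cancel] at this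
  have h2 : nn b ≤ nn a + |a - b| := by
    have := nn_add_abs a (b - a); rw [add_sub_cancel] at this; rwa [abs_sub_comm] at this
  rw [abs_lt]
  constructor <;> linarith

/-- the set of points good at scale `n` -/
def good (n : ℕ) : Set (ℝ × ℝ × ℝ) :=
  ⋂ q ∈ (Finset.Icc 1 (2 ^ n) : Finset ℕ), {ξ : ℝ × ℝ × ℝ | thr n < nn (q * ξ.1) * nn (q * ξ.2.1) * nn (q * ξ.2.2)}

lemma isOpen_good (n : ℕ) : IsOpen (good n) := by
  unfold good
  apply isOpen_biInter_finset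
  intro q _
  apply isOpen_lt continuous_const
  have h := continuous_nn
  have h1 : Continuous (fun ξ : ℝ × ℝ × ℝ => nn (q * ξ.1)) := h.comp (by fun_prop)
  have h2 : Continuous (fun ξ : ℝ × ℝ × ℝ => nn (q * ξ.2.1)) := h.comp (by fun_prop)
  have h3 : Continuous (fun ξ : ℝ × ℝ × ℝ => nn (q * ξ.2.2)) := h.comp (by fun_prop)
  exact (h1.mul h2).mul h3

lemma thr_lt (n : ℕ) (hn : 1 ≤ n) (l : ℕ) (hl : l = Nat.log 2 n + 1) :
    thr n < (1 / 2 : ℝ) ^ 42 / (n * l) / 2 ^ n := by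
  unfold thr
  rw [hl]
  have hnR : (0 : ℝ) < n := by exact_mod_cast hn
  have hlR : (0 : ℝ) < (Nat.log 2 n + 1 : ℕ) := by positivity
  have h : (1 / 2 : ℝ) ^ 43 < (1 / 2 : ℝ) ^ 42 := by norm_num
  have h2 : (0 : ℝ) < n * (Nat.log 2 n + 1 : ℕ) := by positivity
  have h3 : (0 : ℝ) < 2 ^ n := by positivity
  exact div_lt_div_of_pos_right (div_lt_div_of_pos_right h h2) h3

lemma dense_good (N : ℕ) : Dense (⋃ n ≥ N, good n) := by
  intro p
  rw [mem_closure_iff_nhds]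
  intro s hs
  obtain ⟨ε, hε, hball⟩ := Metric.mem_nhds_iff.1 hs
  set w : ℝ := ε / 8 with hwdef
  have hw : 0 < w := by positivity
  obtain ⟨n0, hn0⟩ := oneScale p.1 p.2.1 p.2.2 w hw
  obtain ⟨n1, hn1⟩ := exists_pow_lt_of_lt_one hw (by norm_num : (1 / 2 : ℝ) < 1)
  set n := max (max n0 n1) (max N 1) with hn
  have a1 : n0 ≤ n := le_trans (le_max_left _ _) (le_max_left _ _)
  have a2 : n1 ≤ n := le_trans (le_max_right _ _) (le_max_left _ _)
  have a3 : N ≤ n := le_trans (le_max_left _ _) (le_max_right _ _)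
  have a4 : 1 ≤ n := le_trans (le_max_right _ _) (le_max_right _ _)
  obtain ⟨ξ₁, ξ₂, x, h1, h2, h3, h4, h5, h6, hq⟩ := hn0 n a1 _ rfl
  have hpow : (1 : ℝ) / 2 ^ n < w := by
    have : (1 : ℝ) / 2 ^ n = (1 / 2) ^ n := by rw [one_div_pow]
    rw [this]
    exact lt_of_le_of_lt (pow_le_pow_of_le_one (by norm_num) (by norm_num) a2) hn1
  refine ⟨(ξ₁, ξ₂, x), hball ?_, ?_⟩
  · rw [Metric.mem_ball, Prod.dist_eq, Prod.dist_eq, Real.dist_eq, Real.dist_eq, Real.dist_eq]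
    refine max_lt ?_ (max_lt ?_ ?_)
    · rw [abs_lt]; constructor <;> simp only [] <;> linarith
    · rw [abs_lt]; constructor <;> simp only [] <;> linarith
    · rw [abs_lt]; constructor <;> simp only [] <;> linarith
  · rw [Set.mem_iUnion₂]
    refine ⟨n, a3, ?_⟩
    unfold good
    rw [Set.mem_iInter₂]
    intro q hqm
    rw [Finset.mem_Icc] at hqm
    exact lt_of_lt_of_le (thr_lt n a4 _ rfl) (hq q hqm.1 hqm.2)

lemma log_bound (n : ℕ) (hn : 16 ≤ n) :
    (1 / 16 : ℝ) * (n * (Nat.log 2 n + 1 : ℕ)) ≤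
      Real.log ((2 : ℝ) ^ n) * Real.log (Real.log ((2 : ℝ) ^ n)) := by
  have hnR : (16 : ℝ) ≤ n := by exact_mod_cast hn
  have hn0 : (0 : ℝ) < n := by linarith
  have hlog2 : (0.6931471803 : ℝ) < Real.log 2 := Real.log_two_gt_d9
  have hlog2' : Real.log 2 < (0.6931471808 : ℝ) := Real.log_two_lt_d9
  have e1 : Real.log ((2 : ℝ) ^ n) = n * Real.log 2 := by rw [Real.log_pow]
  rw [e1]
  have h4 : (4 : ℝ) * Real.log 2 ≤ Real.log n := by
    have : Real.log ((2 : ℝ) ^ 4) ≤ Real.log n := Real.log_le_log (by norm_num) (by norm_num; linarith)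
    rw [Real.log_pow] at this
    exact_mod_cast this
  have e2 : Real.log (n * Real.log 2) = Real.log n + Real.log (Real.log 2) := by
    rw [Real.log_mul (by linarith) (by linarith)]
  have h5 : -Real.log 2 ≤ Real.log (Real.log 2) := by
    rw [← Real.log_inv]
    apply Real.log_le_log (by positivity)
    norm_num; linarith
  have h6 : Real.log n / 2 ≤ Real.log (n * Real.log 2) := by
    rw [e2]; linarith
  have h7 : ((Nat.log 2 n + 1 : ℕ) : ℝ) ≤ 2 * (Real.log n / Real.log 2) := by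
    have hb : ((Nat.log 2 n : ℕ) : ℝ) ≤ Real.log n / Real.log 2 := by
      rw [le_div_iff₀ (by linarith)]
      have : ((2 : ℝ) ^ (Nat.log 2 n)) ≤ n := by
        exact_mod_cast Nat.pow_log_le_self 2 (by omega)
      have h := Real.log_le_log (by positivity) this
      rwa [Real.log_pow] at h
    have hc : (1 : ℝ) ≤ Real.log n / Real.log 2 := by
      rw [le_div_iff₀ (by linarith)]; linarith
    push_cast; linarith
  have hlogn : 0 < Real.log n := by linarith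
  have h8 : Real.log n / Real.log 2 ≤ 2 * Real.log n := by
    rw [div_le_iff₀ (by linarith)]; nlinarith
  calc (1 / 16 : ℝ) * (n * (Nat.log 2 n + 1 : ℕ)) ≤ (1 / 16 : ℝ) * (n * (4 * Real.log n)) := by
        have : ((Nat.log 2 n + 1 : ℕ) : ℝ) ≤ 4 * Real.log n := by linarith
        gcongr
    _ = n * (1 / 2) * (Real.log n / 2) := by ring
    _ ≤ n * Real.log 2 * Real.log (n * Real.log 2) := by
        have : (1 / 2 : ℝ) ≤ Real.log 2 := by linarith
        gcongr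

/- PROOF. For fixed n the set of ξ with 2^-43/(n l 2^n) < product for all 1 ≤ q ≤ 2^n is open (finite intersection, x ↦ |x - round x| is continuous); the union over n ≥ N is
dense by oneScale (small boxes), so the intersection over N is residual. Q = 2^n: Q log Q loglog Q ≥ c 2^n n l. -/
theorem main : ∃ c : ℝ, 0 < c ∧ ∀ᶠ ξ : ℝ × ℝ × ℝ in residual (ℝ × ℝ × ℝ), ∃ᶠ Q : ℕ in atTop,
    ∀ q : ℕ, 1 ≤ q → q ≤ Q →
      c ≤ (Q : ℝ) * Real.log Q * Real.log (Real.log Q) *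
        (|(q : ℝ) * ξ.1 - round ((q : ℝ) * ξ.1)| * |(q : ℝ) * ξ.2.1 - round ((q : ℝ) * ξ.2.1)| *
          |(q : ℝ) * ξ.2.2 - round ((q : ℝ) * ξ.2.2)|) := by
  refine ⟨(1 / 2 : ℝ) ^ 47, by positivity, ?_⟩
  have hres : (⋂ N : ℕ, ⋃ n ≥ N, good n) ∈ residual (ℝ × ℝ × ℝ) := by
    rw [countable_iInter_mem]
    intro N
    exact residual_of_dense_open (isOpen_biUnion fun n _ => isOpen_good n) (dense_good N)
  filter_upwards [hres] with ξ hξ
  rw [Set.mem_iInter] at hξ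
  rw [Filter.frequently_atTop]
  intro K
  have h := hξ (max K 16)
  rw [Set.mem_iUnion₂] at h
  obtain ⟨n, hn, hg⟩ := h
  have hnK : K ≤ n := le_trans (le_max_left _ _) hn
  have hn16 : 16 ≤ n := le_trans (le_max_right _ _) hn
  refine ⟨2 ^ n, le_trans hnK (Nat.lt_two_pow_self).le, ?_⟩
  intro q hq1 hq2
  unfold good at hg
  rw [Set.mem_iInter₂] at hg
  have h1 := hg q (Finset.mem_Icc.2 ⟨hq1, hq2⟩)
  simp only [Set.mem_setOf_eq] at h1
  have h2 := log_bound n hn16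
  have hcast : ((2 ^ n : ℕ) : ℝ) = 2 ^ n := by push_cast; rfl
  rw [hcast]
  have hn0 : (0 : ℝ) < n := by exact_mod_cast (by omega : 0 < n)
  have hl0 : (0 : ℝ) < ((Nat.log 2 n + 1 : ℕ) : ℝ) := by positivity
  set L : ℝ := Real.log ((2 : ℝ) ^ n) * Real.log (Real.log ((2 : ℝ) ^ n)) with hL
  have hLpos : 0 < L := lt_of_lt_of_le (by positivity) h2
  set X : ℝ := nn (q * ξ.1) * nn (q * ξ.2.1) * nn (q * ξ.2.2) with hX
  have hXX : |(q : ℝ) * ξ.1 - round ((q : ℝ) * ξ.1)| * |(q : ℝ) * ξ.2.1 - round ((q : ℝ) * ξ.2.1)| *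
          |(q : ℝ) * ξ.2.2 - round ((q : ℝ) * ξ.2.2)| = X := rfl
  rw [hXX]
  have h3 : thr n * (2 ^ n * L) ≤ X * (2 ^ n * L) := by
    apply mul_le_mul_of_nonneg_right h1.le (by positivity)
  have h4 : (1 / 2 : ℝ) ^ 47 ≤ thr n * (2 ^ n * L) := by
    have e : thr n * (2 ^ n * L) = (1 / 2 : ℝ) ^ 43 / (n * (Nat.log 2 n + 1 : ℕ)) * L := by
      unfold thr; field_simp
    rw [e, div_mul_eq_mul_div, le_div_iff₀ (by positivity)]
    calc (1 / 2 : ℝ) ^ 47 * (n * (Nat.log 2 n + 1 : ℕ)) =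
        (1 / 2 : ℝ) ^ 43 * ((1 / 16 : ℝ) * (n * (Nat.log 2 n + 1 : ℕ))) := by ring
      _ ≤ (1 / 2 : ℝ) ^ 43 * L := by gcongr
  calc (1 / 2 : ℝ) ^ 47 ≤ thr n * (2 ^ n * L) := h4
    _ ≤ X * (2 ^ n * L) := h3
    _ = 2 ^ n * Real.log (2 ^ n) * Real.log (Real.log (2 ^ n)) * X := by rw [hL]; ring

end Pool.A6405.LL
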