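import Pool.Agent.H.MP_a6405b_nt.helper54.Final

set_option autoImplicit false

namespace Pool.A6405.LL

open Filter Topology

lemma log_bound_general (n Q : ℕ) (hn : 17 ≤ n) (hQ : 2 ^ (n - 1) ≤ Q) :
    (1 / 64 : ℝ) * (n * (Nat.log 2 n + 1 : ℕ)) ≤ Real.log Q * Real.log (Real.log Q) := by
  have hn16 : 16 ≤ n - 1 := by omega
  have h1 := log_bound (n - 1) hn16
  have hQR : ((2 : ℝ) ^ (n - 1)) ≤ Q := by exact_mod_cast hQ
  have hpos : (0 : ℝ) < 2 ^ (n - 1) := by positivity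
  have hlog2 : (0.6931471803 : ℝ) < Real.log 2 := Real.log_two_gt_d9
  have hA : Real.log ((2 : ℝ) ^ (n - 1)) ≤ Real.log Q := Real.log_le_log hpos hQR
  have hnR : (16 : ℝ) ≤ ((n - 1 : ℕ) : ℝ) := by exact_mod_cast hn16
  have hA0 : (4 : ℝ) ≤ Real.log ((2 : ℝ) ^ (n - 1)) := by
    rw [Real.log_pow]; nlinarith
  have hB : Real.log (Real.log ((2 : ℝ) ^ (n - 1))) ≤ Real.log (Real.log Q) :=
    Real.log_le_log (by linarith) hA
  have hB0 : 0 ≤ Real.log (Real.log ((2 : ℝ) ^ (n - 1))) := Real.log_nonneg (by linarith)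
  have h2 : Real.log ((2 : ℝ) ^ (n - 1)) * Real.log (Real.log ((2 : ℝ) ^ (n - 1))) ≤
      Real.log Q * Real.log (Real.log Q) := by gcongr
  have h3 : (n : ℝ) ≤ 2 * ((n - 1 : ℕ) : ℝ) := by
    have : n ≤ 2 * (n - 1) := by omega
    exact_mod_cast this
  have h4 : ((Nat.log 2 n + 1 : ℕ) : ℝ) ≤ 2 * ((Nat.log 2 (n - 1) + 1 : ℕ) : ℝ) := by
    have h5 : Nat.log 2 n ≤ Nat.log 2 (2 * (n - 1)) := Nat.log_mono_right (by omega)
    have h6 : Nat.log 2 (2 * (n - 1)) = Nat.log 2 (n - 1) + 1 := by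
      rw [mul_comm]; exact Nat.log_mul_base (by norm_num) (by omega)
    have : Nat.log 2 n + 1 ≤ 2 * (Nat.log 2 (n - 1) + 1) := by omega
    exact_mod_cast this
  calc (1 / 64 : ℝ) * (n * (Nat.log 2 n + 1 : ℕ)) ≤
      (1 / 64 : ℝ) * ((2 * ((n - 1 : ℕ) : ℝ)) * (2 * ((Nat.log 2 (n - 1) + 1 : ℕ) : ℝ))) := by gcongr
    _ = (1 / 16 : ℝ) * (((n - 1 : ℕ) : ℝ) * ((Nat.log 2 (n - 1) + 1 : ℕ) : ℝ)) := by ring
    _ ≤ _ := le_trans h1 h2

/-- a point of every open set at every large scale -/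
theorem dense_all (U : Set (ℝ × ℝ × ℝ)) (hU : IsOpen U) (hne : U.Nonempty) :
    ∀ᶠ n : ℕ in atTop, ∃ ξ ∈ U, ∀ q : ℕ, 1 ≤ q → q ≤ 2 ^ n →
      (1 / 2 : ℝ) ^ 42 / (n * (Nat.log 2 n + 1 : ℕ)) / 2 ^ n ≤ nn (q * ξ.1) * nn (q * ξ.2.1) * nn (q * ξ.2.2) := by
  obtain ⟨p, hp⟩ := hne
  obtain ⟨ε, hε, hball⟩ := Metric.isOpen_iff.1 hU p hp
  set w : ℝ := ε / 8 with hwdef
  have hw : 0 < w := by positivity
  obtain ⟨n0, hn0⟩ := oneScale p.1 p.2.1 p.2.2 w hw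
  obtain ⟨n1, hn1⟩ := exists_pow_lt_of_lt_one hw (by norm_num : (1 / 2 : ℝ) < 1)
  rw [Filter.eventually_atTop]
  refine ⟨max n0 n1, fun n hn => ?_⟩
  have a1 : n0 ≤ n := le_trans (le_max_left _ _) hn
  have a2 : n1 ≤ n := le_trans (le_max_right _ _) hn
  obtain ⟨ξ₁, ξ₂, x, h1, h2, h3, h4, h5, h6, hq⟩ := hn0 n a1 _ rfl
  have hpow : (1 : ℝ) / 2 ^ n < w := by
    have : (1 : ℝ) / 2 ^ n = (1 / 2) ^ n := by rw [one_div_pow]
    rw [this]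
    exact lt_of_le_of_lt (pow_le_pow_of_le_one (by norm_num) (by norm_num) a2) hn1
  refine ⟨(ξ₁, ξ₂, x), hball ?_, hq⟩
  rw [Metric.mem_ball, Prod.dist_eq, Prod.dist_eq, Real.dist_eq, Real.dist_eq, Real.dist_eq]
  refine max_lt ?_ (max_lt ?_ ?_)
  · rw [abs_lt]; constructor <;> simp only [] <;> linarith
  · rw [abs_lt]; constructor <;> simp only [] <;> linarith
  · rw [abs_lt]; constructor <;> simp only [] <;> linarith

/-- both forms of the theorem -/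
theorem main2 : ∃ c : ℝ, 0 < c ∧
    (∀ U : Set (ℝ × ℝ × ℝ), IsOpen U → U.Nonempty → ∀ᶠ Q : ℕ in atTop, ∃ ξ ∈ U,
      ∀ q : ℕ, 1 ≤ q → q ≤ Q →
        c ≤ (Q : ℝ) * Real.log Q * Real.log (Real.log Q) *
          (|(q : ℝ) * ξ.1 - round ((q : ℝ) * ξ.1)| * |(q : ℝ) * ξ.2.1 - round ((q : ℝ) * ξ.2.1)| *
            |(q : ℝ) * ξ.2.2 - round ((q : ℝ) * ξ.2.2)|)) ∧
    (∀ᶠ ξ : ℝ × ℝ × ℝ in residual (ℝ × ℝ × ℝ), ∃ᶠ Q : ℕ in atTop,
      ∀ q : ℕ, 1 ≤ q → q ≤ Q →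
        c ≤ (Q : ℝ) * Real.log Q * Real.log (Real.log Q) *
          (|(q : ℝ) * ξ.1 - round ((q : ℝ) * ξ.1)| * |(q : ℝ) * ξ.2.1 - round ((q : ℝ) * ξ.2.1)| *
            |(q : ℝ) * ξ.2.2 - round ((q : ℝ) * ξ.2.2)|)) := by
  obtain ⟨c, hc, hmain⟩ := main
  refine ⟨min c ((1 / 2 : ℝ) ^ 49), lt_min hc (by positivity), ?_, ?_⟩
  · intro U hU hne
    obtain ⟨N, hN⟩ := Filter.eventually_atTop.1 (dense_all U hU hne)
    rw [Filter.eventually_atTop]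
    refine ⟨2 ^ (max N 17), fun Q hQ => ?_⟩
    have hQ0 : Q ≠ 0 := by
      have : 0 < 2 ^ (max N 17) := by positivity
      omega
    set n := Nat.log 2 Q + 1 with hn
    have hQn : Q < 2 ^ n := Nat.lt_pow_succ_log_self (by norm_num) Q
    have hQn' : 2 ^ (n - 1) ≤ Q := by
      rw [hn, Nat.add_sub_cancel]; exact Nat.pow_log_le_self 2 hQ0
    have hmax : max N 17 ≤ Nat.log 2 Q := (Nat.le_log_iff_pow_le (by norm_num) hQ0).2 hQ
    have hNn : N ≤ n := by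
      have := le_max_left N 17
      omega
    have h17 : 17 ≤ n := by
      have := le_max_right N 17
      omega
    obtain ⟨ξ, hξ, hq⟩ := hN n hNn
    refine ⟨ξ, hξ, fun q h1 h2 => ?_⟩
    have h3 := hq q h1 (le_trans h2 hQn.le)
    have h4 := log_bound_general n Q h17 hQn'
    set X : ℝ := nn (q * ξ.1) * nn (q * ξ.2.1) * nn (q * ξ.2.2) with hX
    have hXX : |(q : ℝ) * ξ.1 - round ((q : ℝ) * ξ.1)| * |(q : ℝ) * ξ.2.1 - round ((q : ℝ) * ξ.2.1)| *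
          |(q : ℝ) * ξ.2.2 - round ((q : ℝ) * ξ.2.2)| = X := rfl
    rw [hXX]
    have hnR : (0 : ℝ) < n := by exact_mod_cast (by omega : 0 < n)
    have hlR : (0 : ℝ) < ((Nat.log 2 n + 1 : ℕ) : ℝ) := by positivity
    have h2n : (0 : ℝ) < 2 ^ n := by positivity
    have hQR : (2 : ℝ) ^ n / 2 ≤ Q := by
      have e : (2 : ℝ) ^ n = 2 ^ (n - 1) * 2 := by
        rw [← pow_succ, show n - 1 + 1 = n by omega]
      have h5 : ((2 : ℝ) ^ (n - 1)) ≤ Q := by exact_mod_cast hQn'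
      rw [e]; linarith
    set L : ℝ := Real.log Q * Real.log (Real.log Q) with hL
    have hLpos : 0 < L := lt_of_lt_of_le (by positivity) h4
    calc min c ((1 / 2 : ℝ) ^ 49) ≤ (1 / 2 : ℝ) ^ 49 := min_le_right _ _
      _ = (2 : ℝ) ^ n / 2 * ((1 / 64 : ℝ) * (n * (Nat.log 2 n + 1 : ℕ))) *
          ((1 / 2 : ℝ) ^ 42 / (n * (Nat.log 2 n + 1 : ℕ)) / 2 ^ n) := by
            field_simp; norm_num
      _ ≤ Q * L * X := by gcongr
      _ = _ := by rw [hL]; ring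
  · filter_upwards [hmain] with ξ hξ
    refine hξ.mono fun Q hQ q h1 h2 => le_trans (min_le_left _ _) (hQ q h1 h2)

end Pool.A6405.LL
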