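import Pool.Agent.H.MP_a6405b_nt.helper54.Final2

set_option autoImplicit false

namespace Pool.A6405.LL

open Filter Topology

/-- the points that are good for `Q`, with a strict inequality -/
def goodQ (c : ℝ) (Q : ℕ) : Set (ℝ × ℝ × ℝ) :=
  {ξ | ∀ q ∈ Finset.Icc 1 Q, c < (Q : ℝ) * Real.log Q * Real.log (Real.log Q) *
    (nn (q * ξ.1) * nn (q * ξ.2.1) * nn (q * ξ.2.2))}

lemma isOpen_goodQ (c : ℝ) (Q : ℕ) : IsOpen (goodQ c Q) := by
  have h : goodQ c Q = ⋂ q ∈ Finset.Icc 1 Q, {ξ : ℝ × ℝ × ℝ |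
      c < (Q : ℝ) * Real.log Q * Real.log (Real.log Q) *
        (nn (q * ξ.1) * nn (q * ξ.2.1) * nn (q * ξ.2.2))} := by
    ext ξ
    simp only [goodQ, Set.mem_setOf_eq, Set.mem_iInter]
  rw [h]
  refine isOpen_biInter_finset fun q _ => ?_
  refine isOpen_lt continuous_const (continuous_const.mul ?_)
  have h1 : Continuous fun ξ : ℝ × ℝ × ℝ => nn (q * ξ.1) :=
    continuous_nn.comp (continuous_const.mul continuous_fst)
  have h2 : Continuous fun ξ : ℝ × ℝ × ℝ => nn (q * ξ.2.1) :=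
    continuous_nn.comp (continuous_const.mul (continuous_fst.comp continuous_snd))
  have h3 : Continuous fun ξ : ℝ × ℝ × ℝ => nn (q * ξ.2.2) :=
    continuous_nn.comp (continuous_const.mul (continuous_snd.comp continuous_snd))
  exact (h1.mul h2).mul h3

/-- The theorem for the `Q` in an infinite set. -/
theorem main3 : ∃ c : ℝ, 0 < c ∧ ∀ S : Set ℕ, S.Infinite →
    ∀ᶠ ξ : ℝ × ℝ × ℝ in residual (ℝ × ℝ × ℝ), ∃ᶠ Q : ℕ in atTop, Q ∈ S ∧
      ∀ q : ℕ, 1 ≤ q → q ≤ Q →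
        c ≤ (Q : ℝ) * Real.log Q * Real.log (Real.log Q) *
          (|(q : ℝ) * ξ.1 - round ((q : ℝ) * ξ.1)| * |(q : ℝ) * ξ.2.1 - round ((q : ℝ) * ξ.2.1)| *
            |(q : ℝ) * ξ.2.2 - round ((q : ℝ) * ξ.2.2)|) := by
  obtain ⟨c, hc, hall, -⟩ := main2
  refine ⟨c / 2, by positivity, fun S hS => ?_⟩
  let G : ℕ → Set (ℝ × ℝ × ℝ) := fun N => ⋃ Q ∈ {Q : ℕ | Q ∈ S ∧ N ≤ Q}, goodQ (c / 2) Q
  have hGo : ∀ N, IsOpen (G N) := fun N => isOpen_biUnion fun Q _ => isOpen_goodQ _ Q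
  have hGd : ∀ N, Dense (G N) := by
    intro N
    rw [dense_iff_inter_open]
    intro U hU hne
    obtain ⟨M, hM⟩ := Filter.eventually_atTop.1 (hall U hU hne)
    obtain ⟨Q, hQS, hQ⟩ := hS.exists_gt (max N M)
    have hNQ : N ≤ Q := (le_max_left N M).trans hQ.le
    have hMQ : M ≤ Q := (le_max_right N M).trans hQ.le
    obtain ⟨ξ, hξU, hξ⟩ := hM Q hMQ
    refine ⟨ξ, hξU, ?_⟩
    simp only [G, Set.mem_iUnion]
    refine ⟨Q, ⟨hQS, hNQ⟩, fun q hq => ?_⟩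
    have h1 := Finset.mem_Icc.1 hq
    have h2 := hξ q h1.1 h1.2
    have h3 : c / 2 < c := by linarith
    exact lt_of_lt_of_le h3 h2
  have hres : ∀ N, G N ∈ residual (ℝ × ℝ × ℝ) := fun N =>
    residual_of_dense_open (hGo N) (hGd N)
  have hall' : ∀ᶠ ξ : ℝ × ℝ × ℝ in residual (ℝ × ℝ × ℝ), ∀ N, ξ ∈ G N :=
    eventually_countable_forall.2 hres
  filter_upwards [hall'] with ξ hξ
  rw [Filter.frequently_atTop]
  intro N
  have h1 := hξ N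
  simp only [G, Set.mem_iUnion] at h1
  obtain ⟨Q, ⟨hQS, hNQ⟩, hQ⟩ := h1
  exact ⟨Q, hNQ, hQS, fun q h2 h3 => (hQ q (Finset.mem_Icc.2 ⟨h2, h3⟩)).le⟩

end Pool.A6405.LL
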