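import Pool.Agent.H.MP_a6405b_nt.helper54.Basic

set_option autoImplicit false

namespace Pool.A6405.LL

private theorem initD_harm (n : ℕ) :
    ∑ k ∈ Finset.Icc (1 : ℕ) (2 ^ n), (1 : ℝ) / (k : ℝ) ≤ 1 + n := by
  induction n with
  | zero => simp
  | succ n ih =>
    have h1 : Finset.Icc (1 : ℕ) (2 ^ (n + 1)) = Finset.Icc 1 (2 ^ n) ∪ Finset.Icc (2 ^ n + 1) (2 ^ (n + 1)) := by
      have h2 : 2 ^ n ≤ 2 ^ (n + 1) := Nat.pow_le_pow_right (by norm_num) (by omega)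
      ext k
      simp only [Finset.mem_union, Finset.mem_Icc]
      have h3 : 1 ≤ 2 ^ n := Nat.one_le_two_pow
      omega
    have hd : Disjoint (Finset.Icc 1 (2 ^ n)) (Finset.Icc (2 ^ n + 1) (2 ^ (n + 1))) := by
      rw [Finset.disjoint_left]
      intro k hk hk'
      rw [Finset.mem_Icc] at hk hk'
      omega
    rw [h1, Finset.sum_union hd]
    have h4 : ∑ k ∈ Finset.Icc (2 ^ n + 1 : ℕ) (2 ^ (n + 1)), (1 : ℝ) / (k : ℝ) ≤
        ∑ _k ∈ Finset.Icc (2 ^ n + 1 : ℕ) (2 ^ (n + 1)), (1 : ℝ) / 2 ^ n := by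
      refine Finset.sum_le_sum fun k hk => ?_
      rw [Finset.mem_Icc] at hk
      apply one_div_le_one_div_of_le (by positivity)
      have h5 : 2 ^ n ≤ k := by omega
      exact_mod_cast h5
    have h6 : (Finset.Icc (2 ^ n + 1) (2 ^ (n + 1))).card = 2 ^ n := by
      rw [Nat.card_Icc, pow_succ]
      omega
    rw [Finset.sum_const, h6, nsmul_eq_mul] at h4
    have h7 : ((2 ^ n : ℕ) : ℝ) * (1 / 2 ^ n) = 1 := by
      push_cast
      field_simp
    rw [h7] at h4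
    push_cast
    linarith

private theorem initD_int (N : ℕ) :
    ∑ k ∈ Finset.Icc (-(N : ℤ)) (N : ℤ), 1 / hb k ≤
      1 + 2 * ∑ k ∈ Finset.Icc 1 N, (1 : ℝ) / (k : ℝ) := by
  induction N with
  | zero =>
    simp [hb]
  | succ N ih =>
    have h1 : Finset.Icc (-((N + 1 : ℕ) : ℤ)) ((N + 1 : ℕ) : ℤ) =
        insert (-((N + 1 : ℕ) : ℤ)) (insert ((N + 1 : ℕ) : ℤ) (Finset.Icc (-(N : ℤ)) (N : ℤ))) := by
      ext k
      simp only [Finset.mem_insert, Finset.mem_Icc]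
      omega
    have h2 : ((N + 1 : ℕ) : ℤ) ∉ Finset.Icc (-(N : ℤ)) (N : ℤ) := by
      rw [Finset.mem_Icc]
      omega
    have h3 : (-((N + 1 : ℕ) : ℤ)) ∉ insert ((N + 1 : ℕ) : ℤ) (Finset.Icc (-(N : ℤ)) (N : ℤ)) := by
      rw [Finset.mem_insert, Finset.mem_Icc]
      omega
    have h4 : hb ((N + 1 : ℕ) : ℤ) = ((N + 1 : ℕ) : ℝ) := by
      unfold hb
      have h5 : (0 : ℝ) ≤ N := Nat.cast_nonneg N
      rw [Int.cast_natCast, abs_of_nonneg (Nat.cast_nonneg _), max_eq_right]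
      push_cast
      linarith
    rw [h1, Finset.sum_insert h3, Finset.sum_insert h2, hb_neg, h4,
      ← Finset.insert_Icc_right_eq_Icc_add_one (by omega), Finset.sum_insert (by simp)]
    linarith

/- PROOF. The sum of 1/(hb a1 hb a2 a3) over the box is at most (3 + 2 n)^2 (1 + n)-like (harmonic sums ≤ 1 + n log 2 ≤ 1 + n); η = 2^(-5l) ≤ (n+1)^-5. -/
theorem init_D (w : ℝ) (hw : 0 < w) : ∃ n0 : ℕ, ∀ n ≥ n0, ∀ l : ℕ, l = Nat.log 2 n + 1 →
    ∑ a ∈ ED n, 128 * (1 + 2 / w) * tauD ((1 / 2 : ℝ) ^ (5 * l)) a ≤ 1 / 8 := by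
  have hc : 0 < 1 + 2 / w := by positivity
  obtain ⟨n0, hn0⟩ := exists_nat_ge (9216 * (1 + 2 / w))
  refine ⟨n0, fun n hn l hl => ?_⟩
  have hnR : 9216 * (1 + 2 / w) ≤ n := hn0.trans (by exact_mod_cast hn)
  -- the power
  have hpow : ((n : ℝ) + 1) ≤ 2 ^ l := by
    have h1 : n < 2 ^ (Nat.log 2 n + 1) := Nat.lt_pow_succ_log_self (by norm_num) n
    rw [hl]
    have h2 : n + 1 ≤ 2 ^ (Nat.log 2 n + 1) := h1
    exact_mod_cast h2
  have hn1 : (0 : ℝ) < (n : ℝ) + 1 := by positivity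
  have heta : (1 / 2 : ℝ) ^ (5 * l) ≤ 1 / ((n : ℝ) + 1) ^ 5 := by
    rw [mul_comm 5 l, pow_mul, one_div_pow, one_div_pow]
    apply one_div_le_one_div_of_le (by positivity)
    exact pow_le_pow_left₀ hn1.le hpow 5
  -- the box
  set η : ℝ := (1 / 2 : ℝ) ^ (5 * l) with hη
  have hη0 : 0 ≤ η := by positivity
  have hH0 := initD_harm n
  have hH1 := initD_int (2 ^ n)
  have hH0' : 0 ≤ ∑ k ∈ Finset.Icc (1 : ℕ) (2 ^ n), (1 : ℝ) / (k : ℝ) :=
    Finset.sum_nonneg fun k _ => by positivity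
  set H0 : ℝ := ∑ k ∈ Finset.Icc (1 : ℕ) (2 ^ n), (1 : ℝ) / (k : ℝ) with hH0d
  have hcast : (((2 ^ n : ℕ) : ℤ)) = 2 ^ n := by push_cast; rfl
  rw [hcast] at hH1
  have hH1' : 0 ≤ ∑ k ∈ Finset.Icc (-2 ^ n : ℤ) (2 ^ n), 1 / hb k :=
    Finset.sum_nonneg fun k _ => one_div_nonneg.2 (hb_pos k).le
  set H1 : ℝ := ∑ k ∈ Finset.Icc (-2 ^ n : ℤ) (2 ^ n), 1 / hb k with hH1d
  have hsum : ∑ a ∈ ED n, 128 * (1 + 2 / w) * tauD η a ≤
      128 * (1 + 2 / w) * η * (H1 * (H1 * H0)) := by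
    calc ∑ a ∈ ED n, 128 * (1 + 2 / w) * tauD η a
        ≤ ∑ a ∈ (Finset.Icc (-2 ^ n : ℤ) (2 ^ n)) ×ˢ (Finset.Icc (-2 ^ n : ℤ) (2 ^ n)) ×ˢ
            (Finset.Icc (1 : ℕ) (2 ^ n)), 128 * (1 + 2 / w) * tauD η a := by
          apply Finset.sum_le_sum_of_subset_of_nonneg
          · exact Finset.filter_subset _ _
          · intro a _ _
            unfold tauD
            have h1 := hb_pos a.1
            have h2 := hb_pos a.2.1
            positivity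
      _ = 128 * (1 + 2 / w) * η * (H1 * (H1 * H0)) := by
          rw [Finset.sum_product, hH1d, hH0d, Finset.sum_mul_sum, Finset.sum_mul_sum,
            Finset.mul_sum]
          refine Finset.sum_congr rfl fun a _ => ?_
          rw [Finset.sum_product, Finset.mul_sum]
          refine Finset.sum_congr rfl fun b _ => ?_
          rw [Finset.mul_sum, Finset.mul_sum]
          refine Finset.sum_congr rfl fun c _ => ?_
          unfold tauD
          have h1 := (hb_pos a).ne'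
          have h2 := (hb_pos b).ne'
          simp only [mul_inv, div_eq_mul_inv]
          ring
  refine hsum.trans ?_
  have hH1b : H1 ≤ 3 * ((n : ℝ) + 1) := by linarith
  have hH0b : H0 ≤ (n : ℝ) + 1 := by linarith
  have h1 : H1 * (H1 * H0) ≤ 3 * ((n : ℝ) + 1) * (3 * ((n : ℝ) + 1) * ((n : ℝ) + 1)) := by
    gcongr
  have h2 : η * (H1 * (H1 * H0)) ≤ 1 / ((n : ℝ) + 1) ^ 5 *
      (3 * ((n : ℝ) + 1) * (3 * ((n : ℝ) + 1) * ((n : ℝ) + 1))) := by
    gcongr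
  have h3 : 1 / ((n : ℝ) + 1) ^ 5 * (3 * ((n : ℝ) + 1) * (3 * ((n : ℝ) + 1) * ((n : ℝ) + 1))) =
      9 / ((n : ℝ) + 1) ^ 2 := by
    field_simp
    norm_num
  rw [h3] at h2
  have h4 : 9 / ((n : ℝ) + 1) ^ 2 ≤ 9 / ((n : ℝ) + 1) := by
    apply div_le_div_of_nonneg_left (by norm_num) hn1
    have : (1 : ℝ) ≤ (n : ℝ) + 1 := by linarith [(Nat.cast_nonneg n : (0 : ℝ) ≤ n)]
    nlinarith
  calc 128 * (1 + 2 / w) * η * (H1 * (H1 * H0)) = 128 * (1 + 2 / w) * (η * (H1 * (H1 * H0))) := by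
        ring
    _ ≤ 128 * (1 + 2 / w) * (9 / ((n : ℝ) + 1)) := by
        apply mul_le_mul_of_nonneg_left (h2.trans h4) (by positivity)
    _ ≤ 1 / 8 := by
        rw [← mul_div_assoc, div_le_iff₀ hn1]
        linarith

end Pool.A6405.LL
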