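import Pool.Agent.H.MP_a6405b_nt.helper54.InitDefs
import Pool.Agent.H.MP_a6405b_nt.helper54.Dyadic

set_option autoImplicit false

namespace Pool.A6405.LL

/- PROOF (section 5). For q in the filter take (b1,b2) from exists_dyadic_B1: relevant, since (1/2)^(b1+b2) < 4 yy q and rP q ≥ 1/(..) gives yy q ≤ psi/(q lam1). Its term in hZ is om ≤ 1/2 < 1,
so om = 2^11 κ psi 2^B and 128 κ psi/yy < 128 κ psi 4 2^B = om/4. Sum over q. -/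
open Classical in
theorem init_W (n l : ℕ) (hn : 1 ≤ n) (δ : ℝ) (hδ : 0 < δ) (w : ℝ) (hw : 0 < w) (ξ₁ ξ₂ : ℝ)
    (hB1 : B1 n ξ₁ ξ₂)
    (hZ : ∑ q ∈ EP n, ∑ p ∈ relq n l δ ((1 / 2 : ℝ) ^ (5 * l)) q, om n δ ((1 / 2 : ℝ) ^ (5 * l)) w q (p.1 + p.2) *
        (if nn (q * ξ₁) ≤ (1 / 2) ^ p.1 then 1 else 0) *
        (if nn (q * ξ₂) ≤ (1 / 2) ^ p.2 then 1 else 0) ≤ 1 / 2) :
    ∑ q ∈ (EP n).filter (fun q => 1 / (2 ^ (n + 4) * 2 ^ (10 * l)) ≤ rP n δ ((1 / 2 : ℝ) ^ (5 * l)) ξ₁ ξ₂ q),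
      128 * kap w q * tauP n δ ((1 / 2 : ℝ) ^ (5 * l)) ξ₁ ξ₂ q ≤ 1 / 8 := by
  obtain ⟨η, hη⟩ : ∃ η : ℝ, η = (1 / 2 : ℝ) ^ (5 * l) := ⟨_, rfl⟩
  rw [← hη] at hZ ⊢
  obtain ⟨T, hT⟩ : ∃ T : ℕ → ℕ × ℕ → ℝ, T = fun q p => om n δ η w q (p.1 + p.2) *
        (if nn (q * ξ₁) ≤ (1 / 2) ^ p.1 then 1 else 0) *
        (if nn (q * ξ₂) ≤ (1 / 2) ^ p.2 then 1 else 0) := ⟨_, rfl⟩
  have hZ' : ∑ q ∈ EP n, ∑ p ∈ relq n l δ η q, T q p ≤ 1 / 2 := by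
    rw [hT]
    exact hZ
  have hpsi : ∀ q : ℕ, 0 < psi n δ η q := fun q =>
    lt_of_lt_of_le (by positivity : 0 < δ / 2 ^ n) (le_max_left _ _)
  have hkap : ∀ q : ℕ, 0 < kap w q := fun q => by
    unfold kap
    positivity
  have hom : ∀ q B : ℕ, 0 ≤ om n δ η w q B := fun q B => by
    unfold om
    have h1 := hpsi q
    have h2 := hkap q
    positivity
  have hT0 : ∀ q p, 0 ≤ T q p := fun q p => by
    rw [hT]
    have h1 := hom q (p.1 + p.2)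
    have h2 : (0 : ℝ) ≤ (if nn (q * ξ₁) ≤ (1 / 2) ^ p.1 then 1 else 0) := by
      split_ifs <;> norm_num
    have h3 : (0 : ℝ) ≤ (if nn (q * ξ₂) ≤ (1 / 2) ^ p.2 then 1 else 0) := by
      split_ifs <;> norm_num
    exact mul_nonneg (mul_nonneg h1 h2) h3
  have hin : ∀ q, 0 ≤ ∑ p ∈ relq n l δ η q, T q p := fun q => Finset.sum_nonneg fun p _ => hT0 q p
  have hone : ∀ q ∈ (EP n).filter (fun q => 1 / (2 ^ (n + 4) * 2 ^ (10 * l)) ≤ rP n δ η ξ₁ ξ₂ q),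
      128 * kap w q * tauP n δ η ξ₁ ξ₂ q ≤ 1 / 4 * ∑ p ∈ relq n l δ η q, T q p := by
    intro q hq
    obtain ⟨hqE, hqr⟩ := Finset.mem_filter.1 hq
    obtain ⟨hq1, hq2⟩ := Finset.mem_Icc.1 hqE
    have hq0 : (0 : ℝ) < q := by exact_mod_cast hq1
    obtain ⟨b₁, b₂, k1, k2, k3, k4, k5, k6, k7, k8⟩ := exists_dyadic_B1 n ξ₁ ξ₂ hB1 q hq1 hq2
    have hp1 : (0 : ℝ) < (1 / 2) ^ (b₁ + 1) := by positivity
    have hp2 : (0 : ℝ) < (1 / 2) ^ (b₂ + 1) := by positivity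
    have hy : (1 / 2 : ℝ) ^ (b₁ + b₂) < 4 * yy ξ₁ ξ₂ q := by
      have h1 : (1 / 2 : ℝ) ^ (b₁ + 1) * (1 / 2) ^ (b₂ + 1) < yy ξ₁ ξ₂ q :=
        mul_lt_mul'' k6 k8 hp1.le hp2.le
      have h2 : (1 / 2 : ℝ) ^ (b₁ + b₂) = 4 * ((1 / 2 : ℝ) ^ (b₁ + 1) * (1 / 2) ^ (b₂ + 1)) := by
        rw [pow_succ, pow_succ, pow_add]
        ring
      rw [h2]
      linarith
    have hpB : (0 : ℝ) < (1 / 2) ^ (b₁ + b₂) := by positivity
    have hy0 : 0 < yy ξ₁ ξ₂ q := by linarith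
    have hD : (0 : ℝ) < 2 ^ (n + 4) * 2 ^ (10 * l) := by positivity
    have hrel : (b₁, b₂) ∈ relq n l δ η q := by
      unfold relq
      rw [Finset.mem_filter, Finset.mem_product, Finset.mem_Icc, Finset.mem_Icc]
      refine ⟨⟨⟨k1, k2⟩, k3, k4⟩, ?_⟩
      show (1 / 2 : ℝ) ^ (b₁ + b₂) < 4 * psi n δ η q * (2 ^ (n + 4) * 2 ^ (10 * l)) / q
      refine hy.trans_le ?_
      unfold rP at hqr
      rw [div_le_div_iff₀ hD (mul_pos hq0 hy0)] at hqr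
      rw [le_div_iff₀ hq0]
      linarith
    have hterm : T q (b₁, b₂) = om n δ η w q (b₁ + b₂) := by
      rw [hT]
      show om n δ η w q (b₁ + b₂) * (if nn (q * ξ₁) ≤ (1 / 2) ^ b₁ then 1 else 0) *
        (if nn (q * ξ₂) ≤ (1 / 2) ^ b₂ then 1 else 0) = _
      rw [if_pos k5, if_pos k7, mul_one, mul_one]
    have hle : T q (b₁, b₂) ≤ ∑ p ∈ relq n l δ η q, T q p :=
      Finset.single_le_sum (f := T q) (fun p _ => hT0 q p) hrel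
    have hle2 : ∑ p ∈ relq n l δ η q, T q p ≤ ∑ q ∈ EP n, ∑ p ∈ relq n l δ η q, T q p :=
      Finset.single_le_sum (f := fun q => ∑ p ∈ relq n l δ η q, T q p) (fun q _ => hin q) hqE
    have homlt : om n δ η w q (b₁ + b₂) < 1 := by
      rw [← hterm]
      linarith
    have homeq : om n δ η w q (b₁ + b₂) =
        2 ^ 11 * kap w q * psi n δ η q * 2 ^ (b₁ + b₂) := by
      unfold om at homlt ⊢
      rcases min_lt_iff.1 homlt with h | h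
      · exact absurd h (lt_irrefl _)
      · exact min_eq_right h.le
    have htau : tauP n δ η ξ₁ ξ₂ q ≤ psi n δ η q * (4 * 2 ^ (b₁ + b₂)) := by
      unfold tauP
      rw [div_le_iff₀ hy0]
      have h3 : (1 : ℝ) ≤ 4 * 2 ^ (b₁ + b₂) * yy ξ₁ ξ₂ q := by
        have h4 : (1 / 2 : ℝ) ^ (b₁ + b₂) * 2 ^ (b₁ + b₂) = 1 := by
          rw [← mul_pow]
          norm_num
        have h5 : (0 : ℝ) < 2 ^ (b₁ + b₂) := by positivity
        nlinarith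
      have h6 := hpsi q
      nlinarith
    have h7 := mul_le_mul_of_nonneg_left htau (by have := hkap q; positivity : 0 ≤ 128 * kap w q)
    rw [hterm, homeq] at hle
    calc 128 * kap w q * tauP n δ η ξ₁ ξ₂ q
        ≤ 128 * kap w q * (psi n δ η q * (4 * 2 ^ (b₁ + b₂))) := h7
      _ = 1 / 4 * (2 ^ 11 * kap w q * psi n δ η q * 2 ^ (b₁ + b₂)) := by ring
      _ ≤ _ := by linarith
  refine (Finset.sum_le_sum hone).trans ?_
  rw [← Finset.mul_sum]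
  have h8 : ∑ q ∈ (EP n).filter (fun q => 1 / (2 ^ (n + 4) * 2 ^ (10 * l)) ≤ rP n δ η ξ₁ ξ₂ q),
      ∑ p ∈ relq n l δ η q, T q p ≤ ∑ q ∈ EP n, ∑ p ∈ relq n l δ η q, T q p :=
    Finset.sum_le_sum_of_subset_of_nonneg (Finset.filter_subset _ _) fun q _ _ => hin q
  linarith

end Pool.A6405.LL
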