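import Pool.Agent.H.MP_a6405b_nt.helper54.InitPair
import Pool.Agent.H.MP_a6405b_nt.helper54.InitW
import Pool.Agent.H.MP_a6405b_nt.helper54.InitD

set_option autoImplicit false

namespace Pool.A6405.LL

lemma init_min_max (r lam0 : ℝ) (hlam0 : 0 < lam0) : min 1 (r / lam0) * max r lam0 = r := by
  rcases le_total r lam0 with h | h
  · rw [min_eq_right ((div_le_one hlam0).2 h), max_eq_right h, div_mul_cancel₀ _ hlam0.ne']
  · rw [min_eq_left ((one_le_div hlam0).2 h), max_eq_left h, one_mul]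

open Classical in
/-- choice of the last coordinate, abstract form -/
lemma init_abs {ι : Type*} (E : Finset ι) (A : ι → ℕ) (β τ r : ι → ℝ) (u w : ℝ) (hw : 0 < w)
    (hA : ∀ e ∈ E, 1 ≤ A e) (hτ : ∀ e ∈ E, 0 < τ e) (hr : ∀ e ∈ E, r e = τ e / A e)
    (lam0 lam1 : ℝ) (hlam0 : 0 < lam0) (hlam1 : 0 < lam1) (h10 : lam1 ≤ lam0)
    (hsum : ∑ e ∈ E.filter (fun e => lam1 ≤ r e), 128 * τ e * (1 + 2 / (A e * w)) ≤ 1 / 4) :
    ∃ x0 : ℝ, u ≤ x0 ∧ x0 ≤ u + w ∧ (∀ e ∈ E, lam0 ≤ r e → 2 * τ e ≤ nn (A e * x0 + β e)) ∧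
      ∑ e ∈ E.filter (fun e => lam1 ≤ r e ∧ r e < lam0 ∧ nn (A e * x0 + β e) ≤ 2 * A e * lam0), r e ≤ lam0 / 32 := by
  have hrpos : ∀ e ∈ E, 0 < r e := by
    intro e he
    rw [hr e he]
    have : (0 : ℝ) < A e := by exact_mod_cast hA e he
    exact div_pos (hτ e he) this
  obtain ⟨x0, hx1, hx2, hx3⟩ := averaging (E.filter (fun e => lam1 ≤ r e))
    (fun e => 32 * min 1 (r e / lam0)) (fun e => (A e : ℤ)) β (fun e => 2 * A e * max (r e) lam0) u w hw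
    (by
      intro e he
      have := hrpos e (Finset.mem_filter.1 he).1
      have h2 : 0 ≤ min 1 (r e / lam0) := le_min zero_le_one (by positivity)
      positivity)
    (by
      intro e he
      have := hA e (Finset.mem_filter.1 he).1
      exact_mod_cast (by omega : A e ≠ 0))
    (by
      intro e he
      have := hrpos e (Finset.mem_filter.1 he).1
      have h2 : 0 ≤ max (r e) lam0 := le_max_of_le_left this.le
      positivity)
  have hR : ∑ e ∈ E.filter (fun e => lam1 ≤ r e), 32 * min 1 (r e / lam0) *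
      (2 * (2 * A e * max (r e) lam0) * (1 + 2 / (|((A e : ℤ) : ℝ)| * w))) ≤ 1 / 4 := by
    refine le_trans (le_of_eq ?_) hsum
    apply Finset.sum_congr rfl
    intro e he
    have heE := (Finset.mem_filter.1 he).1
    have hAp : (0 : ℝ) < A e := by exact_mod_cast hA e heE
    have h1 := init_min_max (r e) lam0 hlam0
    have h2 : (A e : ℝ) * r e = τ e := by rw [hr e heE]; field_simp
    have h3 : |((A e : ℤ) : ℝ)| = A e := by
      rw [Int.cast_natCast]; exact abs_of_pos hAp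
    rw [h3]
    calc 32 * min 1 (r e / lam0) * (2 * (2 * A e * max (r e) lam0) * (1 + 2 / (A e * w)))
        = 128 * (A e * (min 1 (r e / lam0) * max (r e) lam0)) * (1 + 2 / (A e * w)) := by ring
      _ = _ := by rw [h1, h2]
  have hL := le_trans hx3 hR
  -- every term is bounded by the sum
  have hterm : ∀ e ∈ E.filter (fun e => lam1 ≤ r e), 0 ≤ 32 * min 1 (r e / lam0) *
      (if nn (((A e : ℤ) : ℝ) * x0 + β e) ≤ 2 * A e * max (r e) lam0 then (1 : ℝ) else 0) := by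
    intro e he
    have := hrpos e (Finset.mem_filter.1 he).1
    have h2 : 0 ≤ min 1 (r e / lam0) := le_min zero_le_one (by positivity)
    split_ifs <;> positivity
  refine ⟨x0, hx1, hx2, ?_, ?_⟩
  · intro e he hle
    by_contra hcon
    push Not at hcon
    have hmem : e ∈ E.filter (fun e => lam1 ≤ r e) := Finset.mem_filter.2 ⟨he, le_trans h10 hle⟩
    have h1 := Finset.single_le_sum hterm hmem
    have hAp : (0 : ℝ) < A e := by exact_mod_cast hA e he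
    have h2 : (A e : ℝ) * r e = τ e := by rw [hr e he]; field_simp
    have h3 : nn (((A e : ℤ) : ℝ) * x0 + β e) ≤ 2 * A e * max (r e) lam0 := by
      rw [max_eq_left hle, Int.cast_natCast]
      have : 2 * (A e : ℝ) * r e = 2 * τ e := by rw [← h2]; ring
      rw [this]; exact hcon.le
    rw [if_pos h3, min_eq_left ((one_le_div hlam0).2 hle)] at h1
    linarith
  · have hsub : E.filter (fun e => lam1 ≤ r e ∧ r e < lam0 ∧ nn (A e * x0 + β e) ≤ 2 * A e * lam0) ⊆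
        E.filter (fun e => lam1 ≤ r e) := by
      intro e he
      rw [Finset.mem_filter] at he ⊢
      exact ⟨he.1, he.2.1⟩
    have h1 := Finset.sum_le_sum_of_subset_of_nonneg hsub (fun e he _ => hterm e he)
    have h2 : ∑ e ∈ E.filter (fun e => lam1 ≤ r e ∧ r e < lam0 ∧ nn (A e * x0 + β e) ≤ 2 * A e * lam0),
        32 * min 1 (r e / lam0) *
          (if nn (((A e : ℤ) : ℝ) * x0 + β e) ≤ 2 * A e * max (r e) lam0 then (1 : ℝ) else 0) =
        32 / lam0 * ∑ e ∈ E.filter (fun e => lam1 ≤ r e ∧ r e < lam0 ∧ nn (A e * x0 + β e) ≤ 2 * A e * lam0), r e := by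
      rw [Finset.mul_sum]
      apply Finset.sum_congr rfl
      intro e he
      rw [Finset.mem_filter] at he
      obtain ⟨heE, _, hlt, hnear⟩ := he
      rw [max_eq_right hlt.le, Int.cast_natCast, if_pos hnear, min_eq_right ((div_le_one hlam0).2 hlt.le)]
      ring
    rw [h2] at h1
    have h3 : 32 / lam0 * ∑ e ∈ E.filter (fun e => lam1 ≤ r e ∧ r e < lam0 ∧ nn (A e * x0 + β e) ≤ 2 * A e * lam0), r e
        ≤ 1 / 4 := le_trans h1 hL
    rw [div_mul_eq_mul_div, div_le_iff₀ hlam0] at h3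
    linarith

/- PROOF (section 5). averaging for x0 with J = (EP filtered by r ≥ lam1) disjoint union (ED filtered by r ≥ lam1), c = 32 min(1, r/lam0), t = 2 A max(r, lam0). -/
open Classical in
theorem init (u₁ u₂ u₃ w : ℝ) (hw : 0 < w) : ∃ n0 : ℕ, ∀ n ≥ n0, ∀ l : ℕ, l = Nat.log 2 n + 1 →
    ∀ δ : ℝ, δ = (1 / 2 : ℝ) ^ 42 / (n * l) →
    ∃ ξ₁ ξ₂ x₀ : ℝ, u₁ ≤ ξ₁ ∧ ξ₁ ≤ u₁ + w ∧ u₂ ≤ ξ₂ ∧ ξ₂ ≤ u₂ + w ∧ u₃ ≤ x₀ ∧ x₀ ≤ u₃ + w ∧ B1 n ξ₁ ξ₂ ∧
      B2 n ((1 / 2 : ℝ) ^ (5 * l)) ξ₁ ξ₂ ∧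
      (∀ q ∈ EP n, 1 / 2 ^ (n + 4) ≤ rP n δ ((1 / 2 : ℝ) ^ (5 * l)) ξ₁ ξ₂ q →
        2 * tauP n δ ((1 / 2 : ℝ) ^ (5 * l)) ξ₁ ξ₂ q ≤ nn (q * x₀)) ∧
      (∀ a ∈ ED n, 1 / 2 ^ (n + 4) ≤ rD ((1 / 2 : ℝ) ^ (5 * l)) a →
        2 * tauD ((1 / 2 : ℝ) ^ (5 * l)) a ≤ nn (a.2.2 * x₀ + (a.1 * ξ₁ + a.2.1 * ξ₂))) ∧
      ∑ q ∈ (EP n).filter (fun q => 1 / (2 ^ (n + 4) * 2 ^ (10 * l)) ≤ rP n δ ((1 / 2 : ℝ) ^ (5 * l)) ξ₁ ξ₂ q ∧
          rP n δ ((1 / 2 : ℝ) ^ (5 * l)) ξ₁ ξ₂ q < 1 / 2 ^ (n + 4) ∧ nn (q * x₀) ≤ 2 * q * (1 / 2 ^ (n + 4))),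
        rP n δ ((1 / 2 : ℝ) ^ (5 * l)) ξ₁ ξ₂ q +
      ∑ a ∈ (ED n).filter (fun a => 1 / (2 ^ (n + 4) * 2 ^ (10 * l)) ≤ rD ((1 / 2 : ℝ) ^ (5 * l)) a ∧
          rD ((1 / 2 : ℝ) ^ (5 * l)) a < 1 / 2 ^ (n + 4) ∧
          nn (a.2.2 * x₀ + (a.1 * ξ₁ + a.2.1 * ξ₂)) ≤ 2 * a.2.2 * (1 / 2 ^ (n + 4))),
        rD ((1 / 2 : ℝ) ^ (5 * l)) a ≤ 1 / 2 ^ (n + 4) / 32 := by
  obtain ⟨n1, hn1⟩ := init_pair u₁ u₂ w hw
  obtain ⟨n2, hn2⟩ := init_D w hw
  refine ⟨max (max n1 n2) 1, fun n hn l hl δ hδdef => ?_⟩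
  have a1 : n1 ≤ n := le_trans (le_trans (le_max_left _ _) (le_max_left _ _)) hn
  have a2 : n2 ≤ n := le_trans (le_trans (le_max_right _ _) (le_max_left _ _)) hn
  have a3 : 1 ≤ n := le_trans (le_max_right _ _) hn
  have hnR : (0 : ℝ) < n := by exact_mod_cast a3
  have hlR : (0 : ℝ) < l := by rw [hl]; positivity
  have hδ : 0 < δ := by rw [hδdef]; positivity
  obtain ⟨ξ₁, ξ₂, h1, h2, h3, h4, hB1, hB2, hZ⟩ := hn1 n a1 l hl δ hδdef
  have hW := init_W n l a3 δ hδ w hw ξ₁ ξ₂ hB1 hZ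
  have hD := hn2 n a2 l hl
  set η : ℝ := (1 / 2 : ℝ) ^ (5 * l) with hη
  have hηpos : 0 < η := by positivity
  set lam0 : ℝ := 1 / 2 ^ (n + 4) with hlam0
  set lam1 : ℝ := 1 / (2 ^ (n + 4) * 2 ^ (10 * l)) with hlam1
  have hlam0pos : 0 < lam0 := by positivity
  have hlam1pos : 0 < lam1 := by positivity
  have h10 : lam1 ≤ lam0 := by
    rw [hlam0, hlam1]
    apply one_div_le_one_div_of_le (by positivity)
    have : (1 : ℝ) ≤ 2 ^ (10 * l) := one_le_pow₀ (by norm_num)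
    nlinarith [show (0 : ℝ) < 2 ^ (n + 4) by positivity]
  let E : Finset (ℕ ⊕ (ℤ × ℤ × ℕ)) := (EP n).disjSum (ED n)
  let A : ℕ ⊕ (ℤ × ℤ × ℕ) → ℕ := Sum.elim (fun q => q) (fun a => a.2.2)
  let β : ℕ ⊕ (ℤ × ℤ × ℕ) → ℝ := Sum.elim (fun _ => 0) (fun a => a.1 * ξ₁ + a.2.1 * ξ₂)
  let τ : ℕ ⊕ (ℤ × ℤ × ℕ) → ℝ := Sum.elim (fun q => tauP n δ η ξ₁ ξ₂ q) (fun a => tauD η a)
  let r : ℕ ⊕ (ℤ × ℤ × ℕ) → ℝ := Sum.elim (fun q => rP n δ η ξ₁ ξ₂ q) (fun a => rD η a)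
  have hEP : ∀ q ∈ EP n, 1 ≤ q ∧ q ≤ 2 ^ n := fun q hq => by
    simpa [EP] using hq
  have hED : ∀ a ∈ ED n, 1 ≤ a.2.2 ∧ a.2.2 ≤ 2 ^ n := fun a ha => by
    unfold ED at ha
    rw [Finset.mem_filter, Finset.mem_product, Finset.mem_product] at ha
    exact Finset.mem_Icc.1 ha.1.2.2
  have hyy : ∀ q ∈ EP n, 0 < yy ξ₁ ξ₂ q := fun q hq => by
    obtain ⟨ha, hb⟩ := hB1 q (hEP q hq).1 (hEP q hq).2
    have h0 : (0 : ℝ) < 1 / 2 ^ (2 * n) := by positivity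
    exact mul_pos (lt_of_lt_of_le h0 ha) (lt_of_lt_of_le h0 hb)
  have hpsi : ∀ q, 0 < psi n δ η q := fun q => lt_of_lt_of_le (by positivity) (le_max_left _ _)
  have htD : ∀ a ∈ ED n, 0 < tauD η a := fun a ha => by
    have : (0 : ℝ) < a.2.2 := by exact_mod_cast (hED a ha).1
    have h1 := hb_pos a.1
    have h2 := hb_pos a.2.1
    unfold tauD; positivity
  have hA : ∀ e ∈ E, 1 ≤ A e := by
    intro e he
    rcases Finset.mem_disjSum.1 he with ⟨q, hq, rfl⟩ | ⟨a, ha, rfl⟩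
    · exact (hEP q hq).1
    · exact (hED a ha).1
  have hτ : ∀ e ∈ E, 0 < τ e := by
    intro e he
    rcases Finset.mem_disjSum.1 he with ⟨q, hq, rfl⟩ | ⟨a, ha, rfl⟩
    · exact div_pos (hpsi q) (hyy q hq)
    · exact htD a ha
  have hr : ∀ e ∈ E, r e = τ e / A e := by
    intro e he
    rcases Finset.mem_disjSum.1 he with ⟨q, hq, rfl⟩ | ⟨a, ha, rfl⟩
    · have hqp : (0 : ℝ) < q := by exact_mod_cast (hEP q hq).1
      have hy := hyy q hq
      change rP n δ η ξ₁ ξ₂ q = tauP n δ η ξ₁ ξ₂ q / q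
      unfold rP tauP; field_simp
    · have hqp : (0 : ℝ) < a.2.2 := by exact_mod_cast (hED a ha).1
      have h1 := hb_pos a.1
      have h2 := hb_pos a.2.1
      change rD η a = tauD η a / a.2.2
      unfold rD tauD; field_simp
  have hsum : ∑ e ∈ E.filter (fun e => lam1 ≤ r e), 128 * τ e * (1 + 2 / (A e * w)) ≤ 1 / 4 := by
    rw [Finset.sum_filter, Finset.sum_disjSum, ← Finset.sum_filter, ← Finset.sum_filter]
    have e4 : (1 : ℝ) / 4 = 1 / 8 + 1 / 8 := by norm_num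
    rw [e4]
    refine add_le_add ?_ ?_
    · refine le_trans (le_of_eq ?_) hW
      apply Finset.sum_congr rfl
      intro q _
      change 128 * tauP n δ η ξ₁ ξ₂ q * (1 + 2 / (q * w)) = _
      unfold kap; ring
    · refine le_trans ?_ hD
      refine le_trans ?_ (Finset.sum_le_sum_of_subset_of_nonneg (Finset.filter_subset (fun a => lam1 ≤ rD η a) _) ?_)
      · apply Finset.sum_le_sum
        intro a ha
        have haE := (Finset.mem_filter.1 ha).1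
        have h1 := htD a haE
        change 128 * tauD η a * (1 + 2 / (a.2.2 * w)) ≤ _
        have hq : (1 : ℝ) ≤ a.2.2 := by exact_mod_cast (hED a haE).1
        have h2 : 2 / ((a.2.2 : ℝ) * w) ≤ 2 / w := by
          apply div_le_div_of_nonneg_left (by norm_num) hw
          nlinarith
        nlinarith
      · intro a ha _
        have h1 := htD a ha
        positivity
  obtain ⟨x₀, hx1, hx2, hx3, hx4⟩ := init_abs E A β τ r u₃ w hw hA hτ hr lam0 lam1 hlam0pos hlam1pos h10 hsum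
  refine ⟨ξ₁, ξ₂, x₀, h1, h2, h3, h4, hx1, hx2, hB1, hB2, ?_, ?_, ?_⟩
  · intro q hq hle
    have := hx3 (Sum.inl q) (Finset.mem_disjSum.2 (Or.inl ⟨q, hq, rfl⟩)) hle
    change 2 * tauP n δ η ξ₁ ξ₂ q ≤ nn (q * x₀ + 0) at this
    rwa [add_zero] at this
  · intro a ha hle
    exact hx3 (Sum.inr a) (Finset.mem_disjSum.2 (Or.inr ⟨a, ha, rfl⟩)) hle
  · rw [Finset.sum_filter, Finset.sum_disjSum, ← Finset.sum_filter, ← Finset.sum_filter] at hx4
    refine le_trans (le_of_eq ?_) hx4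
    congr 1
    apply Finset.sum_congr _ (fun _ _ => rfl)
    apply Finset.filter_congr
    intro q _
    change _ ↔ (lam1 ≤ rP n δ η ξ₁ ξ₂ q ∧ rP n δ η ξ₁ ξ₂ q < lam0 ∧ nn (q * x₀ + 0) ≤ 2 * q * lam0)
    rw [add_zero]

end Pool.A6405.LL
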