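import Pool.Agent.H.MP_a6405b_nt.helper54.Basic

set_option autoImplicit false

namespace Pool.A6405.LL

noncomputable def kap (w : ℝ) (q : ℕ) : ℝ := 1 + 2 / (q * w)

noncomputable def om (n : ℕ) (δ η w : ℝ) (q B : ℕ) : ℝ := min 1 (2 ^ 11 * kap w q * psi n δ η q * 2 ^ B)

open Classical in
/-- relevant pairs `(b₁, b₂)` for `q` -/
noncomputable def relq (n l : ℕ) (δ η : ℝ) (q : ℕ) : Finset (ℕ × ℕ) :=
  ((Finset.Icc 1 (2 * n)) ×ˢ (Finset.Icc 1 (2 * n))).filter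
    (fun p => (1 / 2 : ℝ) ^ (p.1 + p.2) < 4 * psi n δ η q * (2 ^ (n + 4) * 2 ^ (10 * l)) / q)

end Pool.A6405.LL
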