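import Pool.Agent.H.MP_a6405b_nt.helper54.InitSum
import Pool.Agent.H.MP_a6405b_nt.helper54.Avg

set_option autoImplicit false

namespace Pool.A6405.LL

private lemma initPair_harm (n : ℕ) : ∑ a ∈ Finset.Icc (1 : ℕ) (2 ^ n), (1 : ℝ) / (a : ℝ) ≤ n + 1 := by
  induction n with
  | zero => simp
  | succ n ih =>
    have hsub : Finset.Icc 1 (2 ^ (n + 1)) = Finset.Icc 1 (2 ^ n) ∪ Finset.Ioc (2 ^ n) (2 ^ (n + 1)) := by
      have h1 : 1 ≤ 2 ^ n := Nat.one_le_two_pow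
      ext x
      simp only [Finset.mem_Icc, Finset.mem_union, Finset.mem_Ioc, pow_succ]
      omega
    have hdisj : Disjoint (Finset.Icc 1 (2 ^ n)) (Finset.Ioc (2 ^ n) (2 ^ (n + 1))) := by
      rw [Finset.disjoint_left]
      intro x hx hx'
      simp only [Finset.mem_Icc, Finset.mem_Ioc] at hx hx'
      omega
    rw [hsub, Finset.sum_union hdisj]
    have h2 : ∑ a ∈ Finset.Ioc (2 ^ n : ℕ) (2 ^ (n + 1)), (1 : ℝ) / (a : ℝ) ≤
        ∑ a ∈ Finset.Ioc (2 ^ n : ℕ) (2 ^ (n + 1)), (1 : ℝ) / (2 ^ n : ℝ) := by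
      apply Finset.sum_le_sum
      intro a ha
      simp only [Finset.mem_Ioc] at ha
      apply one_div_le_one_div_of_le (by positivity)
      have : (2 ^ n : ℕ) ≤ a := ha.1.le
      exact_mod_cast this
    have h3 : ∑ a ∈ Finset.Ioc (2 ^ n : ℕ) (2 ^ (n + 1)), (1 : ℝ) / (2 ^ n : ℝ) = 1 := by
      rw [Finset.sum_const, Nat.card_Ioc, nsmul_eq_mul]
      have : (2 ^ (n + 1) - 2 ^ n : ℕ) = 2 ^ n := by rw [pow_succ]; omega
      rw [this]
      push_cast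
      field_simp
    push_cast
    linarith

private lemma initPair_int (g : ℤ → ℝ) (N : ℕ) :
    ∑ a ∈ Finset.Icc (-(N : ℤ)) N, g a = g 0 + ∑ k ∈ Finset.Icc 1 N, (g k + g (-(k : ℤ))) := by
  induction N with
  | zero => simp
  | succ N ih =>
    have h1 : Finset.Icc (-((N + 1 : ℕ) : ℤ)) ((N + 1 : ℕ) : ℤ) =
        insert (((N + 1 : ℕ) : ℤ)) (insert (-((N + 1 : ℕ) : ℤ)) (Finset.Icc (-(N : ℤ)) N)) := by
      ext x
      simp only [Finset.mem_Icc, Finset.mem_insert]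
      push_cast
      omega
    rw [h1, Finset.sum_insert, Finset.sum_insert, ih, Finset.sum_Icc_succ_top (by omega)]
    · push_cast; ring
    · simp only [Finset.mem_Icc]; push_cast; omega
    · simp only [Finset.mem_insert, Finset.mem_Icc]; push_cast; omega

private lemma initPair_hb (n : ℕ) :
    ∑ a ∈ Finset.Icc (-(2 ^ n : ℤ)) (2 ^ n), (1 : ℝ) / hb a ≤ 2 * n + 3 := by
  have h := initPair_int (fun a => (1 : ℝ) / hb a) (2 ^ n)
  push_cast at h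
  rw [h]
  have h0 : hb 0 = 1 := by simp [hb]
  have h1 : ∀ k ∈ Finset.Icc (1 : ℕ) (2 ^ n), (1 : ℝ) / hb (k : ℤ) + 1 / hb (-(k : ℤ)) = 2 * (1 / (k : ℝ)) := by
    intro k hk
    rw [hb_neg]
    have hk1 : (1 : ℝ) ≤ k := by exact_mod_cast (Finset.mem_Icc.1 hk).1
    have : hb (k : ℤ) = k := by
      unfold hb
      push_cast
      rw [abs_of_nonneg (by linarith), max_eq_right hk1]
    rw [this]; ring
  rw [Finset.sum_congr rfl h1, ← Finset.mul_sum, h0]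
  have := initPair_harm n
  linarith

private lemma initPair_abs (n : ℕ) :
    ∑ a ∈ (Finset.Icc (-(2 ^ n : ℤ)) (2 ^ n)).filter (fun a => a ≠ 0), (1 : ℝ) / |(a : ℝ)| ≤ 2 * n + 3 := by
  refine le_trans ?_ (initPair_hb n)
  have h1 : ∑ a ∈ (Finset.Icc (-(2 ^ n : ℤ)) (2 ^ n)).filter (fun a => a ≠ 0), (1 : ℝ) / |(a : ℝ)| =
      ∑ a ∈ (Finset.Icc (-(2 ^ n : ℤ)) (2 ^ n)).filter (fun a => a ≠ 0), (1 : ℝ) / hb a := by
    apply Finset.sum_congr rfl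
    intro a ha
    have ha0 : a ≠ 0 := (Finset.mem_filter.1 ha).2
    have : (1 : ℝ) ≤ |(a : ℝ)| := by
      have : (1 : ℤ) ≤ |a| := Int.one_le_abs ha0
      exact_mod_cast this
    unfold hb
    rw [max_eq_right this]
  rw [h1]
  apply Finset.sum_le_sum_of_subset_of_nonneg (Finset.filter_subset _ _)
  intro i _ _
  exact div_nonneg zero_le_one (hb_pos i).le

private lemma initPair_eta (n l : ℕ) (hn : 1 ≤ n) (hl : l = Nat.log 2 n + 1) :
    ((1 / 2 : ℝ) ^ (5 * l)) ≤ 1 / (n : ℝ) ^ 5 := by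
  have h1 : n < 2 ^ l := by
    rw [hl]; exact Nat.lt_pow_succ_log_self (by norm_num) n
  have h2 : (n : ℝ) ≤ 2 ^ l := by exact_mod_cast h1.le
  have h3 : (0 : ℝ) < n := by exact_mod_cast hn
  rw [one_div_pow, mul_comm 5 l, pow_mul]
  apply one_div_le_one_div_of_le (by positivity)
  exact pow_le_pow_left₀ h3.le h2 5

private lemma initPair_small (w : ℝ) (hw : 0 < w) : ∃ n0 : ℕ, ∀ n ≥ n0, 1 ≤ n ∧
    2 * (1 + 2 / w) / 2 ^ n ≤ 1 / 32 ∧
    ∀ η : ℝ, η ≤ 1 / (n : ℝ) ^ 5 → 2 * η * (1 + 2 / w) * (2 * n + 3) ^ 2 ≤ 1 / 32 := by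
  refine ⟨⌈1600 * (1 + 2 / w)⌉₊ + 1, ?_⟩
  intro n hn
  set κ := 1 + 2 / w with hκ
  have hκ0 : 0 < κ := by positivity
  have hn1 : 1 ≤ n := by omega
  have hnr : 1600 * κ ≤ n := by
    have := Nat.le_ceil (1600 * κ)
    have h2 : ((⌈1600 * κ⌉₊ : ℕ) : ℝ) ≤ n := by exact_mod_cast (by omega : ⌈1600 * κ⌉₊ ≤ n)
    linarith
  have hn1r : (1 : ℝ) ≤ n := by exact_mod_cast hn1
  refine ⟨hn1, ?_, ?_⟩
  · rw [div_le_iff₀ (by positivity)]
    have h2 : (n : ℝ) ≤ 2 ^ n := by exact_mod_cast (Nat.lt_two_pow_self (n := n)).le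
    linarith
  · intro η hη
    have h3 : (2 * (n : ℝ) + 3) ^ 2 ≤ 25 * (n : ℝ) ^ 2 := by nlinarith
    calc 2 * η * κ * (2 * n + 3) ^ 2 ≤ 2 * (1 / (n : ℝ) ^ 5) * κ * (25 * (n : ℝ) ^ 2) := by
          rcases le_or_gt η 0 with h | h
          · have : 2 * η * κ * (2 * n + 3) ^ 2 ≤ 0 := by
              have : 0 ≤ κ * (2 * n + 3) ^ 2 := by positivity
              nlinarith
            have h5 : 0 ≤ 2 * (1 / (n : ℝ) ^ 5) * κ * (25 * (n : ℝ) ^ 2) := by positivity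
            linarith
          · gcongr
      _ = 50 * κ / (n : ℝ) ^ 3 := by field_simp; ring
      _ ≤ 50 * κ / n := by
          apply div_le_div_of_nonneg_left (by positivity) (by positivity)
          calc (n : ℝ) = n ^ 1 := (pow_one _).symm
            _ ≤ n ^ 3 := pow_le_pow_right₀ hn1r (by norm_num)
      _ ≤ 1 / 32 := by
          rw [div_le_iff₀ (by linarith)]; linarith

private lemma initPair_ind {ι : Type*} (J : Finset ι) (P : ι → Prop) [DecidablePred P]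
    (h : ∑ j ∈ J, (if P j then (1 : ℝ) else 0) < 1) : ∀ j ∈ J, ¬ P j := by
  intro j hj hP
  have h1 : (if P j then (1 : ℝ) else 0) ≤ ∑ j ∈ J, (if P j then (1 : ℝ) else 0) :=
    Finset.single_le_sum (f := fun j => if P j then (1 : ℝ) else 0)
      (fun i _ => by split_ifs <;> norm_num) hj
  rw [if_pos hP] at h1
  linarith

private lemma initPair_indnn {ι : Type*} (J : Finset ι) (P : ι → Prop) [DecidablePred P] :
    0 ≤ ∑ j ∈ J, (if P j then (1 : ℝ) else 0) :=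
  Finset.sum_nonneg (fun i _ => by split_ifs <;> norm_num)

set_option maxHeartbeats 1000000 in
/- PROOF (section 5). averaging for ξ1 with Z1 = Σ_q Σ_relq om 2κ(1/2)^b2 [nn(qξ1) ≤ (1/2)^b1] + Σ_q [nn(qξ1) ≤ 2^-2n] + Σ_{0<|a1|≤2^n} [nn(a1ξ1) ≤ η/|a1|]: expected value at most
1/16 + 2^n 2(1+2/w)2^-2n + Σ 2(1+2/w)η/|a1| ≤ 1/8. Then for ξ2 with Z2 = Σ om [..ξ1][nn(qξ2) ≤ (1/2)^b2] + Σ_q [nn(qξ2) ≤ 2^-2n] +
Σ_{a2≠0, hb a1 |a2| ≤ 2^n} [nn(a1ξ1+a2ξ2) ≤ η/(hb a1 |a2|)]: at most 1/4. The indicators in the last sums are then 0: B1, B2. -/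
theorem init_pair (u₁ u₂ w : ℝ) (hw : 0 < w) : ∃ n0 : ℕ, ∀ n ≥ n0, ∀ l : ℕ, l = Nat.log 2 n + 1 →
    ∀ δ : ℝ, δ = (1 / 2 : ℝ) ^ 42 / (n * l) →
    ∃ ξ₁ ξ₂ : ℝ, u₁ ≤ ξ₁ ∧ ξ₁ ≤ u₁ + w ∧ u₂ ≤ ξ₂ ∧ ξ₂ ≤ u₂ + w ∧ B1 n ξ₁ ξ₂ ∧
      B2 n ((1 / 2 : ℝ) ^ (5 * l)) ξ₁ ξ₂ ∧
      ∑ q ∈ EP n, ∑ p ∈ relq n l δ ((1 / 2 : ℝ) ^ (5 * l)) q, om n δ ((1 / 2 : ℝ) ^ (5 * l)) w q (p.1 + p.2) *
        (if nn (q * ξ₁) ≤ (1 / 2) ^ p.1 then 1 else 0) *
        (if nn (q * ξ₂) ≤ (1 / 2) ^ p.2 then 1 else 0) ≤ 1 / 2 := by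
  obtain ⟨n1, hn1⟩ := init_sum w hw
  obtain ⟨n2, hn2⟩ := initPair_small w hw
  refine ⟨max n1 n2, ?_⟩
  intro n hn l hl δ hδ
  have hS := hn1 n (le_trans (le_max_left _ _) hn) l hl δ hδ
  obtain ⟨hn0, hsm1, hsm2⟩ := hn2 n (le_trans (le_max_right _ _) hn)
  have hηb := initPair_eta n l hn0 hl
  have hη0 : (0 : ℝ) < (1 / 2 : ℝ) ^ (5 * l) := by positivity
  generalize ((1 / 2 : ℝ) ^ (5 * l)) = η at hS hηb hη0 ⊢
  have hsm := hsm2 η hηb
  have hnr : (1 : ℝ) ≤ n := by exact_mod_cast hn0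
  have hl1 : (1 : ℝ) ≤ l := by exact_mod_cast (by omega : 1 ≤ l)
  have hδ0 : 0 < δ := by rw [hδ]; positivity
  set κ := 1 + 2 / w with hκ
  have hκ0 : 0 < κ := by positivity
  have hom : ∀ q B : ℕ, 0 ≤ om n δ η w q B := by
    intro q B
    unfold om
    refine le_min zero_le_one ?_
    have h1 : 0 ≤ kap w q := by unfold kap; positivity
    have h2 : 0 ≤ psi n δ η q := by unfold psi; exact le_max_of_le_left (by positivity)
    positivity
  have hkap : ∀ q : ℕ, 0 ≤ kap w q := by intro q; unfold kap; positivity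
  have hkap' : ∀ q : ℕ, 1 ≤ q → 1 + 2 / ((q : ℝ) * w) ≤ κ := by
    intro q hq
    have hq1 : (1 : ℝ) ≤ q := by exact_mod_cast hq
    have : 2 / ((q : ℝ) * w) ≤ 2 / w := by
      apply div_le_div_of_nonneg_left (by norm_num) hw
      nlinarith
    linarith
  -- small sums
  have hsmA : ∑ q ∈ EP n, (2 * ((1 / 2 : ℝ) ^ (2 * n)) * (1 + 2 / (|((q : ℤ) : ℝ)| * w))) ≤ 1 / 32 := by
    calc ∑ q ∈ EP n, (2 * ((1 / 2 : ℝ) ^ (2 * n)) * (1 + 2 / (|((q : ℤ) : ℝ)| * w)))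
        ≤ ∑ q ∈ EP n, (2 * ((1 / 2 : ℝ) ^ (2 * n)) * κ) := by
          apply Finset.sum_le_sum
          intro q hq
          have hq1 : 1 ≤ q := (Finset.mem_Icc.1 hq).1
          have := hkap' q hq1
          have e : |((q : ℤ) : ℝ)| = q := by push_cast; exact abs_of_nonneg (Nat.cast_nonneg q)
          rw [e]
          exact mul_le_mul_of_nonneg_left this (by positivity)
      _ = 2 * κ / 2 ^ n := by
          rw [Finset.sum_const]
          unfold EP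
          rw [Nat.card_Icc, nsmul_eq_mul]
          have : ((2 ^ n + 1 - 1 : ℕ) : ℝ) = 2 ^ n := by push_cast [Nat.add_sub_cancel]; ring
          rw [this, one_div_pow, two_mul n, pow_add]
          field_simp
      _ ≤ 1 / 32 := hsm1
  have hsmB : ∑ a ∈ (Finset.Icc (-(2 ^ n : ℤ)) (2 ^ n)).filter (fun a => a ≠ 0),
      (2 * (η / |(a : ℝ)|) * (1 + 2 / (|(a : ℝ)| * w))) ≤ 1 / 32 := by
    calc ∑ a ∈ (Finset.Icc (-(2 ^ n : ℤ)) (2 ^ n)).filter (fun a => a ≠ 0),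
          (2 * (η / |(a : ℝ)|) * (1 + 2 / (|(a : ℝ)| * w)))
        ≤ ∑ a ∈ (Finset.Icc (-(2 ^ n : ℤ)) (2 ^ n)).filter (fun a => a ≠ 0), (2 * η * κ) * (1 / |(a : ℝ)|) := by
          apply Finset.sum_le_sum
          intro a ha
          have ha0 : a ≠ 0 := (Finset.mem_filter.1 ha).2
          have ha1 : (1 : ℝ) ≤ |(a : ℝ)| := by
            have : (1 : ℤ) ≤ |a| := Int.one_le_abs ha0
            exact_mod_cast this
          have h1 : 1 + 2 / (|(a : ℝ)| * w) ≤ κ := by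
            have : 2 / (|(a : ℝ)| * w) ≤ 2 / w := by
              apply div_le_div_of_nonneg_left (by norm_num) hw
              nlinarith
            linarith
          calc 2 * (η / |(a : ℝ)|) * (1 + 2 / (|(a : ℝ)| * w)) ≤ 2 * (η / |(a : ℝ)|) * κ :=
                mul_le_mul_of_nonneg_left h1 (by positivity)
            _ = (2 * η * κ) * (1 / |(a : ℝ)|) := by ring
      _ = (2 * η * κ) * ∑ a ∈ (Finset.Icc (-(2 ^ n : ℤ)) (2 ^ n)).filter (fun a => a ≠ 0), (1 / |(a : ℝ)|) := by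
          rw [Finset.mul_sum]
      _ ≤ (2 * η * κ) * (2 * n + 3) := mul_le_mul_of_nonneg_left (initPair_abs n) (by positivity)
      _ ≤ 2 * η * κ * (2 * n + 3) ^ 2 := by
          have h5 : (2 * (n : ℝ) + 3) ≤ (2 * n + 3) ^ 2 := by nlinarith
          exact mul_le_mul_of_nonneg_left h5 (by positivity)
      _ ≤ 1 / 32 := hsm
  have hsmC : ∑ a ∈ (Finset.Icc (-(2 ^ n : ℤ)) (2 ^ n)) ×ˢ
        ((Finset.Icc (-(2 ^ n : ℤ)) (2 ^ n)).filter (fun a => a ≠ 0)),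
      (2 * (η / (hb a.1 * |(a.2 : ℝ)|)) * (1 + 2 / (|(a.2 : ℝ)| * w))) ≤ 1 / 32 := by
    calc ∑ a ∈ (Finset.Icc (-(2 ^ n : ℤ)) (2 ^ n)) ×ˢ
          ((Finset.Icc (-(2 ^ n : ℤ)) (2 ^ n)).filter (fun a => a ≠ 0)),
          (2 * (η / (hb a.1 * |(a.2 : ℝ)|)) * (1 + 2 / (|(a.2 : ℝ)| * w)))
        ≤ ∑ a ∈ (Finset.Icc (-(2 ^ n : ℤ)) (2 ^ n)) ×ˢ
          ((Finset.Icc (-(2 ^ n : ℤ)) (2 ^ n)).filter (fun a => a ≠ 0)),
            (2 * η * κ) * ((1 / hb a.1) * (1 / |(a.2 : ℝ)|)) := by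
          apply Finset.sum_le_sum
          intro a ha
          have ha0 : a.2 ≠ 0 := (Finset.mem_filter.1 (Finset.mem_product.1 ha).2).2
          have ha1 : (1 : ℝ) ≤ |(a.2 : ℝ)| := by
            have : (1 : ℤ) ≤ |a.2| := Int.one_le_abs ha0
            exact_mod_cast this
          have hb1 := hb_pos a.1
          have h1 : 1 + 2 / (|(a.2 : ℝ)| * w) ≤ κ := by
            have : 2 / (|(a.2 : ℝ)| * w) ≤ 2 / w := by
              apply div_le_div_of_nonneg_left (by norm_num) hw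
              nlinarith
            linarith
          calc 2 * (η / (hb a.1 * |(a.2 : ℝ)|)) * (1 + 2 / (|(a.2 : ℝ)| * w)) ≤
                2 * (η / (hb a.1 * |(a.2 : ℝ)|)) * κ :=
                mul_le_mul_of_nonneg_left h1 (by positivity)
            _ = (2 * η * κ) * ((1 / hb a.1) * (1 / |(a.2 : ℝ)|)) := by
                field_simp
      _ = (2 * η * κ) * ((∑ a ∈ Finset.Icc (-(2 ^ n : ℤ)) (2 ^ n), (1 / hb a)) *
            ∑ a ∈ (Finset.Icc (-(2 ^ n : ℤ)) (2 ^ n)).filter (fun a => a ≠ 0), (1 / |(a : ℝ)|)) := by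
          rw [← Finset.mul_sum, Finset.sum_product]
          congr 1
          rw [Finset.sum_mul_sum]
      _ ≤ (2 * η * κ) * ((2 * n + 3) * (2 * n + 3)) := by
          apply mul_le_mul_of_nonneg_left _ (by positivity)
          apply mul_le_mul (initPair_hb n) (initPair_abs n) _ (by positivity)
          apply Finset.sum_nonneg
          intro i _
          positivity
      _ = 2 * η * κ * (2 * n + 3) ^ 2 := by ring
      _ ≤ 1 / 32 := hsm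
  -- stage one
  let J₀ : Finset (Σ _ : ℕ, ℕ × ℕ) := (EP n).sigma (fun q => relq n l δ η q)
  let Jz : Finset ℤ := (Finset.Icc (-(2 ^ n : ℤ)) (2 ^ n)).filter (fun a => a ≠ 0)
  have hJ0q : ∀ j ∈ J₀, 1 ≤ j.1 := fun j hj => (Finset.mem_Icc.1 (Finset.mem_sigma.1 hj).1).1
  obtain ⟨ξ₁, h11, h12, hZ1⟩ := averaging (J₀.disjSum ((EP n).disjSum Jz))
    (Sum.elim (fun j => om n δ η w j.1 (j.2.1 + j.2.2) * (2 * kap w j.1 * (1 / 2) ^ j.2.2))
      (Sum.elim (fun _ => 1) (fun _ => 1)))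
    (Sum.elim (fun j => (j.1 : ℤ)) (Sum.elim (fun q => (q : ℤ)) (fun a => a)))
    (fun _ => 0)
    (Sum.elim (fun j => (1 / 2) ^ j.2.1) (Sum.elim (fun _ => (1 / 2) ^ (2 * n)) (fun a => η / |(a : ℝ)|)))
    u₁ w hw
    (by
      rintro (j | (q | a)) hj
      · simp only [Sum.elim_inl]
        have := hom j.1 (j.2.1 + j.2.2)
        have := hkap j.1
        positivity
      · simp
      · simp)
    (by
      rintro (j | (q | a)) hj
      · simp only [Sum.elim_inl]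
        have := hJ0q j (Finset.inl_mem_disjSum.1 hj)
        positivity
      · simp only [Sum.elim_inl, Sum.elim_inr]
        have := (Finset.mem_Icc.1 (Finset.inl_mem_disjSum.1 (Finset.inr_mem_disjSum.1 hj))).1
        positivity
      · simp only [Sum.elim_inr]
        exact (Finset.mem_filter.1 (Finset.inr_mem_disjSum.1 (Finset.inr_mem_disjSum.1 hj))).2)
    (by
      rintro (j | (q | a)) hj
      · simp only [Sum.elim_inl]; positivity
      · simp only [Sum.elim_inl, Sum.elim_inr]; positivity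
      · simp only [Sum.elim_inr]; positivity)
  rw [Finset.sum_disjSum, Finset.sum_disjSum, Finset.sum_disjSum, Finset.sum_disjSum] at hZ1
  simp only [Sum.elim_inl, Sum.elim_inr, add_zero, one_mul, Int.cast_natCast] at hZ1
  have hE1 : ∑ j ∈ J₀, om n δ η w j.1 (j.2.1 + j.2.2) * (2 * kap w j.1 * (1 / 2) ^ j.2.2) *
      (2 * (1 / 2) ^ j.2.1 * (1 + 2 / (|(j.1 : ℝ)| * w))) ≤ 1 / 16 := by
    rw [Finset.sum_sigma]
    refine le_trans (le_of_eq ?_) hS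
    apply Finset.sum_congr rfl
    intro q hq
    apply Finset.sum_congr rfl
    intro p hp
    have e : |(q : ℝ)| = q := abs_of_nonneg (Nat.cast_nonneg q)
    simp only [e]
    unfold kap
    ring
  have hsmA' : ∑ q ∈ EP n, (2 * ((1 / 2 : ℝ) ^ (2 * n)) * (1 + 2 / (|(q : ℝ)| * w))) ≤ 1 / 32 := by
    simpa using hsmA
  have hT1 := hZ1.trans (add_le_add hE1 (add_le_add hsmA' hsmB))
  have hn1a : 0 ≤ ∑ x ∈ J₀,
      om n δ η w x.1 (x.2.1 + x.2.2) * (2 * kap w x.1 * (1 / 2) ^ x.2.2) *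
        (if nn (x.1 * ξ₁) ≤ (1 / 2) ^ x.2.1 then 1 else 0) := by
    apply Finset.sum_nonneg
    intro i _
    have := hom i.1 (i.2.1 + i.2.2)
    have := hkap i.1
    apply mul_nonneg (by positivity)
    split_ifs <;> norm_num
  have hn1b := initPair_indnn (EP n) (fun x : ℕ => nn (x * ξ₁) ≤ (1 / 2) ^ (2 * n))
  have hn1c := initPair_indnn Jz (fun x : ℤ => nn (x * ξ₁) ≤ η / |(x : ℝ)|)
  have hI1 : ∀ q ∈ EP n, ¬ nn (q * ξ₁) ≤ (1 / 2) ^ (2 * n) :=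
    initPair_ind (EP n) (fun x : ℕ => nn (x * ξ₁) ≤ (1 / 2) ^ (2 * n)) (by linarith)
  have hI2 : ∀ a ∈ Jz, ¬ nn (a * ξ₁) ≤ η / |(a : ℝ)| :=
    initPair_ind Jz (fun x : ℤ => nn (x * ξ₁) ≤ η / |(x : ℝ)|) (by linarith)
  have hE2 : ∑ x ∈ J₀,
      om n δ η w x.1 (x.2.1 + x.2.2) * (2 * kap w x.1 * (1 / 2) ^ x.2.2) *
        (if nn (x.1 * ξ₁) ≤ (1 / 2) ^ x.2.1 then 1 else 0) ≤ 1 / 8 := by linarith
  -- stage two
  let Jy : Finset (ℤ × ℤ) := (Finset.Icc (-(2 ^ n : ℤ)) (2 ^ n)) ×ˢ Jz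
  obtain ⟨ξ₂, h21, h22, hZ2⟩ := averaging (J₀.disjSum ((EP n).disjSum Jy))
    (Sum.elim (fun j => om n δ η w j.1 (j.2.1 + j.2.2) * (if nn (j.1 * ξ₁) ≤ (1 / 2) ^ j.2.1 then 1 else 0))
      (Sum.elim (fun _ => 1) (fun _ => 1)))
    (Sum.elim (fun j => (j.1 : ℤ)) (Sum.elim (fun q => (q : ℤ)) (fun a => a.2)))
    (Sum.elim (fun _ => 0) (Sum.elim (fun _ => 0) (fun a => a.1 * ξ₁)))
    (Sum.elim (fun j => (1 / 2) ^ j.2.2) (Sum.elim (fun _ => (1 / 2) ^ (2 * n)) (fun a => η / (hb a.1 * |(a.2 : ℝ)|))))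
    u₂ w hw
    (by
      rintro (j | (q | a)) hj
      · simp only [Sum.elim_inl]
        have := hom j.1 (j.2.1 + j.2.2)
        apply mul_nonneg this
        split_ifs <;> norm_num
      · simp
      · simp)
    (by
      rintro (j | (q | a)) hj
      · simp only [Sum.elim_inl]
        have := hJ0q j (Finset.inl_mem_disjSum.1 hj)
        positivity
      · simp only [Sum.elim_inl, Sum.elim_inr]
        have := (Finset.mem_Icc.1 (Finset.inl_mem_disjSum.1 (Finset.inr_mem_disjSum.1 hj))).1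
        positivity
      · simp only [Sum.elim_inr]
        exact (Finset.mem_filter.1 (Finset.mem_product.1
          (Finset.inr_mem_disjSum.1 (Finset.inr_mem_disjSum.1 hj))).2).2)
    (by
      rintro (j | (q | a)) hj
      · simp only [Sum.elim_inl]; positivity
      · simp only [Sum.elim_inl, Sum.elim_inr]; positivity
      · simp only [Sum.elim_inr]
        have := hb_pos a.1
        positivity)
  rw [Finset.sum_disjSum, Finset.sum_disjSum, Finset.sum_disjSum, Finset.sum_disjSum] at hZ2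
  simp only [Sum.elim_inl, Sum.elim_inr, add_zero, one_mul, Int.cast_natCast] at hZ2
  have hE3 : ∑ x ∈ J₀,
      om n δ η w x.1 (x.2.1 + x.2.2) * (if nn (x.1 * ξ₁) ≤ (1 / 2) ^ x.2.1 then 1 else 0) *
        (2 * (1 / 2) ^ x.2.2 * (1 + 2 / (|(x.1 : ℝ)| * w))) ≤ 1 / 8 := by
    refine le_trans (le_of_eq ?_) hE2
    apply Finset.sum_congr rfl
    intro j hj
    have e : |(j.1 : ℝ)| = j.1 := abs_of_nonneg (Nat.cast_nonneg _)
    simp only [e]
    unfold kap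
    ring
  have hT2 : (∑ x ∈ J₀,
      om n δ η w x.1 (x.2.1 + x.2.2) * (if nn (x.1 * ξ₁) ≤ (1 / 2) ^ x.2.1 then 1 else 0) *
        (if nn (x.1 * ξ₂) ≤ (1 / 2) ^ x.2.2 then 1 else 0)) +
      ((∑ x ∈ EP n, if nn (x * ξ₂) ≤ (1 / 2) ^ (2 * n) then (1 : ℝ) else 0) +
        ∑ x ∈ Jy, if nn (x.2 * ξ₂ + x.1 * ξ₁) ≤ η / (hb x.1 * |(x.2 : ℝ)|) then (1 : ℝ) else 0) ≤
      1 / 8 + (1 / 32 + 1 / 32) := by
    have h := hZ2.trans (add_le_add hE3 (add_le_add hsmA' hsmC))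
    exact h
  have hn2a : 0 ≤ ∑ x ∈ J₀,
      om n δ η w x.1 (x.2.1 + x.2.2) * (if nn (x.1 * ξ₁) ≤ (1 / 2) ^ x.2.1 then 1 else 0) *
        (if nn (x.1 * ξ₂) ≤ (1 / 2) ^ x.2.2 then 1 else 0) := by
    apply Finset.sum_nonneg
    intro i _
    have := hom i.1 (i.2.1 + i.2.2)
    apply mul_nonneg (mul_nonneg this _)
    all_goals split_ifs <;> norm_num
  have hn2b := initPair_indnn (EP n) (fun x : ℕ => nn (x * ξ₂) ≤ (1 / 2) ^ (2 * n))
  have hn2c := initPair_indnn Jy (fun x : ℤ × ℤ => nn (x.2 * ξ₂ + x.1 * ξ₁) ≤ η / (hb x.1 * |(x.2 : ℝ)|))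
  have hI3 : ∀ q ∈ EP n, ¬ nn (q * ξ₂) ≤ (1 / 2) ^ (2 * n) :=
    initPair_ind (EP n) (fun x : ℕ => nn (x * ξ₂) ≤ (1 / 2) ^ (2 * n)) (by linarith)
  have hI4 : ∀ a ∈ Jy, ¬ nn (a.2 * ξ₂ + a.1 * ξ₁) ≤ η / (hb a.1 * |(a.2 : ℝ)|) :=
    initPair_ind Jy (fun x : ℤ × ℤ => nn (x.2 * ξ₂ + x.1 * ξ₁) ≤ η / (hb x.1 * |(x.2 : ℝ)|)) (by linarith)
  refine ⟨ξ₁, ξ₂, h11, h12, h21, h22, ?_, ?_, ?_⟩
  · intro q hq1 hq2
    have hq : q ∈ EP n := Finset.mem_Icc.2 ⟨hq1, hq2⟩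
    have e : (1 : ℝ) / 2 ^ (2 * n) = (1 / 2) ^ (2 * n) := by rw [one_div_pow]
    rw [e]
    exact ⟨(not_le.1 (hI1 q hq)).le, (not_le.1 (hI3 q hq)).le⟩
  · intro a₁ a₂ ha hprod
    have hb1 := one_le_hb a₁
    have hb2 := one_le_hb a₂
    have hint : ∀ a : ℤ, |(a : ℝ)| ≤ 2 ^ n → a ∈ Finset.Icc (-(2 ^ n : ℤ)) (2 ^ n) := by
      intro a h
      rw [Finset.mem_Icc]
      have : |a| ≤ 2 ^ n := by exact_mod_cast h
      exact abs_le.1 this
    have hA1 : |(a₁ : ℝ)| ≤ 2 ^ n := (abs_le_hb a₁).trans (by nlinarith)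
    have hA2 : |(a₂ : ℝ)| ≤ 2 ^ n := (abs_le_hb a₂).trans (by nlinarith)
    by_cases h2 : a₂ = 0
    · subst h2
      have ha1 : a₁ ≠ 0 := by simpa using ha
      have h3 := (not_le.1 (hI2 a₁ (Finset.mem_filter.2 ⟨hint a₁ hA1, ha1⟩))).le
      have h1 : (1 : ℝ) ≤ |(a₁ : ℝ)| := by
        have : (1 : ℤ) ≤ |a₁| := Int.one_le_abs ha1
        exact_mod_cast this
      have e1 : hb a₁ = |(a₁ : ℝ)| := by unfold hb; exact max_eq_right h1
      have e2 : hb 0 = 1 := by simp [hb]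
      rw [e1, e2]
      simpa using h3
    · have h1 : (1 : ℝ) ≤ |(a₂ : ℝ)| := by
        have : (1 : ℤ) ≤ |a₂| := Int.one_le_abs h2
        exact_mod_cast this
      have e1 : hb a₂ = |(a₂ : ℝ)| := by unfold hb; exact max_eq_right h1
      have h3 := (not_le.1 (hI4 (a₁, a₂) (Finset.mem_product.2 ⟨hint a₁ hA1,
        Finset.mem_filter.2 ⟨hint a₂ hA2, h2⟩⟩))).le
      rw [e1, add_comm]
      exact h3
  · have hfin : ∑ x ∈ J₀,
        om n δ η w x.1 (x.2.1 + x.2.2) * (if nn (x.1 * ξ₁) ≤ (1 / 2) ^ x.2.1 then 1 else 0) *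
          (if nn (x.1 * ξ₂) ≤ (1 / 2) ^ x.2.2 then 1 else 0) ≤ 1 / 2 := by linarith
    rw [Finset.sum_sigma] at hfin
    exact hfin

end Pool.A6405.LL
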