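import Pool.Agent.H.MP_a6405b_nt.helper54.InitSumQ
import Pool.Agent.H.MP_a6405b_nt.helper54.Dyadic

set_option autoImplicit false

namespace Pool.A6405.LL

/-- a weighted geometric sum -/
private theorem initSum_geom (n : ℕ) : ∀ c : ℝ, 0 ≤ c →
    ∑ j ∈ Finset.range (n + 1), (2 : ℝ) ^ j * ((n : ℝ) - j + c) ≤ 2 ^ (n + 1) * (c + 1) := by
  induction n with
  | zero =>
    intro c hc
    simp
    linarith
  | succ n ih =>
    intro c hc
    rw [Finset.sum_range_succ]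
    have h1 : ∑ j ∈ Finset.range (n + 1), (2 : ℝ) ^ j * (((n + 1 : ℕ) : ℝ) - j + c) =
        ∑ j ∈ Finset.range (n + 1), (2 : ℝ) ^ j * ((n : ℝ) - j + (c + 1)) := by
      refine Finset.sum_congr rfl fun j _ => ?_
      push_cast
      ring
    rw [h1]
    have h2 := ih (c + 1) (by linarith)
    have h3 : (2 : ℝ) ^ (n + 1) * (((n + 1 : ℕ) : ℝ) - ((n + 1 : ℕ) : ℝ) + c) =
        2 ^ (n + 1) * c := by ring
    rw [h3]
    calc _ ≤ (2 : ℝ) ^ (n + 1) * (c + 1 + 1) + 2 ^ (n + 1) * c := by linarith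
      _ = 2 ^ (n + 1 + 1) * (c + 1) := by ring

private theorem initSum_sq_le (n : ℕ) (hn : 6 ≤ n) : ((n : ℝ) + 1) ^ 2 ≤ 2 ^ n := by
  induction n, hn using Nat.le_induction with
  | base => norm_num
  | succ n hn ih =>
    have h6 : (6 : ℝ) ≤ n := by exact_mod_cast hn
    push_cast
    calc ((n : ℝ) + 1 + 1) ^ 2 ≤ ((n : ℝ) + 1) ^ 2 * 2 := by nlinarith
      _ ≤ 2 ^ n * 2 := by gcongr
      _ = 2 ^ (n + 1) := by rw [pow_succ]

private theorem initSum_psi_nonneg (n : ℕ) (δ η : ℝ) (hδ : 0 < δ) (q : ℕ) :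
    0 ≤ psi n δ η q := le_max_of_le_left (by positivity)

private theorem initSum_kap_nonneg (w : ℝ) (hw : 0 < w) (q : ℕ) : 0 ≤ kap w q := by
  unfold kap
  positivity

/-- the bound for one `q` -/
private theorem initSum_term (w : ℝ) (hw : 0 < w) (n l : ℕ) (hn : 1 ≤ n) (δ η : ℝ) (hδ : 0 < δ)
    (hη : 0 < η) (q : ℕ) (h1 : 1 ≤ q) (h2 : q ≤ 2 ^ n) (T : ℝ)
    (hT : ∀ j : ℕ, j ≤ n → 2 ^ j ≤ q →
      T ≤ 2 ^ 14 * n * kap w q ^ 3 * psi n δ η q * ((n : ℝ) - j + 10 * l + 2)) :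
    T ≤ 2 ^ 17 * n * psi n δ η (2 ^ Nat.log 2 q) * ((n : ℝ) - (Nat.log 2 q : ℕ) + 10 * l + 2) +
      (if (q : ℝ) < 2 / w then
        2 ^ 14 * n * (1 + 2 / w) ^ 3 * (δ / 2 ^ n + η) * ((n : ℝ) + 10 * l + 2) else 0) := by
  have hq0 : q ≠ 0 := by omega
  have hjn : Nat.log 2 q ≤ n := by
    rw [← Nat.log_pow (by norm_num : 1 < 2) n]
    exact Nat.log_mono_right h2
  have hjq : 2 ^ Nat.log 2 q ≤ q := Nat.pow_log_le_self 2 hq0
  have hq1 : q < 2 ^ (Nat.log 2 q + 1) := Nat.lt_pow_succ_log_self (by norm_num) q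
  have h := hT _ hjn hjq
  have hjnR : ((Nat.log 2 q : ℕ) : ℝ) ≤ n := by exact_mod_cast hjn
  have hpos : 0 ≤ (n : ℝ) - (Nat.log 2 q : ℕ) + 10 * l + 2 := by
    have : (0 : ℝ) ≤ 10 * l := by positivity
    linarith
  have hk := initSum_kap_nonneg w hw q
  have hp := initSum_psi_nonneg n δ η hδ q
  have hp2 := initSum_psi_nonneg n δ η hδ (2 ^ Nat.log 2 q)
  have hqR : (1 : ℝ) ≤ q := by exact_mod_cast h1
  by_cases hc : (q : ℝ) < 2 / w
  · rw [if_pos hc]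
    have hfirst : 0 ≤ 2 ^ 17 * n * psi n δ η (2 ^ Nat.log 2 q) *
        ((n : ℝ) - (Nat.log 2 q : ℕ) + 10 * l + 2) := by positivity
    have hk1 : kap w q ≤ 1 + 2 / w := by
      unfold kap
      have : 2 / (q * w) ≤ 2 / w := by
        apply div_le_div_of_nonneg_left (by norm_num) hw
        nlinarith
      linarith
    have hp1 : psi n δ η q ≤ δ / 2 ^ n + η := by
      unfold psi
      refine max_le ?_ ?_
      · linarith
      · have h5 : η / q ≤ η := div_le_self hη.le hqR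
        have h6 : 0 < δ / 2 ^ n := by positivity
        linarith
    have h7 : (n : ℝ) - (Nat.log 2 q : ℕ) + 10 * l + 2 ≤ (n : ℝ) + 10 * l + 2 := by
      have : (0 : ℝ) ≤ ((Nat.log 2 q : ℕ) : ℝ) := Nat.cast_nonneg _
      linarith
    have h8 : 2 ^ 14 * n * kap w q ^ 3 * psi n δ η q *
        ((n : ℝ) - (Nat.log 2 q : ℕ) + 10 * l + 2) ≤
        2 ^ 14 * n * (1 + 2 / w) ^ 3 * (δ / 2 ^ n + η) * ((n : ℝ) + 10 * l + 2) := by
      gcongr
    linarith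
  · rw [if_neg hc, add_zero]
    push Not at hc
    have hk2 : kap w q ≤ 2 := by
      unfold kap
      have : 2 / (q * w) ≤ 1 := by
        rw [div_le_one (by positivity)]
        rwa [div_le_iff₀ hw] at hc
      linarith
    have hp1 := (psi_block n δ η hδ hη _ q hjq hq1).2
    have hk3 : kap w q ^ 3 ≤ 2 ^ 3 := by gcongr
    calc T ≤ 2 ^ 14 * n * kap w q ^ 3 * psi n δ η q *
          ((n : ℝ) - (Nat.log 2 q : ℕ) + 10 * l + 2) := h
      _ ≤ 2 ^ 14 * n * 2 ^ 3 * psi n δ η (2 ^ Nat.log 2 q) *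
          ((n : ℝ) - (Nat.log 2 q : ℕ) + 10 * l + 2) := by gcongr
      _ = _ := by ring

/-- the sum over dyadic blocks -/
private theorem initSum_blocks (n l : ℕ) (δ η : ℝ) (hδ : 0 < δ) (hη : 0 < η) :
    ∑ q ∈ EP n, psi n δ η (2 ^ Nat.log 2 q) * ((n : ℝ) - (Nat.log 2 q : ℕ) + 10 * l + 2) ≤
      δ * (20 * l + 6) + η * ((n : ℝ) + 1) * ((n : ℝ) + 10 * l + 2) := by
  have hmap : ∀ q ∈ EP n, Nat.log 2 q ∈ Finset.range (n + 1) := by
    intro q hq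
    rw [EP, Finset.mem_Icc] at hq
    rw [Finset.mem_range, Nat.lt_succ_iff, ← Nat.log_pow (by norm_num : 1 < 2) n]
    exact Nat.log_mono_right hq.2
  rw [← Finset.sum_fiberwise_of_maps_to hmap]
  have h1 : ∀ j ∈ Finset.range (n + 1),
      ∑ q ∈ (EP n).filter (fun q => Nat.log 2 q = j),
        psi n δ η (2 ^ Nat.log 2 q) * ((n : ℝ) - (Nat.log 2 q : ℕ) + 10 * l + 2) ≤
      δ / 2 ^ n * (2 ^ j * ((n : ℝ) - j + (10 * l + 2))) + η * ((n : ℝ) + 10 * l + 2) := by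
    intro j hj
    rw [Finset.mem_range, Nat.lt_succ_iff] at hj
    have hjR : (j : ℝ) ≤ n := by exact_mod_cast hj
    have hl0 : (0 : ℝ) ≤ 10 * l := by positivity
    have hj0 : (0 : ℝ) ≤ j := by positivity
    have hc : ((EP n).filter (fun q => Nat.log 2 q = j)).card ≤ 2 ^ j := by
      have hsub : (EP n).filter (fun q => Nat.log 2 q = j) ⊆ Finset.Ico (2 ^ j) (2 ^ (j + 1)) := by
        intro q hq
        rw [Finset.mem_filter, EP, Finset.mem_Icc] at hq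
        rw [Finset.mem_Ico, ← hq.2]
        exact ⟨Nat.pow_log_le_self 2 (by omega), Nat.lt_pow_succ_log_self (by norm_num) q⟩
      have h := Finset.card_le_card hsub
      rw [Nat.card_Ico, pow_succ] at h
      omega
    have hcR : (((EP n).filter (fun q => Nat.log 2 q = j)).card : ℝ) ≤ 2 ^ j := by
      exact_mod_cast hc
    have hp := initSum_psi_nonneg n δ η hδ (2 ^ j)
    have hpos : 0 ≤ (n : ℝ) - j + 10 * l + 2 := by linarith
    have h2 : ∑ q ∈ (EP n).filter (fun q => Nat.log 2 q = j),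
        psi n δ η (2 ^ Nat.log 2 q) * ((n : ℝ) - (Nat.log 2 q : ℕ) + 10 * l + 2) =
        (((EP n).filter (fun q => Nat.log 2 q = j)).card : ℝ) *
          (psi n δ η (2 ^ j) * ((n : ℝ) - j + 10 * l + 2)) := by
      rw [← nsmul_eq_mul, ← Finset.sum_const]
      refine Finset.sum_congr rfl fun q hq => ?_
      rw [(Finset.mem_filter.mp hq).2]
    rw [h2]
    calc _ ≤ (2 : ℝ) ^ j * (psi n δ η (2 ^ j) * ((n : ℝ) - j + 10 * l + 2)) := by gcongr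
      _ = (2 ^ j * psi n δ η (2 ^ j)) * ((n : ℝ) - j + 10 * l + 2) := by ring
      _ ≤ (δ * 2 ^ j / 2 ^ n + η) * ((n : ℝ) - j + 10 * l + 2) := by
          gcongr
          exact pow_mul_psi n δ η hδ hη j
      _ = δ / 2 ^ n * (2 ^ j * ((n : ℝ) - j + (10 * l + 2))) +
          η * ((n : ℝ) - j + 10 * l + 2) := by ring
      _ ≤ _ := by
          gcongr
          linarith
  refine (Finset.sum_le_sum h1).trans ?_
  rw [Finset.sum_add_distrib, ← Finset.mul_sum, Finset.sum_const, Finset.card_range,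
    nsmul_eq_mul]
  have h3 := initSum_geom n (10 * (l : ℝ) + 2) (by positivity)
  have h4 : δ / 2 ^ n * ∑ j ∈ Finset.range (n + 1),
      (2 : ℝ) ^ j * ((n : ℝ) - j + (10 * l + 2)) ≤ δ * (20 * l + 6) := by
    calc _ ≤ δ / 2 ^ n * (2 ^ (n + 1) * (10 * (l : ℝ) + 2 + 1)) := by gcongr
      _ = δ * (20 * l + 6) := by
          rw [pow_succ]
          field_simp
          ring
  push_cast
  nlinarith [h4]

/- PROOF (section 5, end). init_sum_q with j = Nat.log 2 q. q ≥ 2/w: kap ≤ 2, sum over the dyadic block j of psi is at most 2^j psi(2^j) ≤ δ 2^j/2^n + η, so these q give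
≤ 2^17 n Σ_j (δ 2^j/2^n + η)(n - j + 10l + 2) ≤ 2^17 n (δ (20 l + 6) + (n+1) η (n + 10 l + 2)) ; δ n l = 2^-42. q < 2/w: kap ≤ 1 + 2/w, psi ≤ δ/2^n + η,
total ≤ 2^14 n (n+10l+2)(1+2/w)^3 (2/w+1)(δ/2^n + η). η = 2^(-5l) ≤ (n+1)^-5, so everything except the δ-part tends to 0; the δ-part is ≤ 2^-18. -/
theorem init_sum (w : ℝ) (hw : 0 < w) : ∃ n0 : ℕ, ∀ n ≥ n0, ∀ l : ℕ, l = Nat.log 2 n + 1 →
    ∀ δ : ℝ, δ = (1 / 2 : ℝ) ^ 42 / (n * l) →
    ∑ q ∈ EP n, ∑ p ∈ relq n l δ ((1 / 2 : ℝ) ^ (5 * l)) q, om n δ ((1 / 2 : ℝ) ^ (5 * l)) w q (p.1 + p.2) *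
      (2 * kap w q * (1 / 2) ^ p.1) * (2 * kap w q * (1 / 2) ^ p.2) ≤ 1 / 16 := by
  classical
  set N0 : ℕ := ⌈2 / w⌉₊ with hN0
  set C : ℝ := 2 ^ 17 * 13 + N0 * 2 ^ 14 * (1 + 2 / w) ^ 3 * 26 with hC
  have hC0 : 0 < C := by positivity
  refine ⟨max 6 ⌈32 * C⌉₊, fun n hn l hl δ hδ => ?_⟩
  have hn6 : 6 ≤ n := le_trans (le_max_left _ _) hn
  have hnC : 32 * C ≤ n := (Nat.le_ceil _).trans (by exact_mod_cast (le_max_right _ _).trans hn)
  have hn1 : 1 ≤ n := by omega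
  have hl1 : 1 ≤ l := by omega
  have hln : l ≤ n := by
    rw [hl]
    exact Nat.succ_le_of_lt (Nat.log_lt_self 2 (by omega))
  have hnl : n + 1 ≤ 2 ^ l := by
    rw [hl]
    exact Nat.lt_pow_succ_log_self (by norm_num) n
  have hnR : (6 : ℝ) ≤ n := by exact_mod_cast hn6
  have hlR : (1 : ℝ) ≤ l := by exact_mod_cast hl1
  have hlnR : (l : ℝ) ≤ n := by exact_mod_cast hln
  have hnlR : (n : ℝ) + 1 ≤ 2 ^ l := by exact_mod_cast hnl
  set η : ℝ := (1 / 2 : ℝ) ^ (5 * l) with hη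
  have hη0 : 0 < η := by positivity
  have hδ0 : 0 < δ := by
    rw [hδ]
    positivity
  have hnlδ : (n : ℝ) * l * δ = (1 / 2 : ℝ) ^ 42 := by
    rw [hδ]
    field_simp
  have hN : (0 : ℝ) < (n : ℝ) + 1 := by positivity
  have hη1 : η * ((n : ℝ) + 1) ^ 5 ≤ 1 := by
    have h1 : ((n : ℝ) + 1) ^ 5 ≤ (2 ^ l) ^ 5 := by gcongr
    calc η * ((n : ℝ) + 1) ^ 5 ≤ η * (2 ^ l) ^ 5 := by gcongr
      _ = 1 := by
          rw [hη, ← pow_mul, mul_comm l 5, ← mul_pow]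
          norm_num
  -- the sum
  have hsum : ∑ q ∈ EP n, ∑ p ∈ relq n l δ η q, om n δ η w q (p.1 + p.2) *
      (2 * kap w q * (1 / 2) ^ p.1) * (2 * kap w q * (1 / 2) ^ p.2) ≤
      ∑ q ∈ EP n, (2 ^ 17 * n * psi n δ η (2 ^ Nat.log 2 q) *
        ((n : ℝ) - (Nat.log 2 q : ℕ) + 10 * l + 2) +
      (if (q : ℝ) < 2 / w then
        2 ^ 14 * n * (1 + 2 / w) ^ 3 * (δ / 2 ^ n + η) * ((n : ℝ) + 10 * l + 2) else 0)) := by
    refine Finset.sum_le_sum fun q hq => ?_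
    rw [EP, Finset.mem_Icc] at hq
    exact initSum_term w hw n l hn1 δ η hδ0 hη0 q hq.1 hq.2 _ fun j hj hjq =>
      init_sum_q n l hn1 δ η hδ0 hη0 w hw q j hj hjq
  refine hsum.trans ?_
  rw [Finset.sum_add_distrib]
  have hA : ∑ q ∈ EP n, 2 ^ 17 * n * psi n δ η (2 ^ Nat.log 2 q) *
      ((n : ℝ) - (Nat.log 2 q : ℕ) + 10 * l + 2) ≤
      2 ^ 17 * n * (δ * (20 * l + 6) + η * ((n : ℝ) + 1) * ((n : ℝ) + 10 * l + 2)) := by
    have h := initSum_blocks n l δ η hδ0 hη0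
    calc _ = 2 ^ 17 * n * ∑ q ∈ EP n, psi n δ η (2 ^ Nat.log 2 q) *
          ((n : ℝ) - (Nat.log 2 q : ℕ) + 10 * l + 2) := by
          rw [Finset.mul_sum]
          exact Finset.sum_congr rfl fun q _ => by ring
      _ ≤ _ := by gcongr
  have hB : ∑ q ∈ EP n, (if (q : ℝ) < 2 / w then
      2 ^ 14 * n * (1 + 2 / w) ^ 3 * (δ / 2 ^ n + η) * ((n : ℝ) + 10 * l + 2) else 0) ≤
      N0 * (2 ^ 14 * n * (1 + 2 / w) ^ 3 * (δ / 2 ^ n + η) * ((n : ℝ) + 10 * l + 2)) := by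
    rw [← Finset.sum_filter, Finset.sum_const, nsmul_eq_mul]
    have hcard : ((EP n).filter (fun q : ℕ => (q : ℝ) < 2 / w)).card ≤ N0 := by
      have hsub : (EP n).filter (fun q : ℕ => (q : ℝ) < 2 / w) ⊆ Finset.range N0 := by
        intro q hq
        rw [Finset.mem_range, hN0, Nat.lt_ceil]
        exact (Finset.mem_filter.mp hq).2
      simpa using Finset.card_le_card hsub
    have hcardR : (((EP n).filter (fun q : ℕ => (q : ℝ) < 2 / w)).card : ℝ) ≤ N0 := by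
      exact_mod_cast hcard
    gcongr
  have h13 : (n : ℝ) + 10 * l + 2 ≤ 13 * ((n : ℝ) + 1) := by linarith
  have hnN : (n : ℝ) ≤ (n : ℝ) + 1 := by linarith
  -- the part with the threshold
  have hA1 : 2 ^ 17 * n * (δ * (20 * l + 6)) ≤ 1 / 64 := by
    have h1 : (n : ℝ) * (δ * (20 * l + 6)) ≤ 26 * ((n : ℝ) * l * δ) := by
      have h2 : (n : ℝ) * δ * 6 ≤ (n : ℝ) * δ * 6 * l := by
        apply le_mul_of_one_le_right (by positivity) hlR
      nlinarith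
    rw [hnlδ] at h1
    calc 2 ^ 17 * n * (δ * (20 * l + 6)) = 2 ^ 17 * ((n : ℝ) * (δ * (20 * l + 6))) := by ring
      _ ≤ 2 ^ 17 * (26 * (1 / 2) ^ 42) := by gcongr
      _ ≤ 1 / 64 := by norm_num
  -- η-parts
  have hE : ∀ k : ℕ, k ≤ 4 → η * ((n : ℝ) + 1) ^ k ≤ 1 / ((n : ℝ) + 1) := by
    intro k hk
    rw [le_div_iff₀ hN, mul_assoc, ← pow_succ]
    refine le_trans ?_ hη1
    gcongr
    · linarith
    · omega
  have hA2 : 2 ^ 17 * n * (η * ((n : ℝ) + 1) * ((n : ℝ) + 10 * l + 2)) ≤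
      2 ^ 17 * 13 / ((n : ℝ) + 1) := by
    calc _ ≤ 2 ^ 17 * ((n : ℝ) + 1) * (η * ((n : ℝ) + 1) * (13 * ((n : ℝ) + 1))) := by gcongr
      _ = 2 ^ 17 * 13 * (η * ((n : ℝ) + 1) ^ 3) := by ring
      _ ≤ 2 ^ 17 * 13 * (1 / ((n : ℝ) + 1)) := by
          gcongr
          exact hE 3 (by norm_num)
      _ = _ := by ring
  have hB1 : (n : ℝ) * (δ / 2 ^ n + η) * ((n : ℝ) + 10 * l + 2) ≤ 26 / ((n : ℝ) + 1) := by
    have h1 : (n : ℝ) * δ ≤ 1 := by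
      have h2 : (n : ℝ) * δ ≤ (n : ℝ) * δ * l := le_mul_of_one_le_right (by positivity) hlR
      have h3 : (n : ℝ) * δ * l = (1 / 2 : ℝ) ^ 42 := by rw [← hnlδ]; ring
      rw [h3] at h2
      exact h2.trans (by norm_num)
    have hsq := initSum_sq_le n hn6
    have h4 : (n : ℝ) * (δ / 2 ^ n) * ((n : ℝ) + 10 * l + 2) ≤ 13 / ((n : ℝ) + 1) := by
      calc (n : ℝ) * (δ / 2 ^ n) * ((n : ℝ) + 10 * l + 2)
          = ((n : ℝ) * δ) * ((n : ℝ) + 10 * l + 2) / 2 ^ n := by ring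
        _ ≤ 1 * (13 * ((n : ℝ) + 1)) / ((n : ℝ) + 1) ^ 2 := by
            apply div_le_div₀ (by positivity) _ (by positivity) hsq
            gcongr
        _ = 13 / ((n : ℝ) + 1) := by
            field_simp
    have h5 : (n : ℝ) * η * ((n : ℝ) + 10 * l + 2) ≤ 13 / ((n : ℝ) + 1) := by
      calc (n : ℝ) * η * ((n : ℝ) + 10 * l + 2) ≤
          ((n : ℝ) + 1) * η * (13 * ((n : ℝ) + 1)) := by gcongr
        _ = 13 * (η * ((n : ℝ) + 1) ^ 2) := by ring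
        _ ≤ 13 * (1 / ((n : ℝ) + 1)) := by
            gcongr
            exact hE 2 (by norm_num)
        _ = _ := by ring
    calc (n : ℝ) * (δ / 2 ^ n + η) * ((n : ℝ) + 10 * l + 2)
        = (n : ℝ) * (δ / 2 ^ n) * ((n : ℝ) + 10 * l + 2) +
          (n : ℝ) * η * ((n : ℝ) + 10 * l + 2) := by ring
      _ ≤ 13 / ((n : ℝ) + 1) + 13 / ((n : ℝ) + 1) := add_le_add h4 h5
      _ = 26 / ((n : ℝ) + 1) := by ring
  have hB2 : (N0 : ℝ) * (2 ^ 14 * n * (1 + 2 / w) ^ 3 * (δ / 2 ^ n + η) *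
      ((n : ℝ) + 10 * l + 2)) ≤ N0 * 2 ^ 14 * (1 + 2 / w) ^ 3 * 26 / ((n : ℝ) + 1) := by
    calc _ = (N0 : ℝ) * 2 ^ 14 * (1 + 2 / w) ^ 3 *
          ((n : ℝ) * (δ / 2 ^ n + η) * ((n : ℝ) + 10 * l + 2)) := by ring
      _ ≤ (N0 : ℝ) * 2 ^ 14 * (1 + 2 / w) ^ 3 * (26 / ((n : ℝ) + 1)) := by gcongr
      _ = _ := by ring
  have hfin : C / ((n : ℝ) + 1) ≤ 1 / 32 := by
    rw [div_le_div_iff₀ hN (by norm_num)]
    linarith
  have hsplit : C / ((n : ℝ) + 1) = 2 ^ 17 * 13 / ((n : ℝ) + 1) +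
      N0 * 2 ^ 14 * (1 + 2 / w) ^ 3 * 26 / ((n : ℝ) + 1) := by
    rw [hC, add_div]
  have hAA : 2 ^ 17 * n * (δ * (20 * l + 6) + η * ((n : ℝ) + 1) * ((n : ℝ) + 10 * l + 2)) =
      2 ^ 17 * n * (δ * (20 * l + 6)) +
      2 ^ 17 * n * (η * ((n : ℝ) + 1) * ((n : ℝ) + 10 * l + 2)) := by ring
  refine (add_le_add hA hB).trans ?_
  rw [hAA]
  refine (add_le_add (add_le_add hA1 hA2) hB2).trans ?_
  rw [add_assoc, ← hsplit]
  linarith

end Pool.A6405.LL
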