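import Pool.Agent.H.MP_a6405b_nt.helper54.InitDefs

set_option autoImplicit false

namespace Pool.A6405.LL

theorem InitSumQ_geom (S : Finset ℕ) (T : ℝ) (hT : 0 ≤ T) (h : ∀ B ∈ S, (1 / 2 : ℝ) ^ B ≤ T) :
    ∑ B ∈ S, (1 / 2 : ℝ) ^ B ≤ 2 * T := by
  rcases S.eq_empty_or_nonempty with rfl | hS
  · simp only [Finset.sum_empty]
    linarith
  obtain ⟨B0, hB0, hmin⟩ := S.exists_min_image id hS
  obtain ⟨N, hN⟩ : ∃ N, ∀ B ∈ S, B < B0 + N := by
    obtain ⟨N, hN⟩ := S.bddAbove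
    exact ⟨N + 1, fun B hB => by
      have := hN hB
      omega⟩
  have hsub : S ⊆ (Finset.range N).image fun k => B0 + k := by
    intro B hB
    rw [Finset.mem_image]
    have h1 := hmin B hB
    have h2 := hN B hB
    simp only [id] at h1
    exact ⟨B - B0, Finset.mem_range.2 (by omega), by omega⟩
  refine (Finset.sum_le_sum_of_subset_of_nonneg hsub fun B _ _ => by positivity).trans ?_
  rw [Finset.sum_image fun a _ b _ hab => Nat.add_left_cancel hab]
  have h1 : ∑ k ∈ Finset.range N, (1 / 2 : ℝ) ^ (B0 + k) =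
      (1 / 2) ^ B0 * ∑ k ∈ Finset.range N, (1 / 2 : ℝ) ^ k := by
    rw [Finset.mul_sum]
    exact Finset.sum_congr rfl fun k _ => pow_add _ _ _
  have h2 : ∑ k ∈ Finset.range N, (1 / 2 : ℝ) ^ k ≤ 2 := by
    rw [geom_sum_eq (by norm_num)]
    have h3 : (0 : ℝ) ≤ (1 / 2) ^ N := by positivity
    have h4 : ((1 / 2 : ℝ) ^ N - 1) / (1 / 2 - 1) = 2 * (1 - (1 / 2) ^ N) := by ring
    rw [h4]
    linarith
  rw [h1]
  calc (1 / 2 : ℝ) ^ B0 * ∑ k ∈ Finset.range N, (1 / 2 : ℝ) ^ k ≤ T * 2 :=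
        mul_le_mul (h B0 hB0) h2 (Finset.sum_nonneg fun k _ => by positivity) hT
    _ = 2 * T := mul_comm _ _

theorem InitSumQ_card (S : Finset ℕ) (T : ℝ) (hT : 0 < T) (m : ℕ)
    (h : ∀ B ∈ S, T ≤ (1 / 2 : ℝ) ^ B ∧ (1 / 2 : ℝ) ^ B < 2 ^ m * T) : S.card ≤ m := by
  rcases S.eq_empty_or_nonempty with rfl | hS
  · simp
  obtain ⟨B0, hB0, hmin⟩ := S.exists_min_image id hS
  have hsub : S ⊆ Finset.Ico B0 (B0 + m) := by
    intro B hB
    have h1 := hmin B hB
    simp only [id] at h1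
    rw [Finset.mem_Ico]
    refine ⟨h1, ?_⟩
    by_contra hc
    push Not at hc
    obtain ⟨k, rfl⟩ := Nat.exists_eq_add_of_le hc
    have h2 := (h _ hB).1
    have h3 := (h _ hB0).2
    have h4 : (1 / 2 : ℝ) ^ (B0 + m + k) ≤ (1 / 2) ^ B0 * (1 / 2) ^ m := by
      rw [pow_add, pow_add]
      exact mul_le_of_le_one_right (by positivity) (pow_le_one₀ (by norm_num) (by norm_num))
    have h5 : (1 / 2 : ℝ) ^ B0 * (1 / 2) ^ m < 2 ^ m * T * (1 / 2) ^ m :=
      mul_lt_mul_of_pos_right h3 (by positivity)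
    have h6 : (2 : ℝ) ^ m * T * (1 / 2) ^ m = T := by
      rw [one_div, inv_pow]
      field_simp
    linarith
  refine (Finset.card_le_card hsub).trans ?_
  simp

theorem InitSumQ_min (S : Finset ℕ) (T : ℝ) (hT : 0 < T) (m : ℕ)
    (h : ∀ B ∈ S, (1 / 2 : ℝ) ^ B < 2 ^ m * T) :
    ∑ B ∈ S, min ((1 / 2 : ℝ) ^ B) T ≤ T * (m + 2) := by
  classical
  rw [← Finset.sum_filter_add_sum_filter_not S fun B => T ≤ (1 / 2 : ℝ) ^ B]
  have h1 : ∑ B ∈ S.filter (fun B => T ≤ (1 / 2 : ℝ) ^ B), min ((1 / 2 : ℝ) ^ B) T ≤ m * T := by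
    refine (Finset.sum_le_sum fun B _ => min_le_right _ _).trans ?_
    rw [Finset.sum_const, nsmul_eq_mul]
    refine mul_le_mul_of_nonneg_right ?_ hT.le
    have := InitSumQ_card (S.filter fun B => T ≤ (1 / 2 : ℝ) ^ B) T hT m fun B hB =>
      ⟨(Finset.mem_filter.1 hB).2, h B (Finset.mem_filter.1 hB).1⟩
    exact_mod_cast this
  have h2 : ∑ B ∈ S.filter (fun B => ¬ T ≤ (1 / 2 : ℝ) ^ B), min ((1 / 2 : ℝ) ^ B) T ≤ 2 * T := by
    refine (Finset.sum_le_sum fun B _ => min_le_left _ _).trans ?_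
    exact InitSumQ_geom _ T hT.le fun B hB => (not_le.1 (Finset.mem_filter.1 hB).2).le
  linarith

/- PROOF (section 5, end). Each term is 4 κ^2 min(2^-B, 2^11 κ ψ). For each B at most 2n pairs. The B with 2^-B ≥ 2^11 κ ψ (so 2^-B ≥ 2^11 ψ) and
2^-B < 4 ψ 2^(n+4+10l)/q ≤ ψ 2^(n+6+10l-j) are at most n - j + 10 l in number, each contributes 2^11 κ ψ; the others give at most
2 * 2^11 κ ψ (geometric series). -/
theorem init_sum_q (n l : ℕ) (hn : 1 ≤ n) (δ η : ℝ) (hδ : 0 < δ) (hη : 0 < η) (w : ℝ) (hw : 0 < w)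
    (q j : ℕ) (hj : j ≤ n) (hq : 2 ^ j ≤ q) :
    ∑ p ∈ relq n l δ η q, om n δ η w q (p.1 + p.2) * (2 * kap w q * (1 / 2) ^ p.1) * (2 * kap w q * (1 / 2) ^ p.2) ≤
      2 ^ 14 * n * kap w q ^ 3 * psi n δ η q * ((n : ℝ) - j + 10 * l + 2) := by
  classical
  have hq0 : 0 < q := lt_of_lt_of_le (by positivity) hq
  have hqr : (0 : ℝ) < q := by exact_mod_cast hq0
  have hκ : 1 ≤ kap w q := by
    unfold kap
    have : 0 ≤ 2 / ((q : ℝ) * w) := by positivity
    linarith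
  have hψ : 0 < psi n δ η q := lt_of_lt_of_le (by positivity : 0 < δ / 2 ^ n) (le_max_left _ _)
  set κ := kap w q with hκd
  set ψ := psi n δ η q with hψd
  set T : ℝ := 2 ^ 11 * κ * ψ with hTd
  have hκ0 : 0 < κ := lt_of_lt_of_le one_pos hκ
  have hT : 0 < T := by positivity
  set f : ℕ → ℝ := fun B => 4 * κ ^ 2 * min ((1 / 2 : ℝ) ^ B) T with hf
  have hf0 : ∀ B, 0 ≤ f B := fun B => by
    have : 0 ≤ min ((1 / 2 : ℝ) ^ B) T := le_min (by positivity) hT.le
    positivity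
  have hterm : ∀ p ∈ relq n l δ η q,
      om n δ η w q (p.1 + p.2) * (2 * κ * (1 / 2) ^ p.1) * (2 * κ * (1 / 2) ^ p.2) =
        f (p.1 + p.2) := by
    intro p _
    have h1 : (1 / 2 : ℝ) ^ (p.1 + p.2) * 2 ^ (p.1 + p.2) = 1 := by
      rw [← mul_pow]
      norm_num
    have h2 : min ((1 / 2 : ℝ) ^ (p.1 + p.2)) T =
        (1 / 2 : ℝ) ^ (p.1 + p.2) * min 1 (T * 2 ^ (p.1 + p.2)) := by
      rw [mul_min_of_nonneg _ _ (by positivity), mul_one]
      congr 1
      rw [mul_comm T, ← mul_assoc, h1, one_mul]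
    simp only [hf]
    rw [h2, pow_add]
    unfold om
    rw [← hκd, ← hψd, ← hTd, pow_add]
    ring
  rw [Finset.sum_congr rfl hterm, Finset.sum_comp f fun p : ℕ × ℕ => p.1 + p.2]
  have hcard : ∀ B, ((relq n l δ η q).filter fun p => p.1 + p.2 = B).card ≤ 2 * n := by
    intro B
    have h1 : ((relq n l δ η q).filter fun p => p.1 + p.2 = B).card ≤
        (Finset.Icc 1 (2 * n)).card := by
      refine Finset.card_le_card_of_injOn (fun p => p.1) ?_ ?_
      · intro p hp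
        have h2 := (Finset.mem_filter.1 hp).1
        unfold relq at h2
        exact (Finset.mem_product.1 (Finset.mem_filter.1 h2).1).1
      · intro p hp p' hp' hpp
        have h2 := (Finset.mem_filter.1 hp).2
        have h3 := (Finset.mem_filter.1 hp').2
        simp only at hpp
        exact Prod.ext hpp (by omega)
    simpa using h1
  refine (Finset.sum_le_sum (g := fun B => (2 * (n : ℝ)) * f B) fun B _ => ?_).trans ?_
  · rw [nsmul_eq_mul]
    refine mul_le_mul_of_nonneg_right ?_ (hf0 B)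
    exact_mod_cast hcard B
  rw [← Finset.mul_sum]
  have hS : ∀ B ∈ (relq n l δ η q).image fun p => p.1 + p.2,
      (1 / 2 : ℝ) ^ B < 2 ^ (n - j + 10 * l) * T := by
    intro B hB
    obtain ⟨p, hp, rfl⟩ := Finset.mem_image.1 hB
    unfold relq at hp
    refine lt_of_lt_of_le (Finset.mem_filter.1 hp).2 ?_
    rw [div_le_iff₀ hqr, ← hψd]
    have h1 : (2 : ℝ) ^ j ≤ q := by exact_mod_cast hq
    have h2 : (2 : ℝ) ^ (n - j + 10 * l) * 2 ^ j = 2 ^ n * 2 ^ (10 * l) := by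
      rw [← pow_add, ← pow_add]
      congr 1
      omega
    calc 4 * ψ * (2 ^ (n + 4) * 2 ^ (10 * l)) = 2 ^ 6 * ψ * (2 ^ n * 2 ^ (10 * l)) := by
          rw [pow_add]
          ring
      _ = 2 ^ 6 * ψ * (2 ^ (n - j + 10 * l) * 2 ^ j) := by rw [h2]
      _ ≤ T * (2 ^ (n - j + 10 * l) * q) := by
          refine mul_le_mul ?_ (mul_le_mul_of_nonneg_left h1 (by positivity)) (by positivity) hT.le
          rw [hTd]
          refine mul_le_mul_of_nonneg_right ?_ hψ.le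
          nlinarith
      _ = _ := by ring
  have hmain := InitSumQ_min _ T hT (n - j + 10 * l) hS
  have h3 : ((n - j + 10 * l : ℕ) : ℝ) = (n : ℝ) - j + 10 * l := by
    push_cast [Nat.cast_sub hj]
    ring
  rw [h3] at hmain
  simp only [hf]
  rw [← Finset.mul_sum]
  calc 2 * (n : ℝ) * (4 * κ ^ 2 * ∑ B ∈ (relq n l δ η q).image fun p => p.1 + p.2,
          min ((1 / 2 : ℝ) ^ B) T)
      ≤ 2 * (n : ℝ) * (4 * κ ^ 2 * (T * ((n : ℝ) - j + 10 * l + 2))) := by
        refine mul_le_mul_of_nonneg_left (mul_le_mul_of_nonneg_left hmain (by positivity))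
          (by positivity)
    _ = _ := by
        rw [hTd]
        ring

end Pool.A6405.LL
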