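import Pool.Agent.H.MP_a6405b_nt.helper54.KeyDClass

set_option autoImplicit false

namespace Pool.A6405.LL

theorem KeyD_hb (k : ℤ) : hb k = ((max 1 k.natAbs : ℕ) : ℝ) := by
  unfold hb
  push_cast
  rw [Nat.cast_natAbs, Int.cast_abs]

theorem KeyD_log (k : ℤ) : (2 : ℝ) ^ (Nat.log 2 (max 1 k.natAbs)) ≤ hb k ∧
    hb k < 2 ^ (Nat.log 2 (max 1 k.natAbs) + 1) := by
  rw [KeyD_hb]
  have h0 : max 1 k.natAbs ≠ 0 := by
    have := le_max_left 1 k.natAbs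
    omega
  refine ⟨?_, ?_⟩
  · have := Nat.pow_log_le_self 2 h0
    exact_mod_cast this
  · have := Nat.lt_pow_succ_log_self (b := 2) (by norm_num) (max 1 k.natAbs)
    exact_mod_cast this

theorem KeyD_log_le (n : ℕ) (k : ℤ) (h : hb k ≤ 2 ^ n) : Nat.log 2 (max 1 k.natAbs) ≤ n := by
  have h1 := (KeyD_log k).1.trans h
  exact (pow_le_pow_iff_right₀ (by norm_num : (1 : ℝ) < 2)).1 h1

/- PROOF (section 3, KD, end). Group by (i1,i2,i3) in [0,n]^3 (hb a ≤ 2^n): (n+1)^3 classes; 8957952 (n+1)^3 η ≤ 8957952 * 2^(3l-5l) ≤ 1/640 for l ≥ 20. -/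
open Classical in
theorem keyD (n l : ℕ) (hl : 20 ≤ l) (hnl : n + 1 ≤ 2 ^ l) (δ : ℝ) (hδ : 0 < δ)
    (ξ₁ ξ₂ x lam : ℝ) (hlam : 0 < lam) (hlam' : lam ≤ 1 / 2 ^ (n + 4))
    (hB1 : B1 n ξ₁ ξ₂)
    (hav : AvP n δ ((1 / 2 : ℝ) ^ (5 * l)) ξ₁ ξ₂ x lam) :
    ∑ a ∈ (ED n).filter (fun a => lam / (2 ^ (10 * l)) ^ 2 ≤ rD ((1 / 2 : ℝ) ^ (5 * l)) a ∧
        rD ((1 / 2 : ℝ) ^ (5 * l)) a < lam / 2 ^ (10 * l) ∧
        nn (a.2.2 * x + (a.1 * ξ₁ + a.2.1 * ξ₂)) ≤ 2 * a.2.2 * lam),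
      rD ((1 / 2 : ℝ) ^ (5 * l)) a ≤ lam / 640 := by
  set S := (ED n).filter (fun a => lam / (2 ^ (10 * l)) ^ 2 ≤ rD ((1 / 2 : ℝ) ^ (5 * l)) a ∧
        rD ((1 / 2 : ℝ) ^ (5 * l)) a < lam / 2 ^ (10 * l) ∧
        nn (a.2.2 * x + (a.1 * ξ₁ + a.2.1 * ξ₂)) ≤ 2 * a.2.2 * lam) with hSdef
  set c : ℤ × ℤ × ℕ → ℕ × ℕ × ℕ := fun a => (Nat.log 2 (max 1 a.1.natAbs),
    Nat.log 2 (max 1 a.2.1.natAbs), Nat.log 2 a.2.2) with hc
  have hED : ∀ a ∈ ED n, 1 ≤ a.2.2 ∧ hb a.1 * hb a.2.1 * (a.2.2 : ℝ) ≤ 2 ^ n := by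
    intro a ha
    unfold ED at ha
    rw [Finset.mem_filter, Finset.mem_product, Finset.mem_product] at ha
    exact ⟨(Finset.mem_Icc.1 ha.1.2.2).1, ha.2⟩
  have hmap : ∀ a ∈ S, c a ∈ Finset.range (n + 1) ×ˢ (Finset.range (n + 1) ×ˢ
      Finset.range (n + 1)) := by
    intro a ha
    obtain ⟨h1, h2⟩ := hED a (Finset.mem_filter.1 ha).1
    have h3 : (1 : ℝ) ≤ a.2.2 := by exact_mod_cast h1
    have h4 := one_le_hb a.1
    have h5 := one_le_hb a.2.1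
    have h6 : hb a.1 ≤ 2 ^ n := by
      refine le_trans ?_ h2
      calc hb a.1 = hb a.1 * 1 * 1 := by ring
        _ ≤ _ := by gcongr
    have h7 : hb a.2.1 ≤ 2 ^ n := by
      refine le_trans ?_ h2
      calc hb a.2.1 = 1 * hb a.2.1 * 1 := by ring
        _ ≤ _ := by gcongr
    have h8 : (a.2.2 : ℝ) ≤ 2 ^ n := by
      refine le_trans ?_ h2
      calc (a.2.2 : ℝ) = 1 * 1 * a.2.2 := by ring
        _ ≤ _ := by gcongr
    have h9 : a.2.2 ≤ 2 ^ n := by exact_mod_cast h8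
    have h10 : Nat.log 2 a.2.2 ≤ n := by
      refine (Nat.log_mono_right h9).trans ?_
      rw [Nat.log_pow (by norm_num)]
    rw [Finset.mem_product, Finset.mem_product, Finset.mem_range, Finset.mem_range,
      Finset.mem_range]
    exact ⟨Nat.lt_succ_of_le (KeyD_log_le n _ h6), Nat.lt_succ_of_le (KeyD_log_le n _ h7),
      Nat.lt_succ_of_le h10⟩
  rw [← Finset.sum_fiberwise_of_maps_to hmap]
  have hclass : ∀ i ∈ Finset.range (n + 1) ×ˢ (Finset.range (n + 1) ×ˢ Finset.range (n + 1)),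
      ∑ a ∈ S.filter (fun a => c a = i), rD ((1 / 2 : ℝ) ^ (5 * l)) a ≤
        8957952 * (1 / 2 : ℝ) ^ (5 * l) * lam := by
    intro i _
    refine keyD_class n l hl hnl δ hδ ξ₁ ξ₂ x lam hlam hlam' hB1 hav i.1 i.2.1 i.2.2 _ ?_
    intro a ha
    obtain ⟨h1, h2⟩ := Finset.mem_filter.1 ha
    obtain ⟨h3, h4, h5, h6⟩ := Finset.mem_filter.1 h1
    rw [← h2]
    have h7 : a.2.2 ≠ 0 := by
      have := (hED a h3).1
      omega
    exact ⟨h3, (KeyD_log a.1).1, (KeyD_log a.1).2, (KeyD_log a.2.1).1, (KeyD_log a.2.1).2,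
      Nat.pow_log_le_self 2 h7, Nat.lt_pow_succ_log_self (by norm_num) _, h5, h6⟩
  refine (Finset.sum_le_sum hclass).trans ?_
  rw [Finset.sum_const, Finset.card_product, Finset.card_product, Finset.card_range,
    nsmul_eq_mul]
  have h1 : (((n + 1) * ((n + 1) * (n + 1)) : ℕ) : ℝ) ≤ 2 ^ (3 * l) := by
    have h2 : (n + 1) * ((n + 1) * (n + 1)) ≤ 2 ^ (3 * l) := by
      calc (n + 1) * ((n + 1) * (n + 1)) ≤ 2 ^ l * (2 ^ l * 2 ^ l) :=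
            Nat.mul_le_mul hnl (Nat.mul_le_mul hnl hnl)
        _ = 2 ^ (3 * l) := by
            rw [← pow_add, ← pow_add]
            congr 1
            omega
    exact_mod_cast h2
  have h3 : (2 : ℝ) ^ (3 * l) * (1 / 2) ^ (5 * l) ≤ (1 / 2) ^ 40 := by
    have h4 : (1 / 2 : ℝ) ^ (5 * l) = (1 / 2) ^ (3 * l) * (1 / 2) ^ (2 * l) := by
      rw [← pow_add]
      congr 1
      omega
    have h5 : (2 : ℝ) ^ (3 * l) * (1 / 2) ^ (3 * l) = 1 := by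
      rw [← mul_pow]
      norm_num
    rw [h4, ← mul_assoc, h5, one_mul]
    exact pow_le_pow_of_le_one (by norm_num) (by norm_num) (by omega)
  calc (((n + 1) * ((n + 1) * (n + 1)) : ℕ) : ℝ) * (8957952 * (1 / 2 : ℝ) ^ (5 * l) * lam)
      ≤ 2 ^ (3 * l) * (8957952 * (1 / 2 : ℝ) ^ (5 * l) * lam) :=
        mul_le_mul_of_nonneg_right h1 (by positivity)
    _ = 8957952 * (2 ^ (3 * l) * (1 / 2) ^ (5 * l)) * lam := by ring
    _ ≤ 8957952 * (1 / 2) ^ 40 * lam := by gcongr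
    _ ≤ 1 / 640 * lam := mul_le_mul_of_nonneg_right (by norm_num) hlam.le
    _ = lam / 640 := by ring

end Pool.A6405.LL
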