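import Pool.Agent.H.MP_a6405b_nt.helper54.Basic

set_option autoImplicit false

namespace Pool.A6405.LL

/- PROOF (section 3, KD, sep). Suppose all three are smaller. q ≤ 1/(24 u3 lam) = u1u2u3/(24 u1u2u3^2 lam) ≤ 8*2^n*η/24 ≤ 2^n (η = (1/2)^(5l)), so q is in EP n;
0 < yy q < 1/(u1u2) (B1); rP q ≥ η/(q^2 yy) ≥ η (24 u3 lam)^2 u1 u2 = 576 η lam (u1u2u3^2 lam) ≥ 576 lam; AvP gives
nn(q x) ≥ tauP q ≥ η/(q yy) ≥ η 24 u3 lam u1 u2 = 24 η (u1u2u3^2 lam)/u3 ≥ 24/u3, contradiction. -/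
theorem keyD_sep (n l : ℕ) (hl : 20 ≤ l) (hnl : n + 1 ≤ 2 ^ l) (δ : ℝ) (hδ : 0 < δ)
    (ξ₁ ξ₂ x lam : ℝ) (hlam : 0 < lam) (hlam' : lam ≤ 1 / 2 ^ (n + 4)) (hB1 : B1 n ξ₁ ξ₂)
    (hav : AvP n δ ((1 / 2 : ℝ) ^ (5 * l)) ξ₁ ξ₂ x lam)
    (u₁ u₂ u₃ : ℝ) (hu₁ : 1 ≤ u₁) (hu₂ : 1 ≤ u₂) (hu₃ : 1 ≤ u₃) (hprod : u₁ * u₂ * u₃ ≤ 8 * 2 ^ n)
    (hvol : (2 : ℝ) ^ (5 * l) < u₁ * u₂ * u₃ ^ 2 * lam) (q : ℕ) (hq : 1 ≤ q) (hq' : (q : ℝ) * (24 * u₃ * lam) ≤ 1) :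
    1 / u₁ ≤ nn (q * ξ₁) ∨ 1 / u₂ ≤ nn (q * ξ₂) ∨ 1 / u₃ ≤ nn (q * x) := by
  by_contra hcon
  rw [not_or, not_or, not_le, not_le, not_le] at hcon
  obtain ⟨h1, h2, h3⟩ := hcon
  have hq0 : (1 : ℝ) ≤ q := by exact_mod_cast hq
  have hqp : (0 : ℝ) < q := by linarith
  have u1p : 0 < u₁ := by linarith
  have u2p : 0 < u₂ := by linarith
  have u3p : 0 < u₃ := by linarith
  obtain ⟨η, hη⟩ : ∃ y : ℝ, y = (1 / 2 : ℝ) ^ (5 * l) := ⟨_, rfl⟩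
  have hηH : η * 2 ^ (5 * l) = 1 := by
    rw [hη, ← mul_pow]
    norm_num
  have hη0 : 0 < η := by rw [hη]; positivity
  have hη1 : η ≤ 1 := by rw [hη]; exact pow_le_one₀ (by norm_num) (by norm_num)
  rw [← hη] at hav
  obtain ⟨P, hP⟩ : ∃ y : ℝ, y = u₁ * u₂ * u₃ ^ 2 * lam := ⟨_, rfl⟩
  rw [← hP] at hvol
  have hP0 : 0 < P := by rw [hP]; positivity
  have hηP : 1 < η * P := by
    rw [← hηH]
    exact mul_lt_mul_of_pos_left hvol hη0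
  have hqn : (q : ℝ) ≤ 2 ^ n := by
    have e1 : (q : ℝ) * (η * P) = (q * (24 * u₃ * lam)) * (u₁ * u₂ * u₃) * η / 24 := by rw [hP]; ring
    have e2 : (q : ℝ) ≤ q * (η * P) := le_mul_of_one_le_right hqp.le hηP.le
    have e3 : (q * (24 * u₃ * lam)) * (u₁ * u₂ * u₃) ≤ 1 * (8 * 2 ^ n) :=
      mul_le_mul hq' hprod (by positivity) (by norm_num)
    have e4 : (q * (24 * u₃ * lam)) * (u₁ * u₂ * u₃) * η ≤ (1 * (8 * 2 ^ n)) * 1 :=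
      mul_le_mul e3 hη1 hη0.le (by positivity)
    have e5 : (0 : ℝ) < 2 ^ n := by positivity
    rw [e1] at e2
    linarith
  have hqnN : q ≤ 2 ^ n := by exact_mod_cast hqn
  obtain ⟨hB, hB'⟩ := hB1 q hq hqnN
  have hpos : (0 : ℝ) < 1 / 2 ^ (2 * n) := by positivity
  have a0 : 0 < nn (q * ξ₁) := lt_of_lt_of_le hpos hB
  have b0 : 0 < nn (q * ξ₂) := lt_of_lt_of_le hpos hB'
  have a1 : nn (q * ξ₁) * u₁ < 1 := (lt_div_iff₀ u1p).mp h1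
  have b1 : nn (q * ξ₂) * u₂ < 1 := (lt_div_iff₀ u2p).mp h2
  obtain ⟨y, hy⟩ : ∃ y : ℝ, y = yy ξ₁ ξ₂ q := ⟨_, rfl⟩
  have hy0 : 0 < y := by rw [hy]; exact mul_pos a0 b0
  have hyu : y * (u₁ * u₂) ≤ 1 := by
    have e1 : y * (u₁ * u₂) = (nn (q * ξ₁) * u₁) * (nn (q * ξ₂) * u₂) := by
      rw [hy]
      unfold yy
      ring
    rw [e1]
    exact mul_le_one₀ a1.le (mul_nonneg b0.le u2p.le) b1.le
  have hpsi : η / q ≤ psi n δ η q := le_max_right _ _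
  -- the event is at least as long as `lam`
  have hlen : lam ≤ rP n δ η ξ₁ ξ₂ q := by
    unfold rP
    rw [← hy, le_div_iff₀ (mul_pos hqp hy0)]
    refine le_trans ?_ hpsi
    rw [le_div_iff₀ hqp]
    -- lam q (q y) * (576 P) ≤ 1 ≤ η P
    have e1 : lam * (q * y) * q * (576 * P) = (q * (24 * u₃ * lam)) ^ 2 * (y * (u₁ * u₂)) := by
      rw [hP]; ring
    have e2 : (q * (24 * u₃ * lam)) ^ 2 ≤ 1 := pow_le_one₀ (by positivity) hq'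
    have e3 : (q * (24 * u₃ * lam)) ^ 2 * (y * (u₁ * u₂)) ≤ 1 :=
      mul_le_one₀ e2 (by positivity) hyu
    rw [← e1] at e3
    have e4 : lam * (q * y) * q * P ≤ η * P := by
      have e5 : 0 ≤ lam * (q * y) * q * P := by positivity
      linarith
    exact le_of_mul_le_mul_right e4 hP0
  have hmem : q ∈ EP n := by
    unfold EP
    rw [Finset.mem_Icc]
    exact ⟨hq, hqnN⟩
  have hav' := hav q hmem hlen
  unfold tauP at hav'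
  rw [← hy, div_le_iff₀ hy0] at hav'
  -- η/q ≤ psi ≤ nn (q x) y < y / u3
  have h4 : η / q < 1 / u₃ * y := lt_of_le_of_lt (hpsi.trans hav') (mul_lt_mul_of_pos_right h3 hy0)
  have h5 : η * u₃ < q * y := by
    rw [div_lt_iff₀ hqp] at h4
    have e1 : η * u₃ < 1 / u₃ * y * q * u₃ := mul_lt_mul_of_pos_right h4 u3p
    have e2 : 1 / u₃ * y * q * u₃ = q * y := by field_simp
    rwa [e2] at e1
  have h6 : q * y * (24 * P) ≤ u₃ := by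
    have e1 : q * y * (24 * P) = (q * (24 * u₃ * lam)) * (y * (u₁ * u₂)) * u₃ := by rw [hP]; ring
    rw [e1]
    have e2 : (q * (24 * u₃ * lam)) * (y * (u₁ * u₂)) ≤ 1 := mul_le_one₀ hq' (by positivity) hyu
    have e3 := mul_le_mul_of_nonneg_right e2 u3p.le
    rwa [one_mul] at e3
  have h7 : η * u₃ * (24 * P) < q * y * (24 * P) := mul_lt_mul_of_pos_right h5 (by positivity)
  have h8 : u₃ ≤ u₃ * (η * P) := le_mul_of_one_le_right u3p.le hηP.le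
  have h9 : η * u₃ * (24 * P) = 24 * (u₃ * (η * P)) := by ring
  rw [h9] at h7
  linarith

end Pool.A6405.LL
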