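import Pool.Agent.H.MP_a6405b_nt.helper54.Box2
import Pool.Agent.H.MP_a6405b_nt.helper54.KeyDSep

set_option autoImplicit false

namespace Pool.A6405.LL

/- PROOF (section 3, KD, claim). m0 = 2 u3 lam, box_lemma_three with P = range (floor(1/(12 m0)) + 1), θ_q = (q ξ1, q ξ2, q x). near: nn(q (a.ξ)) ≤ q m0 ≤ 1/12.
sep: keyD_sep for |q - q'|. |P| ≥ 1/(12 m0) and 23328 * 12 = 279936. -/
theorem keyD_card (n l : ℕ) (hl : 20 ≤ l) (hnl : n + 1 ≤ 2 ^ l) (δ : ℝ) (hδ : 0 < δ)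
    (ξ₁ ξ₂ x lam : ℝ) (hlam : 0 < lam) (hlam' : lam ≤ 1 / 2 ^ (n + 4)) (hB1 : B1 n ξ₁ ξ₂)
    (hav : AvP n δ ((1 / 2 : ℝ) ^ (5 * l)) ξ₁ ξ₂ x lam)
    (u₁ u₂ u₃ : ℕ) (hu₁ : 1 ≤ u₁) (hu₂ : 1 ≤ u₂) (hu₃ : 1 ≤ u₃) (hprod : (u₁ : ℝ) * u₂ * u₃ ≤ 8 * 2 ^ n)
    (hvol : (2 : ℝ) ^ (5 * l) < u₁ * u₂ * u₃ ^ 2 * lam)
    (S : Finset (ℤ × ℤ × ℕ))
    (hS : ∀ a ∈ S, |(a.1 : ℝ)| ≤ u₁ ∧ |(a.2.1 : ℝ)| ≤ u₂ ∧ (a.2.2 : ℝ) ≤ u₃ ∧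
      nn (a.2.2 * x + (a.1 * ξ₁ + a.2.1 * ξ₂)) ≤ 2 * u₃ * lam) :
    (S.card : ℝ) ≤ 279936 * ((u₁ : ℝ) * u₂ * u₃ * (2 * u₃ * lam)) := by
  have hu₁' : (1 : ℝ) ≤ u₁ := by exact_mod_cast hu₁
  have hu₂' : (1 : ℝ) ≤ u₂ := by exact_mod_cast hu₂
  have hu₃' : (1 : ℝ) ≤ u₃ := by exact_mod_cast hu₃
  have hm : (0 : ℝ) < 24 * u₃ * lam := by positivity
  set k : ℕ := ⌊1 / (24 * (u₃ : ℝ) * lam)⌋₊ with hk
  have hk1 : (k : ℝ) * (24 * u₃ * lam) ≤ 1 := by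
    have h := Nat.floor_le (show (0 : ℝ) ≤ 1 / (24 * (u₃ : ℝ) * lam) by positivity)
    rw [← hk] at h
    rwa [le_div_iff₀ hm] at h
  have hk2 : 1 ≤ ((k : ℝ) + 1) * (24 * u₃ * lam) := by
    have h := (Nat.lt_floor_add_one (1 / (24 * (u₃ : ℝ) * lam))).le
    rw [← hk] at h
    rwa [div_le_iff₀ hm] at h
  -- separation for natural numbers p < p'
  have key : ∀ p p' : ℕ, p < p' → p' ≤ k →
      1 / (u₁ : ℝ) ≤ nn (p' * ξ₁ - p * ξ₁) ∨ 1 / (u₂ : ℝ) ≤ nn (p' * ξ₂ - p * ξ₂) ∨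
        1 / (u₃ : ℝ) ≤ nn (p' * x - p * x) := by
    intro p p' hpp hpk
    have hd1 : 1 ≤ p' - p := by omega
    have hd2 : (((p' - p : ℕ)) : ℝ) * (24 * u₃ * lam) ≤ 1 := by
      refine le_trans (mul_le_mul_of_nonneg_right ?_ hm.le) hk1
      exact_mod_cast (show p' - p ≤ k by omega)
    have h := keyD_sep n l hl hnl δ hδ ξ₁ ξ₂ x lam hlam hlam' hB1 hav u₁ u₂ u₃ hu₁' hu₂' hu₃'
      hprod hvol (p' - p) hd1 hd2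
    rw [Nat.cast_sub hpp.le, sub_mul, sub_mul, sub_mul] at h
    exact h
  have hsym : ∀ a b : ℝ, nn (a - b) = nn (b - a) := by
    intro a b
    rw [← nn_neg, neg_sub]
  have hbox := box_lemma_three u₁ u₂ u₃ hu₁ hu₂ hu₃ S
    (fun a ha => ⟨(hS a ha).1, (hS a ha).2.1, (hS a ha).2.2.1⟩) (Finset.range (k + 1))
    (fun q : ℕ => ((q : ℝ) * ξ₁, (q : ℝ) * ξ₂, (q : ℝ) * x)) (by
      intro p hp p' hp' hne
      have hp := Finset.mem_range.1 hp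
      have hp' := Finset.mem_range.1 hp'
      rcases lt_or_gt_of_ne hne with h | h
      · have h3 := key p p' h (by omega)
        rw [hsym, hsym (_ * ξ₂), hsym (_ * x)] at h3
        exact h3
      · exact key p' p h (by omega)) (by
      intro a ha q hq
      have hq := Finset.mem_range.1 hq
      have e1 : (a.1 : ℝ) * ((q : ℝ) * ξ₁) + (a.2.1 : ℝ) * ((q : ℝ) * ξ₂) +
          (a.2.2 : ℝ) * ((q : ℝ) * x) = (q : ℝ) * (a.2.2 * x + (a.1 * ξ₁ + a.2.1 * ξ₂)) := by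
        ring
      show nn ((a.1 : ℝ) * ((q : ℝ) * ξ₁) + (a.2.1 : ℝ) * ((q : ℝ) * ξ₂) +
          (a.2.2 : ℝ) * ((q : ℝ) * x)) ≤ 1 / 12
      rw [e1]
      have h4 := (hS a ha).2.2.2
      have h5 : (q : ℝ) ≤ k := by exact_mod_cast (show q ≤ k by omega)
      calc nn ((q : ℝ) * (a.2.2 * x + (a.1 * ξ₁ + a.2.1 * ξ₂))) ≤
          q * nn (a.2.2 * x + (a.1 * ξ₁ + a.2.1 * ξ₂)) := nn_nat_mul _ _
        _ ≤ k * (2 * u₃ * lam) := mul_le_mul h5 h4 (nn_nonneg _) (Nat.cast_nonneg k)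
        _ ≤ 1 / 12 := by linarith)
  rw [Finset.card_range] at hbox
  push_cast at hbox
  have hS0 : (0 : ℝ) ≤ S.card := Nat.cast_nonneg _
  calc (S.card : ℝ) = S.card * 1 := (mul_one _).symm
    _ ≤ S.card * (((k : ℝ) + 1) * (24 * u₃ * lam)) := mul_le_mul_of_nonneg_left hk2 hS0
    _ = (S.card * ((k : ℝ) + 1)) * (24 * u₃ * lam) := by ring
    _ ≤ (23328 * ((u₁ : ℝ) * u₂ * u₃)) * (24 * u₃ * lam) := mul_le_mul_of_nonneg_right hbox hm.le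
    _ = 279936 * ((u₁ : ℝ) * u₂ * u₃ * (2 * u₃ * lam)) := by ring

end Pool.A6405.LL
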