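import Pool.Agent.H.MP_a6405b_nt.helper54.KeyDCard

set_option autoImplicit false

namespace Pool.A6405.LL

/- PROOF (section 3, KD). S empty: trivial. u_k = 2^(i_k + 1). For a in S: rD a < lam/2^(10l) gives hb hb a3^2 lam > η 2^(10l) = 2^(5l), hence hvol; u1u2u3 ≤ 8 hb hb a3 ≤ 8*2^n.
rD a ≤ η/(2^i1 2^i2 4^i3) = 16 η/(u1u2u3^2). keyD_card: 279936 * 2 u1u2u3^2 lam * 16 η/(u1u2u3^2) = 8957952 η lam. -/
/-- one class of D-events -/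
theorem keyD_class (n l : ℕ) (hl : 20 ≤ l) (hnl : n + 1 ≤ 2 ^ l) (δ : ℝ) (hδ : 0 < δ)
    (ξ₁ ξ₂ x lam : ℝ) (hlam : 0 < lam) (hlam' : lam ≤ 1 / 2 ^ (n + 4))
    (hB1 : B1 n ξ₁ ξ₂)
    (hav : AvP n δ ((1 / 2 : ℝ) ^ (5 * l)) ξ₁ ξ₂ x lam)
    (i₁ i₂ i₃ : ℕ) (S : Finset (ℤ × ℤ × ℕ))
    (hS : ∀ a ∈ S, a ∈ ED n ∧ 2 ^ i₁ ≤ hb a.1 ∧ hb a.1 < 2 ^ (i₁ + 1) ∧ 2 ^ i₂ ≤ hb a.2.1 ∧ hb a.2.1 < 2 ^ (i₂ + 1) ∧
      2 ^ i₃ ≤ a.2.2 ∧ a.2.2 < 2 ^ (i₃ + 1) ∧ rD ((1 / 2 : ℝ) ^ (5 * l)) a < lam / 2 ^ (10 * l) ∧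
      nn (a.2.2 * x + (a.1 * ξ₁ + a.2.1 * ξ₂)) ≤ 2 * a.2.2 * lam) :
    ∑ a ∈ S, rD ((1 / 2 : ℝ) ^ (5 * l)) a ≤ 8957952 * (1 / 2 : ℝ) ^ (5 * l) * lam := by
  rcases S.eq_empty_or_nonempty with rfl | ⟨a0, ha0⟩
  · rw [Finset.sum_empty]
    positivity
  have hη : (0 : ℝ) < (1 / 2 : ℝ) ^ (5 * l) := by positivity
  have hη2 : (1 / 2 : ℝ) ^ (5 * l) * 2 ^ (10 * l) = 2 ^ (5 * l) := by
    rw [show 10 * l = 5 * l + 5 * l by ring, pow_add, ← mul_assoc, ← mul_pow]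
    norm_num
  have p1 : (0 : ℝ) < 2 ^ i₁ := by positivity
  have p2 : (0 : ℝ) < 2 ^ i₂ := by positivity
  have p3 : (0 : ℝ) < 2 ^ i₃ := by positivity
  -- real bounds for the members
  have hB : ∀ a ∈ S, (2 : ℝ) ^ i₃ ≤ (a.2.2 : ℝ) ∧ (a.2.2 : ℝ) ≤ 2 ^ (i₃ + 1) := by
    intro a ha
    obtain ⟨-, -, -, -, -, b3, b3', -, -⟩ := hS a ha
    exact ⟨by exact_mod_cast b3, by exact_mod_cast b3'.le⟩
  have hprod : (2 : ℝ) ^ (i₁ + 1) * 2 ^ (i₂ + 1) * 2 ^ (i₃ + 1) ≤ 8 * 2 ^ n := by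
    obtain ⟨hED, b1, -, b2, -, -, -, -, -⟩ := hS a0 ha0
    have h1 : hb a0.1 * hb a0.2.1 * (a0.2.2 : ℝ) ≤ 2 ^ n := by
      unfold ED at hED
      exact (Finset.mem_filter.1 hED).2
    have h2 : (2 : ℝ) ^ i₁ * 2 ^ i₂ ≤ hb a0.1 * hb a0.2.1 :=
      mul_le_mul b1 b2 p2.le (hb_pos _).le
    have h3 : (2 : ℝ) ^ i₁ * 2 ^ i₂ * 2 ^ i₃ ≤ hb a0.1 * hb a0.2.1 * (a0.2.2 : ℝ) :=
      mul_le_mul h2 (hB a0 ha0).1 p3.le (mul_pos (hb_pos _) (hb_pos _)).le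
    rw [pow_succ, pow_succ, pow_succ]
    linarith
  have hvol : (2 : ℝ) ^ (5 * l) < 2 ^ (i₁ + 1) * 2 ^ (i₂ + 1) * (2 ^ (i₃ + 1)) ^ 2 * lam := by
    obtain ⟨-, b1, b1', b2, b2', -, -, hr, -⟩ := hS a0 ha0
    have c3 : (0 : ℝ) < a0.2.2 := p3.trans_le (hB a0 ha0).1
    unfold rD at hr
    rw [div_lt_div_iff₀ (mul_pos (mul_pos (hb_pos _) (hb_pos _)) (pow_pos c3 2)) (by positivity),
      hη2] at hr
    refine hr.trans_le ?_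
    rw [mul_comm lam]
    refine mul_le_mul_of_nonneg_right ?_ hlam.le
    refine mul_le_mul (mul_le_mul b1'.le b2'.le (hb_pos _).le (by positivity)) ?_
      (by positivity) (by positivity)
    exact pow_le_pow_left₀ c3.le (hB a0 ha0).2 2
  have hcard := keyD_card n l hl hnl δ hδ ξ₁ ξ₂ x lam hlam hlam' hB1 hav (2 ^ (i₁ + 1))
    (2 ^ (i₂ + 1)) (2 ^ (i₃ + 1)) Nat.one_le_two_pow Nat.one_le_two_pow Nat.one_le_two_pow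
    (by push_cast; exact hprod) (by push_cast; exact hvol) S (by
      intro a ha
      obtain ⟨-, -, b1', -, b2', -, -, -, hnn⟩ := hS a ha
      refine ⟨?_, ?_, ?_, ?_⟩
      · push_cast
        exact (abs_le_hb _).trans b1'.le
      · push_cast
        exact (abs_le_hb _).trans b2'.le
      · push_cast
        exact (hB a ha).2
      · push_cast
        refine hnn.trans ?_
        have := mul_le_mul_of_nonneg_right (hB a ha).2 hlam.le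
        linarith)
  push_cast at hcard
  have hr : ∀ a ∈ S, rD ((1 / 2 : ℝ) ^ (5 * l)) a ≤
      (1 / 2 : ℝ) ^ (5 * l) / (2 ^ i₁ * 2 ^ i₂ * (2 ^ i₃) ^ 2) := by
    intro a ha
    obtain ⟨-, b1, -, b2, -, -, -, -, -⟩ := hS a ha
    unfold rD
    refine div_le_div_of_nonneg_left hη.le (by positivity) ?_
    exact mul_le_mul (mul_le_mul b1 b2 p2.le (hb_pos _).le)
      (pow_le_pow_left₀ p3.le (hB a ha).1 2) (by positivity)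
      (mul_pos (hb_pos _) (hb_pos _)).le
  have hsum := Finset.sum_le_sum hr
  rw [Finset.sum_const, nsmul_eq_mul] at hsum
  refine hsum.trans ?_
  have h5 : (0 : ℝ) < (1 / 2 : ℝ) ^ (5 * l) / (2 ^ i₁ * 2 ^ i₂ * (2 ^ i₃) ^ 2) := by positivity
  refine (mul_le_mul_of_nonneg_right hcard h5.le).trans (le_of_eq ?_)
  rw [pow_succ, pow_succ, pow_succ]
  field_simp
  ring

end Pool.A6405.LL
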