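import Pool.Agent.H.MP_a6405b_nt.helper54.KeyPClass
import Pool.Agent.H.MP_a6405b_nt.helper54.Dyadic

set_option autoImplicit false

namespace Pool.A6405.LL

/-- the window: two nonempty classes with the same `j` -/
lemma keyP_window (n l j : ℕ) (δ η ξ₁ ξ₂ lam : ℝ) (hδ : 0 < δ) (hη : 0 < η)
    (q q' b₁ b₂ c₁ c₂ : ℕ)
    (hq1 : 2 ^ j ≤ q) (hq2 : q < 2 ^ (j + 1)) (hq1' : 2 ^ j ≤ q') (hq2' : q' < 2 ^ (j + 1))
    (h1 : nn (q * ξ₁) ≤ (1 / 2) ^ b₁) (h1' : 0 < nn (q * ξ₁))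
    (h2 : nn (q * ξ₂) ≤ (1 / 2) ^ b₂) (h2' : 0 < nn (q * ξ₂))
    (h3 : (1 / 2) ^ (c₁ + 1) < nn (q' * ξ₁)) (h4 : (1 / 2) ^ (c₂ + 1) < nn (q' * ξ₂))
    (hr : rP n δ η ξ₁ ξ₂ q < lam / 2 ^ (10 * l))
    (hr' : lam / (2 ^ (10 * l)) ^ 2 ≤ rP n δ η ξ₁ ξ₂ q') :
    b₁ + b₂ ≤ c₁ + c₂ + (10 * l + 3) := by
  have hψ := psi_block n δ η hδ hη j q hq1 hq2
  have hψ' := psi_block n δ η hδ hη j q' hq1' hq2'
  have hqpos : (0 : ℝ) < q := by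
    have : 0 < q := lt_of_lt_of_le (by positivity) hq1
    exact_mod_cast this
  have hqpos' : (0 : ℝ) < q' := by
    have : 0 < q' := lt_of_lt_of_le (by positivity) hq1'
    exact_mod_cast this
  have hpsi0 : 0 < psi n δ η q := lt_of_lt_of_le (by positivity : (0 : ℝ) < δ / 2 ^ n) (le_max_left _ _)
  have hpsi0' : 0 < psi n δ η q' := lt_of_lt_of_le (by positivity : (0 : ℝ) < δ / 2 ^ n) (le_max_left _ _)
  have hy : 0 < yy ξ₁ ξ₂ q := mul_pos h1' h2'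
  have hn3 : 0 < nn (q' * ξ₁) := lt_trans (by positivity) h3
  have hn4 : 0 < nn (q' * ξ₂) := lt_trans (by positivity) h4
  have hy' : 0 < yy ξ₁ ξ₂ q' := mul_pos hn3 hn4
  -- upper bound for yy q
  have hyup : yy ξ₁ ξ₂ q ≤ (1 / 2) ^ (b₁ + b₂) := by
    rw [pow_add]; exact mul_le_mul h1 h2 h2'.le (by positivity)
  have hylo : (1 / 2 : ℝ) ^ (c₁ + c₂ + 2) < yy ξ₁ ξ₂ q' := by
    have : (1 / 2 : ℝ) ^ (c₁ + c₂ + 2) = (1 / 2) ^ (c₁ + 1) * (1 / 2) ^ (c₂ + 1) := by ring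
    rw [this]; exact mul_lt_mul'' h3 h4 (by positivity) (by positivity)
  -- psi q' ≤ 2 psi q
  have hpp : psi n δ η q' ≤ 2 * psi n δ η q := by linarith [hψ.1, hψ'.2]
  have hqq : (q : ℝ) ≤ 2 * q' := by
    have : q ≤ 2 * q' := by
      have : 2 ^ (j + 1) = 2 * 2 ^ j := by ring
      omega
    exact_mod_cast this
  -- r q = psi/(q y)
  have e1 : psi n δ η q < lam / 2 ^ (10 * l) * (q * yy ξ₁ ξ₂ q) := by
    have := hr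
    unfold rP at this
    rwa [div_lt_iff₀ (mul_pos hqpos hy)] at this
  have e2 : lam / (2 ^ (10 * l)) ^ 2 * (q' * yy ξ₁ ξ₂ q') ≤ psi n δ η q' := by
    have := hr'
    unfold rP at this
    rwa [le_div_iff₀ (mul_pos hqpos' hy')] at this
  set M : ℝ := 2 ^ (10 * l) with hM
  have hMpos : 0 < M := by positivity
  have hlam : 0 < lam := by
    have h0 : 0 < lam / M * (q * yy ξ₁ ξ₂ q) := lt_trans hpsi0 e1
    have h00 : 0 < lam / M := (pos_iff_pos_of_mul_pos h0).2 (mul_pos hqpos hy)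
    by_contra hcon
    have : lam / M ≤ 0 := div_nonpos_of_nonpos_of_nonneg (not_lt.1 hcon) hMpos.le
    linarith
  -- combine
  have e3 : lam / M ^ 2 * (q' * yy ξ₁ ξ₂ q') < 2 * (lam / M * (q * yy ξ₁ ξ₂ q)) := by linarith
  have e4 : q' * yy ξ₁ ξ₂ q' < 2 * M * (q * yy ξ₁ ξ₂ q) := by
    have hc : 0 < lam / M ^ 2 := by positivity
    have : lam / M ^ 2 * (q' * yy ξ₁ ξ₂ q') < lam / M ^ 2 * (2 * M * (q * yy ξ₁ ξ₂ q)) := by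
      refine lt_of_lt_of_eq e3 ?_
      field_simp
    exact lt_of_mul_lt_mul_left this hc.le
  have e5 : q' * yy ξ₁ ξ₂ q' < 2 * M * (2 * q' * yy ξ₁ ξ₂ q) := by
    refine lt_of_lt_of_le e4 ?_
    have : (q : ℝ) * yy ξ₁ ξ₂ q ≤ 2 * q' * yy ξ₁ ξ₂ q := mul_le_mul_of_nonneg_right hqq hy.le
    exact mul_le_mul_of_nonneg_left this (by positivity)
  have e6 : yy ξ₁ ξ₂ q' < 4 * M * yy ξ₁ ξ₂ q := by
    have : (q' : ℝ) * yy ξ₁ ξ₂ q' < q' * (4 * M * yy ξ₁ ξ₂ q) := by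
      refine lt_of_lt_of_eq e5 ?_
      ring
    exact lt_of_mul_lt_mul_left this hqpos'.le
  have e7 : (1 / 2 : ℝ) ^ (c₁ + c₂ + 2) < 4 * M * (1 / 2) ^ (b₁ + b₂) :=
    lt_of_lt_of_le (lt_trans hylo e6) (mul_le_mul_of_nonneg_left hyup (by positivity))
  have e8 : (2 : ℝ) ^ (b₁ + b₂) < 2 ^ (c₁ + c₂ + 10 * l + 4) := by
    have h5 : (1 / 2 : ℝ) ^ (c₁ + c₂ + 2) * (2 ^ (b₁ + b₂) * 2 ^ (c₁ + c₂ + 2)) <
        4 * M * (1 / 2) ^ (b₁ + b₂) * (2 ^ (b₁ + b₂) * 2 ^ (c₁ + c₂ + 2)) :=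
      mul_lt_mul_of_pos_right e7 (by positivity)
    have h6 : (1 / 2 : ℝ) ^ (c₁ + c₂ + 2) * 2 ^ (c₁ + c₂ + 2) = 1 := by
      rw [← mul_pow]; norm_num
    have h7 : (1 / 2 : ℝ) ^ (b₁ + b₂) * 2 ^ (b₁ + b₂) = 1 := by
      rw [← mul_pow]; norm_num
    calc (2 : ℝ) ^ (b₁ + b₂) = (1 / 2 : ℝ) ^ (c₁ + c₂ + 2) * 2 ^ (c₁ + c₂ + 2) * 2 ^ (b₁ + b₂) := by
          rw [h6, one_mul]
      _ = (1 / 2 : ℝ) ^ (c₁ + c₂ + 2) * (2 ^ (b₁ + b₂) * 2 ^ (c₁ + c₂ + 2)) := by ring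
      _ < 4 * M * (1 / 2) ^ (b₁ + b₂) * (2 ^ (b₁ + b₂) * 2 ^ (c₁ + c₂ + 2)) := h5
      _ = 4 * M * 2 ^ (c₁ + c₂ + 2) * ((1 / 2) ^ (b₁ + b₂) * 2 ^ (b₁ + b₂)) := by ring
      _ = 4 * M * 2 ^ (c₁ + c₂ + 2) := by rw [h7, mul_one]
      _ = 2 ^ (c₁ + c₂ + 10 * l + 4) := by
          rw [hM, show (4 : ℝ) = 2 ^ 2 by norm_num, ← pow_add, ← pow_add]; congr 1; ring
  have e9 : b₁ + b₂ < c₁ + c₂ + 10 * l + 4 := (pow_lt_pow_iff_right₀ (by norm_num : (1 : ℝ) < 2)).1 e8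
  omega

/-- a set of pairs with bounded first coordinate and sums in a window -/
lemma keyP_pairs_card (n L : ℕ) (K : Finset (ℕ × ℕ)) (h1 : ∀ k ∈ K, 1 ≤ k.1 ∧ k.1 ≤ 2 * n)
    (h2 : ∀ k ∈ K, ∀ k' ∈ K, k.1 + k.2 ≤ k'.1 + k'.2 + (L + 3)) :
    K.card ≤ 2 * n * (L + 4) := by
  classical
  rcases K.eq_empty_or_nonempty with rfl | hne
  · simp
  obtain ⟨k0, hk0, hmin⟩ := K.exists_min_image (fun k => k.1 + k.2) hne
  have : K.card ≤ ((Finset.Icc 1 (2 * n)) ×ˢ (Finset.Icc (k0.1 + k0.2) (k0.1 + k0.2 + (L + 3)))).card := by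
    refine Finset.card_le_card_of_injOn (fun k => (k.1, k.1 + k.2)) ?_ ?_
    · intro k hk
      have ha := h1 k hk
      have hb := h2 k hk k0 hk0
      have hc := hmin k hk
      simp only [Finset.coe_product, Finset.coe_Icc, Set.mem_prod, Set.mem_Icc]
      exact ⟨ha, hc, hb⟩
    · intro k _ k' _ h
      simp only [Prod.mk.injEq] at h
      exact Prod.ext h.1 (by omega)
  refine this.trans (le_of_eq ?_)
  rw [Finset.card_product, Nat.card_Icc, Nat.card_Icc]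
  congr 1
  · omega

/-- the numerical estimate -/
lemma keyP_num (n l : ℕ) (hl : 20 ≤ l) (hnl : n + 1 ≤ 2 ^ l) (δ : ℝ) (hδ : 0 < δ)
    (hδn : n * l * δ ≤ (1 / 2 : ℝ) ^ 42) (lam : ℝ) (hlam : 0 < lam) :
    (2 * n * (10 * l + 4) : ℝ) * (32 * 1119744 * (2 * δ + (n + 1) * (1 / 2 : ℝ) ^ (5 * l)) * lam) ≤ lam / 640 := by
  have hl' : (20 : ℝ) ≤ l := by exact_mod_cast hl
  have h1 : (10 * l + 4 : ℝ) ≤ 11 * l := by linarith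
  have hn0 : (0 : ℝ) ≤ n := Nat.cast_nonneg _
  have hnl' : (n : ℝ) + 1 ≤ 2 ^ l := by exact_mod_cast hnl
  have hll : (l : ℝ) ≤ 2 ^ l := by exact_mod_cast (Nat.lt_two_pow_self (n := l)).le
  -- first part
  have a1 : (n : ℝ) * (10 * l + 4) * (2 * δ) ≤ 22 * (1 / 2 : ℝ) ^ 42 := by
    have : (n : ℝ) * (10 * l + 4) * (2 * δ) ≤ n * (11 * l) * (2 * δ) := by gcongr
    nlinarith
  have a2 : (n : ℝ) * (10 * l + 4) * ((n + 1) * (1 / 2 : ℝ) ^ (5 * l)) ≤ 11 * (1 / 2 : ℝ) ^ 40 := by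
    have e1 : (n : ℝ) * (10 * l + 4) * ((n + 1) * (1 / 2 : ℝ) ^ (5 * l)) ≤
        2 ^ l * (11 * 2 ^ l) * (2 ^ l * (1 / 2 : ℝ) ^ (5 * l)) := by
      have b1 : (n : ℝ) ≤ 2 ^ l := by linarith
      have b2 : (10 * l + 4 : ℝ) ≤ 11 * 2 ^ l := by linarith
      gcongr
    have e2 : (2 : ℝ) ^ l * (11 * 2 ^ l) * (2 ^ l * (1 / 2 : ℝ) ^ (5 * l)) = 11 * (1 / 2 : ℝ) ^ (2 * l) := by
      have : (1 / 2 : ℝ) ^ (5 * l) = (1 / 2 : ℝ) ^ (2 * l) * ((1 / 2 : ℝ) ^ l) ^ 3 := by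
        rw [← pow_mul, ← pow_add]; congr 1; ring
      rw [this]
      have h3 : (2 : ℝ) ^ l * (1 / 2 : ℝ) ^ l = 1 := by rw [← mul_pow]; norm_num
      calc (2 : ℝ) ^ l * (11 * 2 ^ l) * (2 ^ l * ((1 / 2 : ℝ) ^ (2 * l) * ((1 / 2 : ℝ) ^ l) ^ 3))
          = 11 * (1 / 2 : ℝ) ^ (2 * l) * ((2 : ℝ) ^ l * (1 / 2 : ℝ) ^ l) ^ 3 := by ring
        _ = 11 * (1 / 2 : ℝ) ^ (2 * l) := by rw [h3]; ring
    have e3 : (1 / 2 : ℝ) ^ (2 * l) ≤ (1 / 2 : ℝ) ^ 40 :=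
      pow_le_pow_of_le_one (by norm_num) (by norm_num) (by omega)
    linarith
  have a3 : (n : ℝ) * (10 * l + 4) * (2 * δ + (n + 1) * (1 / 2 : ℝ) ^ (5 * l)) ≤
      22 * (1 / 2 : ℝ) ^ 42 + 11 * (1 / 2 : ℝ) ^ 40 := by
    rw [mul_add]; linarith
  have a4 : (2 * n * (10 * l + 4) : ℝ) * (32 * 1119744 * (2 * δ + (n + 1) * (1 / 2 : ℝ) ^ (5 * l)) * lam)
      = 64 * 1119744 * ((n : ℝ) * (10 * l + 4) * (2 * δ + (n + 1) * (1 / 2 : ℝ) ^ (5 * l))) * lam := by ring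
  rw [a4]
  have a5 : 64 * 1119744 * ((n : ℝ) * (10 * l + 4) * (2 * δ + (n + 1) * (1 / 2 : ℝ) ^ (5 * l))) ≤ 1 / 640 := by
    have : (64 * 1119744 : ℝ) * (22 * (1 / 2 : ℝ) ^ 42 + 11 * (1 / 2 : ℝ) ^ 40) ≤ 1 / 640 := by norm_num
    linarith
  calc 64 * 1119744 * ((n : ℝ) * (10 * l + 4) * (2 * δ + (n + 1) * (1 / 2 : ℝ) ^ (5 * l))) * lam
      ≤ 1 / 640 * lam := mul_le_mul_of_nonneg_right a5 hlam.le
    _ = lam / 640 := by ring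

/-- geometric sum over the dyadic blocks -/
lemma keyP_geom (n : ℕ) (δ η : ℝ) (hδ : 0 < δ) :
    ∑ j ∈ Finset.range (n + 1), (δ * 2 ^ j / 2 ^ n + η) ≤ 2 * δ + (n + 1) * η := by
  rw [Finset.sum_add_distrib]
  have h1 : ∑ j ∈ Finset.range (n + 1), δ * 2 ^ j / 2 ^ n = δ / 2 ^ n * (2 ^ (n + 1) - 1) := by
    have : ∑ j ∈ Finset.range (n + 1), (2 : ℝ) ^ j = 2 ^ (n + 1) - 1 := by
      have := geom_sum_eq (by norm_num : (2 : ℝ) ≠ 1) (n + 1)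
      rw [this]; norm_num
    rw [← this, Finset.mul_sum]
    refine Finset.sum_congr rfl fun j _ => by ring
  rw [h1]
  have h2 : δ / 2 ^ n * (2 ^ (n + 1) - 1) ≤ 2 * δ := by
    have : δ / 2 ^ n * (2 ^ (n + 1) - 1) ≤ δ / 2 ^ n * 2 ^ (n + 1) := by
      apply mul_le_mul_of_nonneg_left _ (by positivity); linarith
    refine this.trans (le_of_eq ?_)
    rw [pow_succ]; field_simp
  have h3 : ∑ _j ∈ Finset.range (n + 1), η = (n + 1) * η := by simp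
  rw [h3]; linarith

/- PROOF (section 3, KP, end). Group the sum by (j,b1,b2), j = Nat.log 2 q ≤ n, (b1,b2) from exists_dyadic_B1 (choose). For fixed j the values B = b1 + b2 of nonempty
classes lie in a window of 10l+4 integers: for q, q' in the set with the same j, 2^(-B') < 4 y(q'), 2^(-B) ≥ y(q), q y(q) = psi(q)/rP(q), so
2^(B-B') < 4 (psi q'/psi q)(q/q')(rP q/rP q') < 4*2*2*2^(10l). Hence at most 2n(10l+4) classes for each j, each at most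
32*1119744*(δ 2^j/2^n + η) lam (keyP_class). Sum over j ≤ n: ≤ 64*1119744*n(10l+4)(2δ + (n+1)η) lam ≤ lam/640 because
n l δ ≤ 2^-42, 10l+4 ≤ 11l, η = 2^(-5l), n + 1 ≤ 2^l, l ≥ 20. -/
open Classical in
theorem keyP (n l : ℕ) (hl : 20 ≤ l) (hnl : n + 1 ≤ 2 ^ l) (hn : 1 ≤ n) (δ : ℝ) (hδ : 0 < δ)
    (hδn : n * l * δ ≤ (1 / 2 : ℝ) ^ 42)
    (ξ₁ ξ₂ x lam : ℝ) (hlam : 0 < lam) (hlam' : lam ≤ 1 / 2 ^ (n + 4))
    (hB1 : B1 n ξ₁ ξ₂) (hB2 : B2 n ((1 / 2 : ℝ) ^ (5 * l)) ξ₁ ξ₂)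
    (hav : AvD n ((1 / 2 : ℝ) ^ (5 * l)) ξ₁ ξ₂ x lam) :
    ∑ q ∈ (EP n).filter (fun q => lam / (2 ^ (10 * l)) ^ 2 ≤ rP n δ ((1 / 2 : ℝ) ^ (5 * l)) ξ₁ ξ₂ q ∧
        rP n δ ((1 / 2 : ℝ) ^ (5 * l)) ξ₁ ξ₂ q < lam / 2 ^ (10 * l) ∧ nn (q * x) ≤ 2 * q * lam),
      rP n δ ((1 / 2 : ℝ) ^ (5 * l)) ξ₁ ξ₂ q ≤ lam / 640 := by
  have hη : (0 : ℝ) < (1 / 2 : ℝ) ^ (5 * l) := by positivity
  have hdy : ∀ q : ℕ, ∃ b₁ b₂ : ℕ, q ∈ EP n → (1 ≤ b₁ ∧ b₁ ≤ 2 * n ∧ 1 ≤ b₂ ∧ b₂ ≤ 2 * n ∧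
      nn (q * ξ₁) ≤ (1 / 2) ^ b₁ ∧ (1 / 2) ^ (b₁ + 1) < nn (q * ξ₁) ∧
      nn (q * ξ₂) ≤ (1 / 2) ^ b₂ ∧ (1 / 2) ^ (b₂ + 1) < nn (q * ξ₂)) := by
    intro q
    by_cases hq : q ∈ EP n
    · obtain ⟨b₁, b₂, h⟩ := exists_dyadic_B1 n ξ₁ ξ₂ hB1 q (Finset.mem_Icc.1 hq).1 (Finset.mem_Icc.1 hq).2
      exact ⟨b₁, b₂, fun _ => h⟩
    · exact ⟨0, 0, fun h => absurd h hq⟩
  choose f g hfg using hdy
  set T := (EP n).filter (fun q => lam / (2 ^ (10 * l)) ^ 2 ≤ rP n δ ((1 / 2 : ℝ) ^ (5 * l)) ξ₁ ξ₂ q ∧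
        rP n δ ((1 / 2 : ℝ) ^ (5 * l)) ξ₁ ξ₂ q < lam / 2 ^ (10 * l) ∧ nn (q * x) ≤ 2 * q * lam) with hT
  have hTE : ∀ q ∈ T, q ∈ EP n := fun q hq => (Finset.mem_filter.1 hq).1
  have hTr : ∀ q ∈ T, lam / (2 ^ (10 * l)) ^ 2 ≤ rP n δ ((1 / 2 : ℝ) ^ (5 * l)) ξ₁ ξ₂ q ∧
        rP n δ ((1 / 2 : ℝ) ^ (5 * l)) ξ₁ ξ₂ q < lam / 2 ^ (10 * l) ∧ nn (q * x) ≤ 2 * q * lam :=
    fun q hq => (Finset.mem_filter.1 hq).2
  -- the sum over one dyadic block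
  have hblock : ∀ j ∈ Finset.range (n + 1), ∑ q ∈ T.filter (fun q => Nat.log 2 q = j),
      rP n δ ((1 / 2 : ℝ) ^ (5 * l)) ξ₁ ξ₂ q ≤
      (2 * n * (10 * l + 4) : ℝ) * (32 * 1119744 * (δ * 2 ^ j / 2 ^ n + (1 / 2 : ℝ) ^ (5 * l)) * lam) := by
    intro j hj
    have hjn : j ≤ n := by have := Finset.mem_range.1 hj; omega
    set Tj := T.filter (fun q => Nat.log 2 q = j) with hTj
    have hTjT : ∀ q ∈ Tj, q ∈ T := fun q hq => (Finset.mem_filter.1 hq).1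
    have hTjl : ∀ q ∈ Tj, 2 ^ j ≤ q ∧ q < 2 ^ (j + 1) := by
      intro q hq
      have hl1 : Nat.log 2 q = j := (Finset.mem_filter.1 hq).2
      have hq1 : 1 ≤ q := (Finset.mem_Icc.1 (hTE q (hTjT q hq))).1
      constructor
      · rw [← hl1]; exact Nat.pow_log_le_self 2 (by omega)
      · rw [← hl1]; exact Nat.lt_pow_succ_log_self (by norm_num) q
    set K := Tj.image (fun q => (f q, g q)) with hK
    have hKc : K.card ≤ 2 * n * (10 * l + 4) := by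
      apply keyP_pairs_card n (10 * l) K
      · intro k hk
        obtain ⟨q, hq, rfl⟩ := Finset.mem_image.1 hk
        have := hfg q (hTE q (hTjT q hq))
        exact ⟨this.1, this.2.1⟩
      · intro k hk k' hk'
        obtain ⟨q, hq, rfl⟩ := Finset.mem_image.1 hk
        obtain ⟨q', hq', rfl⟩ := Finset.mem_image.1 hk'
        have h := hfg q (hTE q (hTjT q hq))
        have h' := hfg q' (hTE q' (hTjT q' hq'))
        exact keyP_window n l j δ _ ξ₁ ξ₂ lam hδ hη q q' (f q) (g q) (f q') (g q')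
          (hTjl q hq).1 (hTjl q hq).2 (hTjl q' hq').1 (hTjl q' hq').2
          h.2.2.2.2.1 (lt_trans (by positivity) h.2.2.2.2.2.1) h.2.2.2.2.2.2.1
          (lt_trans (by positivity) h.2.2.2.2.2.2.2)
          h'.2.2.2.2.2.1 h'.2.2.2.2.2.2.2 (hTr q (hTjT q hq)).2.1 (hTr q' (hTjT q' hq')).1
    have hcl : ∀ k ∈ K, ∑ q ∈ Tj.filter (fun q => (f q, g q) = k), rP n δ ((1 / 2 : ℝ) ^ (5 * l)) ξ₁ ξ₂ q ≤
        32 * 1119744 * (δ * 2 ^ j / 2 ^ n + (1 / 2 : ℝ) ^ (5 * l)) * lam := by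
      intro k hk
      obtain ⟨q0, hq0, hk0⟩ := Finset.mem_image.1 hk
      have h0 := hfg q0 (hTE q0 (hTjT q0 hq0))
      have hf0 : f q0 = k.1 := by rw [← hk0]
      have hg0 : g q0 = k.2 := by rw [← hk0]
      refine keyP_class n l hl hnl hn δ hδ ξ₁ ξ₂ x lam hlam hlam' hB1 hB2 hav j k.1 k.2 hjn
        (hf0 ▸ h0.1) (hg0 ▸ h0.2.2.1) _ ?_
      intro q hq
      obtain ⟨hqj, hqk⟩ := Finset.mem_filter.1 hq
      have h := hfg q (hTE q (hTjT q hqj))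
      have hf : f q = k.1 := by rw [← hqk]
      have hg : g q = k.2 := by rw [← hqk]
      rw [hf, hg] at h
      exact ⟨hTE q (hTjT q hqj), (hTjl q hqj).1, (hTjl q hqj).2, h.2.2.2.2.1, h.2.2.2.2.2.1,
        h.2.2.2.2.2.2.1, h.2.2.2.2.2.2.2, (hTr q (hTjT q hqj)).2.1, (hTr q (hTjT q hqj)).2.2⟩
    have hsum := Finset.sum_fiberwise_of_maps_to (s := Tj) (t := K) (g := fun q => (f q, g q))
      (fun q hq => Finset.mem_image_of_mem _ hq) (fun q => rP n δ ((1 / 2 : ℝ) ^ (5 * l)) ξ₁ ξ₂ q)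
    rw [← hsum]
    have hC0 : (0 : ℝ) ≤ 32 * 1119744 * (δ * 2 ^ j / 2 ^ n + (1 / 2 : ℝ) ^ (5 * l)) * lam := by positivity
    calc ∑ k ∈ K, ∑ q ∈ Tj.filter (fun q => (f q, g q) = k), rP n δ ((1 / 2 : ℝ) ^ (5 * l)) ξ₁ ξ₂ q
        ≤ ∑ _k ∈ K, 32 * 1119744 * (δ * 2 ^ j / 2 ^ n + (1 / 2 : ℝ) ^ (5 * l)) * lam :=
          Finset.sum_le_sum hcl
      _ = (K.card : ℝ) * (32 * 1119744 * (δ * 2 ^ j / 2 ^ n + (1 / 2 : ℝ) ^ (5 * l)) * lam) := by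
          rw [Finset.sum_const, nsmul_eq_mul]
      _ ≤ _ := by
          apply mul_le_mul_of_nonneg_right _ hC0
          exact_mod_cast hKc
  have hmaps : ∀ q ∈ T, Nat.log 2 q ∈ Finset.range (n + 1) := by
    intro q hq
    have hq2 : q ≤ 2 ^ n := (Finset.mem_Icc.1 (hTE q hq)).2
    rw [Finset.mem_range]
    have : Nat.log 2 q ≤ Nat.log 2 (2 ^ n) := Nat.log_mono_right hq2
    rw [Nat.log_pow (by norm_num)] at this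
    omega
  have htot := Finset.sum_fiberwise_of_maps_to (s := T) (t := Finset.range (n + 1)) (g := fun q => Nat.log 2 q)
      hmaps (fun q => rP n δ ((1 / 2 : ℝ) ^ (5 * l)) ξ₁ ξ₂ q)
  rw [← htot]
  calc ∑ j ∈ Finset.range (n + 1), ∑ q ∈ T.filter (fun q => Nat.log 2 q = j),
        rP n δ ((1 / 2 : ℝ) ^ (5 * l)) ξ₁ ξ₂ q
      ≤ ∑ j ∈ Finset.range (n + 1),
        (2 * n * (10 * l + 4) : ℝ) * (32 * 1119744 * (δ * 2 ^ j / 2 ^ n + (1 / 2 : ℝ) ^ (5 * l)) * lam) :=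
        Finset.sum_le_sum hblock
    _ = (2 * n * (10 * l + 4) : ℝ) * (32 * 1119744 *
          (∑ j ∈ Finset.range (n + 1), (δ * 2 ^ j / 2 ^ n + (1 / 2 : ℝ) ^ (5 * l))) * lam) := by
        rw [Finset.mul_sum, Finset.sum_mul, Finset.mul_sum]
    _ ≤ (2 * n * (10 * l + 4) : ℝ) * (32 * 1119744 *
          (2 * δ + (n + 1) * (1 / 2 : ℝ) ^ (5 * l)) * lam) := by
        have := keyP_geom n δ ((1 / 2 : ℝ) ^ (5 * l)) hδ
        gcongr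
    _ ≤ lam / 640 := keyP_num n l hl hnl δ hδ hδn lam hlam

end Pool.A6405.LL
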