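import Pool.Agent.H.MP_a6405b_nt.helper54.Basic

set_option autoImplicit false

namespace Pool.A6405.LL

/-- `hb` is at most the side of the box. -/
private theorem KeyPSep_hb {d : ℤ} {R : ℝ} (h : 0 < R) (h' : R ≤ 1 / 2)
    (hd : |(d : ℝ)| ≤ 1 / (36 * R)) : hb d ≤ 1 / (2 * R) := by
  apply hb_le
  · rw [le_div_iff₀ (by positivity)]
    linarith
  · refine hd.trans ?_
    exact one_div_le_one_div_of_le (by positivity) (by linarith)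

/-- The case `0 ≤ d₃`. -/
private theorem KeyPSep_aux (n l : ℕ) (ξ₁ ξ₂ x lam : ℝ) (hlam : 0 < lam)
    (hlam' : lam ≤ 1 / 2 ^ (n + 4)) (hB2 : B2 n ((1 / 2 : ℝ) ^ (5 * l)) ξ₁ ξ₂)
    (hav : AvD n ((1 / 2 : ℝ) ^ (5 * l)) ξ₁ ξ₂ x lam) (j : ℕ) (hj : j ≤ n) (R₁ R₂ : ℝ)
    (h1 : 0 < R₁) (h1' : R₁ ≤ 1 / 2) (h2 : 0 < R₂) (h2' : R₂ ≤ 1 / 2)
    (hvol : 2 * 2 ^ (5 * l) < (2 : ℝ) ^ (j + 1) * R₁ * R₂ * (2 * 2 ^ (j + 1) * lam))
    (d₁ d₂ : ℤ) (d₃ : ℕ) (hd : d₁ ≠ 0 ∨ d₂ ≠ 0 ∨ d₃ ≠ 0) (hd1 : |(d₁ : ℝ)| ≤ 1 / (36 * R₁))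
    (hd2 : |(d₂ : ℝ)| ≤ 1 / (36 * R₂)) (hd3 : (d₃ : ℝ) ≤ 1 / (36 * (2 * 2 ^ (j + 1) * lam))) :
    1 / (2 : ℝ) ^ (j + 1) ≤ nn (d₁ * ξ₁ + d₂ * ξ₂ + d₃ * x) := by
  obtain ⟨N, hN⟩ : ∃ N : ℝ, N = 2 ^ (j + 1) := ⟨_, rfl⟩
  obtain ⟨R₃, hR₃⟩ : ∃ R₃ : ℝ, R₃ = 2 * 2 ^ (j + 1) * lam := ⟨_, rfl⟩
  obtain ⟨η, hη⟩ : ∃ η : ℝ, η = (1 / 2 : ℝ) ^ (5 * l) := ⟨_, rfl⟩
  rw [← hη] at hB2 hav
  rw [← hR₃] at hvol hd3
  rw [← hN] at hvol ⊢
  have hNpos : 0 < N := by rw [hN]; positivity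
  have hR₃N : R₃ = 2 * N * lam := by rw [hR₃, hN]
  have h3 : 0 < R₃ := by rw [hR₃]; positivity
  have hηpos : 0 < η := by rw [hη]; positivity
  have hη1 : η ≤ 1 := by
    rw [hη]
    exact pow_le_one₀ (by norm_num) (by norm_num)
  have hN2 : N ≤ 2 * 2 ^ n := by
    rw [hN, pow_succ, mul_comm]
    have : (2 : ℝ) ^ j ≤ 2 ^ n := pow_le_pow_right₀ (by norm_num) hj
    linarith
  have hP : (0 : ℝ) < 2 ^ n := by positivity
  have h3' : R₃ ≤ 1 / 4 := by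
    rw [hR₃N]
    have h4 : lam * (16 * 2 ^ n) ≤ 1 := by
      rw [le_div_iff₀ (by positivity), pow_add] at hlam'
      linarith
    nlinarith
  -- the volume
  obtain ⟨V, hV⟩ : ∃ V : ℝ, V = N * R₁ * R₂ * R₃ := ⟨_, rfl⟩
  have hηV : 2 < η * V := by
    have h4 : η * 2 ^ (5 * l) = 1 := by
      rw [hη, ← mul_pow]
      norm_num
    have h5 := mul_lt_mul_of_pos_left hvol hηpos
    rw [hV]
    nlinarith
  have hVpos : 0 < V := by rw [hV]; positivity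
  have hV2 : 2 < V := by nlinarith
  have hb1 := KeyPSep_hb h1 h1' hd1
  have hb2 := KeyPSep_hb h2 h2' hd2
  have hp1 := hb_pos d₁
  have hp2 := hb_pos d₂
  have hbb : hb d₁ * hb d₂ * (4 * R₁ * R₂) ≤ 1 := by
    rw [le_div_iff₀ (by positivity)] at hb1 hb2
    have h5 := mul_le_mul hb1 hb2 (by positivity) (by norm_num)
    linarith
  rcases Nat.eq_zero_or_pos d₃ with h0 | hpos
  · -- `d₃ = 0`
    subst h0
    have h4 : d₁ ≠ 0 ∨ d₂ ≠ 0 := by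
      rcases hd with h | h | h
      · exact Or.inl h
      · exact Or.inr h
      · exact absurd rfl h
    have h5 : hb d₁ * hb d₂ ≤ 2 ^ n := by
      have h6 : 4 * V ≤ 4 * R₁ * R₂ * (2 * 2 ^ n) * (1 / 4) := by
        rw [hV]
        have h7 : N * R₃ ≤ 2 * 2 ^ n * (1 / 4) := mul_le_mul hN2 h3' h3.le (by positivity)
        have h8 : 0 < R₁ * R₂ := by positivity
        nlinarith
      have h7 : 0 < hb d₁ * hb d₂ := by positivity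
      have h8 : hb d₁ * hb d₂ * (4 * V) ≤ hb d₁ * hb d₂ * (4 * R₁ * R₂ * (2 * 2 ^ n) * (1 / 4)) :=
        mul_le_mul_of_nonneg_left h6 h7.le
      have h9 : hb d₁ * hb d₂ * (4 * R₁ * R₂ * (2 * 2 ^ n) * (1 / 4)) =
          hb d₁ * hb d₂ * (4 * R₁ * R₂) * (2 ^ n / 2) := by ring
      rw [h9] at h8
      have h10 : hb d₁ * hb d₂ * (4 * R₁ * R₂) * (2 ^ n / 2) ≤ 1 * (2 ^ n / 2) :=
        mul_le_mul_of_nonneg_right hbb (by positivity)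
      nlinarith
    have h6 := hB2 d₁ d₂ h4 h5
    have h7 : (d₁ : ℝ) * ξ₁ + d₂ * ξ₂ + ((0 : ℕ) : ℝ) * x = d₁ * ξ₁ + d₂ * ξ₂ := by
      push_cast
      ring
    rw [h7]
    refine le_trans ?_ h6
    rw [div_le_div_iff₀ hNpos (by positivity), one_mul]
    -- `hb hb ≤ η N`
    have h8 : 0 < hb d₁ * hb d₂ := by positivity
    have h9 : 2 * (hb d₁ * hb d₂) ≤ η * V * (hb d₁ * hb d₂) :=
      mul_le_mul_of_nonneg_right hηV.le h8.le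
    have h10 : η * V * (hb d₁ * hb d₂) =
        η * N * R₃ * (hb d₁ * hb d₂ * (4 * R₁ * R₂)) / 4 := by
      rw [hV]
      ring
    have h11 : η * N * R₃ * (hb d₁ * hb d₂ * (4 * R₁ * R₂)) ≤ η * N * R₃ * 1 :=
      mul_le_mul_of_nonneg_left hbb (by positivity)
    have h12 : η * N * R₃ ≤ η * N * (1 / 4) := mul_le_mul_of_nonneg_left h3' (by positivity)
    have h13 : 0 < η * N := by positivity
    linarith
  · -- `1 ≤ d₃`
    have hd3' : (1 : ℝ) ≤ d₃ := by exact_mod_cast hpos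
    have hd3R : (d₃ : ℝ) * (36 * R₃) ≤ 1 := by
      rwa [le_div_iff₀ (by positivity)] at hd3
    have hprod : hb d₁ * hb d₂ * (d₃ : ℝ) * (144 * (R₁ * R₂ * R₃)) ≤ 1 := by
      have h4 := mul_le_mul hbb hd3R (by positivity) (by norm_num)
      have h5 : hb d₁ * hb d₂ * (4 * R₁ * R₂) * ((d₃ : ℝ) * (36 * R₃)) =
          hb d₁ * hb d₂ * (d₃ : ℝ) * (144 * (R₁ * R₂ * R₃)) := by ring
      rw [h5] at h4
      linarith
    have hVN : R₁ * R₂ * R₃ * N = V := by rw [hV]; ring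
    have hQ : 0 < hb d₁ * hb d₂ * (d₃ : ℝ) := by positivity
    have hle : hb d₁ * hb d₂ * (d₃ : ℝ) ≤ 2 ^ n := by
      have h4 : hb d₁ * hb d₂ * (d₃ : ℝ) * (144 * V) ≤ N := by
        rw [← hVN]
        have h5 := mul_le_mul_of_nonneg_right hprod hNpos.le
        linarith
      have h5 : hb d₁ * hb d₂ * (d₃ : ℝ) * (144 * 2) ≤ hb d₁ * hb d₂ * (d₃ : ℝ) * (144 * V) :=
        mul_le_mul_of_nonneg_left (by linarith) hQ.le
      linarith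
    have hmem : (d₁, d₂, d₃) ∈ ED n := by
      unfold ED
      rw [Finset.mem_filter]
      refine ⟨?_, hle⟩
      have hone1 := one_le_hb d₁
      have hone2 := one_le_hb d₂
      have ha1 : |(d₁ : ℝ)| ≤ 2 ^ n := by
        refine (abs_le_hb d₁).trans (le_trans ?_ hle)
        have h5 : hb d₁ * 1 ≤ hb d₁ * hb d₂ := mul_le_mul_of_nonneg_left hone2 hp1.le
        have h6 : hb d₁ * hb d₂ * 1 ≤ hb d₁ * hb d₂ * d₃ :=
          mul_le_mul_of_nonneg_left hd3' (by positivity)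
        linarith
      have ha2 : |(d₂ : ℝ)| ≤ 2 ^ n := by
        refine (abs_le_hb d₂).trans (le_trans ?_ hle)
        have h5 : 1 * hb d₂ ≤ hb d₁ * hb d₂ := mul_le_mul_of_nonneg_right hone1 hp2.le
        have h6 : hb d₁ * hb d₂ * 1 ≤ hb d₁ * hb d₂ * d₃ :=
          mul_le_mul_of_nonneg_left hd3' (by positivity)
        linarith
      have ha3 : (d₃ : ℝ) ≤ 2 ^ n := by
        have h5 : 1 * (d₃ : ℝ) ≤ hb d₁ * hb d₂ * d₃ := by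
          refine mul_le_mul_of_nonneg_right ?_ (by positivity)
          have := mul_le_mul hone1 hone2 zero_le_one hp1.le
          linarith
        linarith
      rw [abs_le] at ha1 ha2
      simp only [Finset.mem_product, Finset.mem_Icc]
      refine ⟨⟨?_, ?_⟩, ⟨?_, ?_⟩, hpos, ?_⟩
      · exact_mod_cast ha1.1
      · exact_mod_cast ha1.2
      · exact_mod_cast ha2.1
      · exact_mod_cast ha2.2
      · exact_mod_cast ha3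
    have hr : lam ≤ rD η (d₁, d₂, d₃) := by
      unfold rD
      show lam ≤ η / (hb d₁ * hb d₂ * (d₃ : ℝ) ^ 2)
      rw [le_div_iff₀ (by positivity)]
      -- multiply by `10368 V`
      have h4 : hb d₁ * hb d₂ * (d₃ : ℝ) ^ 2 * (5184 * (R₁ * R₂ * R₃ ^ 2)) ≤ 1 := by
        have h5 := mul_le_mul hprod hd3R (by positivity) (by norm_num)
        have h6 : hb d₁ * hb d₂ * (d₃ : ℝ) * (144 * (R₁ * R₂ * R₃)) * ((d₃ : ℝ) * (36 * R₃)) =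
            hb d₁ * hb d₂ * (d₃ : ℝ) ^ 2 * (5184 * (R₁ * R₂ * R₃ ^ 2)) := by ring
        rw [h6] at h5
        linarith
      have h5 : R₁ * R₂ * R₃ ^ 2 = 2 * V * lam := by
        have h6 : R₃ ^ 2 = R₃ * (2 * N * lam) := by rw [pow_two, ← hR₃N]
        rw [h6, hV]
        ring
      rw [h5] at h4
      obtain ⟨W, hW⟩ : ∃ W : ℝ, W = lam * (hb d₁ * hb d₂ * (d₃ : ℝ) ^ 2) := ⟨_, rfl⟩
      have hW0 : 0 < W := by rw [hW]; positivity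
      rw [← hW]
      have h6 : W * (10368 * V) ≤ 1 := by
        rw [hW]
        linarith
      -- `W ≤ W (η V) ≤ η`
      have h7 : W * (2 : ℝ) ≤ W * (η * V) := mul_le_mul_of_nonneg_left hηV.le hW0.le
      have h8 : W * (η * V) = η * (W * V) := by ring
      have h9 : W * V ≤ 1 := by
        have : 0 < W * V := by positivity
        linarith
      have h10 : η * (W * V) ≤ η * 1 := mul_le_mul_of_nonneg_left h9 hηpos.le
      linarith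
    have h4 := hav (d₁, d₂, d₃) hmem hr
    have h5 : (d₁ : ℝ) * ξ₁ + d₂ * ξ₂ + (d₃ : ℝ) * x =
        (d₃ : ℝ) * x + ((d₁ : ℝ) * ξ₁ + d₂ * ξ₂) := by ring
    rw [h5]
    refine le_trans ?_ h4
    unfold tauD
    show 1 / N ≤ η / (hb d₁ * hb d₂ * (d₃ : ℝ))
    rw [div_le_div_iff₀ hNpos hQ, one_mul]
    have h6 : hb d₁ * hb d₂ * (d₃ : ℝ) * 2 ≤ hb d₁ * hb d₂ * (d₃ : ℝ) * (η * V) :=
      mul_le_mul_of_nonneg_left hηV.le hQ.le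
    have h7 : hb d₁ * hb d₂ * (d₃ : ℝ) * (η * V) =
        η * N * (hb d₁ * hb d₂ * (d₃ : ℝ) * (144 * (R₁ * R₂ * R₃))) / 144 := by
      rw [hV]
      ring
    have h8 : η * N * (hb d₁ * hb d₂ * (d₃ : ℝ) * (144 * (R₁ * R₂ * R₃))) ≤ η * N * 1 :=
      mul_le_mul_of_nonneg_left hprod (by positivity)
    have h9 : 0 < η * N := by positivity
    linarith

/- PROOF (section 3, KP, sep). N = 2^(j+1), R3 = 2 N lam ≤ 1/4, vol = N R1 R2 R3 > 2/η (η = (1/2)^(5l)). nn is even, so let d3 ≥ 0. hb d_i ≤ 1/(2R_i), i=1,2.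
d3 ≥ 1: hb d1 * hb d2 * d3 ≤ 1/(144 R1 R2 R3) = N/(144 vol) ≤ 2^n, so (d1,d2,d3) is in ED n; rD = η/(hb hb d3^2) ≥ η*4 R1 R2*(36 R3)^2 =
5184 η R1 R2 R3^2 = 10368 η vol lam ≥ lam; AvD gives nn ≥ tauD ≥ 144 η vol/N ≥ 288/N. d3 = 0: hb hb ≤ 1/(4R1R2) = N R3/(4 vol) ≤ 2^n; B2 gives
nn ≥ 4 η R1 R2 = 4 η vol/(N R3) ≥ 8/(N R3) ≥ 1/N. -/
theorem keyP_sep (n l : ℕ) (hl : 20 ≤ l) (hnl : n + 1 ≤ 2 ^ l) (ξ₁ ξ₂ x lam : ℝ) (hlam : 0 < lam)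
    (hlam' : lam ≤ 1 / 2 ^ (n + 4)) (hB2 : B2 n ((1 / 2 : ℝ) ^ (5 * l)) ξ₁ ξ₂)
    (hav : AvD n ((1 / 2 : ℝ) ^ (5 * l)) ξ₁ ξ₂ x lam) (j : ℕ) (hj : j ≤ n) (R₁ R₂ : ℝ)
    (h1 : 0 < R₁) (h1' : R₁ ≤ 1 / 2) (h2 : 0 < R₂) (h2' : R₂ ≤ 1 / 2)
    (hvol : 2 * 2 ^ (5 * l) < (2 : ℝ) ^ (j + 1) * R₁ * R₂ * (2 * 2 ^ (j + 1) * lam))
    (d₁ d₂ d₃ : ℤ) (hd : d₁ ≠ 0 ∨ d₂ ≠ 0 ∨ d₃ ≠ 0) (hd1 : |(d₁ : ℝ)| ≤ 1 / (36 * R₁))
    (hd2 : |(d₂ : ℝ)| ≤ 1 / (36 * R₂)) (hd3 : |(d₃ : ℝ)| ≤ 1 / (36 * (2 * 2 ^ (j + 1) * lam))) :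
    1 / (2 : ℝ) ^ (j + 1) ≤ nn (d₁ * ξ₁ + d₂ * ξ₂ + d₃ * x) := by
  obtain ⟨m, rfl | rfl⟩ := Int.eq_nat_or_neg d₃
  · have h3 := KeyPSep_aux n l ξ₁ ξ₂ x lam hlam hlam' hB2 hav j hj R₁ R₂ h1 h1' h2 h2' hvol
      d₁ d₂ m (by
        rcases hd with h | h | h
        · exact Or.inl h
        · exact Or.inr (Or.inl h)
        · exact Or.inr (Or.inr fun h0 => h (by rw [h0]; rfl))) hd1 hd2 (by
        rw [Int.cast_natCast, abs_of_nonneg (Nat.cast_nonneg m)] at hd3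
        exact hd3)
    rw [Int.cast_natCast]
    exact h3
  · have h3 := KeyPSep_aux n l ξ₁ ξ₂ x lam hlam hlam' hB2 hav j hj R₁ R₂ h1 h1' h2 h2' hvol
      (-d₁) (-d₂) m (by
        rcases hd with h | h | h
        · exact Or.inl (neg_ne_zero.2 h)
        · exact Or.inr (Or.inl (neg_ne_zero.2 h))
        · exact Or.inr (Or.inr fun h0 => h (by rw [h0]; rfl)))
      (by rw [Int.cast_neg, abs_neg]; exact hd1) (by rw [Int.cast_neg, abs_neg]; exact hd2) (by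
        rw [Int.cast_neg, Int.cast_natCast, abs_neg, abs_of_nonneg (Nat.cast_nonneg m)] at hd3
        exact hd3)
    rw [← nn_neg]
    have h4 : -((d₁ : ℝ) * ξ₁ + d₂ * ξ₂ + ((-(m : ℤ) : ℤ) : ℝ) * x) =
        ((-d₁ : ℤ) : ℝ) * ξ₁ + ((-d₂ : ℤ) : ℝ) * ξ₂ + (m : ℝ) * x := by
      push_cast
      ring
    rw [h4]
    exact h3

end Pool.A6405.LL
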