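import Pool.Agent.H.MP_a6405b_nt.helper54.Box2
import Pool.Agent.H.MP_a6405b_nt.helper54.KeyPSep

set_option autoImplicit false

namespace Pool.A6405.LL

private theorem keyPCard_le (t : ℝ) (ht : 0 ≤ t) (k : ℕ) (hk : k ∈ Finset.range (⌊t⌋₊ + 1)) :
    (k : ℝ) ≤ t := by
  rw [Finset.mem_range] at hk
  have h1 : k ≤ ⌊t⌋₊ := by omega
  have h2 : (k : ℝ) ≤ (⌊t⌋₊ : ℝ) := by exact_mod_cast h1
  exact h2.trans (Nat.floor_le ht)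

private theorem keyPCard_abs (t : ℝ) (ht : 0 ≤ t) (k k' : ℕ) (hk : k ∈ Finset.range (⌊t⌋₊ + 1))
    (hk' : k' ∈ Finset.range (⌊t⌋₊ + 1)) : |(((k : ℤ) - (k' : ℤ) : ℤ) : ℝ)| ≤ t := by
  have h1 := keyPCard_le t ht k hk
  have h2 := keyPCard_le t ht k' hk'
  have h3 : (0 : ℝ) ≤ k := Nat.cast_nonneg _
  have h4 : (0 : ℝ) ≤ k' := Nat.cast_nonneg _
  push_cast
  rw [abs_le]
  constructor <;> linarith

/- PROOF (section 3, KP, claim). box_lemma_one with N = 2^(j+1), P = product of the ranges A_i = floor(1/(36 R_i)) + 1 (R3 = 2 N lam),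
θ_a = a1 ξ1 + a2 ξ2 + a3 x. near: nn(q θ_a) ≤ sum (A_i - 1) R_i ≤ 1/12. sep: keyP_sep for the differences. A_i ≥ 1/(36 R_i), and 24 * 36^3 = 1119744. -/
theorem keyP_card (n l : ℕ) (hl : 20 ≤ l) (hnl : n + 1 ≤ 2 ^ l) (ξ₁ ξ₂ x lam : ℝ) (hlam : 0 < lam)
    (hlam' : lam ≤ 1 / 2 ^ (n + 4)) (hB2 : B2 n ((1 / 2 : ℝ) ^ (5 * l)) ξ₁ ξ₂)
    (hav : AvD n ((1 / 2 : ℝ) ^ (5 * l)) ξ₁ ξ₂ x lam) (j : ℕ) (hj : j ≤ n) (R₁ R₂ : ℝ)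
    (h1 : 0 < R₁) (h1' : R₁ ≤ 1 / 2) (h2 : 0 < R₂) (h2' : R₂ ≤ 1 / 2)
    (hvol : 2 * 2 ^ (5 * l) < (2 : ℝ) ^ (j + 1) * R₁ * R₂ * (2 * 2 ^ (j + 1) * lam))
    (S : Finset ℕ) (hS : ∀ q ∈ S, q ≤ 2 ^ (j + 1) ∧ nn (q * ξ₁) ≤ R₁ ∧ nn (q * ξ₂) ≤ R₂ ∧
      nn (q * x) ≤ 2 * 2 ^ (j + 1) * lam) :
    (S.card : ℝ) ≤ 1119744 * ((2 : ℝ) ^ (j + 1) * R₁ * R₂ * (2 * 2 ^ (j + 1) * lam)) := by
  set N : ℕ := 2 ^ (j + 1) with hN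
  have hNr : ((N : ℕ) : ℝ) = (2 : ℝ) ^ (j + 1) := by rw [hN]; push_cast; rfl
  have hN1 : 1 ≤ N := Nat.one_le_two_pow
  set R₃ : ℝ := 2 * 2 ^ (j + 1) * lam with hR₃
  have h3 : 0 < R₃ := by positivity
  set t₁ : ℝ := 1 / (36 * R₁) with ht₁
  set t₂ : ℝ := 1 / (36 * R₂) with ht₂
  set t₃ : ℝ := 1 / (36 * R₃) with ht₃
  have hp1 : 0 < t₁ := by positivity
  have hp2 : 0 < t₂ := by positivity
  have hp3 : 0 < t₃ := by positivity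
  set P : Finset (ℕ × ℕ × ℕ) := Finset.range (⌊t₁⌋₊ + 1) ×ˢ Finset.range (⌊t₂⌋₊ + 1) ×ˢ
    Finset.range (⌊t₃⌋₊ + 1) with hP
  set θ : ℕ × ℕ × ℕ → ℝ := fun a => a.1 * ξ₁ + a.2.1 * ξ₂ + a.2.2 * x with hθ
  have hmem : ∀ a ∈ P, a.1 ∈ Finset.range (⌊t₁⌋₊ + 1) ∧ a.2.1 ∈ Finset.range (⌊t₂⌋₊ + 1) ∧
      a.2.2 ∈ Finset.range (⌊t₃⌋₊ + 1) := by
    intro a ha
    rw [hP, Finset.mem_product, Finset.mem_product] at ha
    exact ⟨ha.1, ha.2.1, ha.2.2⟩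
  have hbox := box_lemma_one N hN1 S (fun q hq => (hS q hq).1) P θ ?_ ?_
  · have hPc : (P.card : ℝ) = ((⌊t₁⌋₊ : ℝ) + 1) * (((⌊t₂⌋₊ : ℝ) + 1) * ((⌊t₃⌋₊ : ℝ) + 1)) := by
      rw [hP, Finset.card_product, Finset.card_product, Finset.card_range, Finset.card_range,
        Finset.card_range]
      push_cast
      ring
    have hge : t₁ * (t₂ * t₃) ≤ P.card := by
      rw [hPc]
      exact mul_le_mul (Nat.lt_floor_add_one _).le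
        (mul_le_mul (Nat.lt_floor_add_one _).le (Nat.lt_floor_add_one _).le hp3.le
          (by positivity)) (by positivity) (by positivity)
    have hS0 : (0 : ℝ) ≤ S.card := Nat.cast_nonneg _
    have h5 : (S.card : ℝ) * (t₁ * (t₂ * t₃)) ≤ 24 * N :=
      (mul_le_mul_of_nonneg_left hge hS0).trans hbox
    have h6 : t₁ * (t₂ * t₃) * (46656 * (R₁ * R₂ * R₃)) = 1 := by
      rw [ht₁, ht₂, ht₃]
      field_simp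
      norm_num
    calc (S.card : ℝ) = S.card * (t₁ * (t₂ * t₃)) * (46656 * (R₁ * R₂ * R₃)) := by
          rw [mul_assoc, h6, mul_one]
      _ ≤ 24 * N * (46656 * (R₁ * R₂ * R₃)) := mul_le_mul_of_nonneg_right h5 (by positivity)
      _ = _ := by rw [hNr]; ring
  · intro p hp p' hp' hne
    obtain ⟨a1, a2, a3⟩ := hmem p hp
    obtain ⟨b1, b2, b3⟩ := hmem p' hp'
    have hd : ((p.1 : ℤ) - (p'.1 : ℤ)) ≠ 0 ∨ ((p.2.1 : ℤ) - (p'.2.1 : ℤ)) ≠ 0 ∨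
        ((p.2.2 : ℤ) - (p'.2.2 : ℤ)) ≠ 0 := by
      by_contra hcon
      push Not at hcon
      obtain ⟨c1, c2, c3⟩ := hcon
      apply hne
      refine Prod.ext (by omega) (Prod.ext (by omega) (by omega))
    have h := keyP_sep n l hl hnl ξ₁ ξ₂ x lam hlam hlam' hB2 hav j hj R₁ R₂ h1 h1' h2 h2' hvol
      ((p.1 : ℤ) - (p'.1 : ℤ)) ((p.2.1 : ℤ) - (p'.2.1 : ℤ)) ((p.2.2 : ℤ) - (p'.2.2 : ℤ)) hd
      (keyPCard_abs t₁ hp1.le _ _ a1 b1) (keyPCard_abs t₂ hp2.le _ _ a2 b2)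
      (keyPCard_abs t₃ hp3.le _ _ a3 b3)
    rw [hNr]
    refine h.trans (le_of_eq ?_)
    congr 1
    simp only [hθ]
    push_cast
    ring
  · intro q hq p hp
    obtain ⟨a1, a2, a3⟩ := hmem p hp
    obtain ⟨-, q1, q2, q3⟩ := hS q hq
    have e1 : (q : ℝ) * θ p = (p.1 : ℝ) * (q * ξ₁) + (p.2.1 : ℝ) * (q * ξ₂) +
        (p.2.2 : ℝ) * (q * x) := by
      simp only [hθ]
      ring
    rw [e1]
    have n1 := nn_nat_mul p.1 (q * ξ₁)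
    have n2 := nn_nat_mul p.2.1 (q * ξ₂)
    have n3 := nn_nat_mul p.2.2 (q * x)
    have s1 := nn_add_le ((p.1 : ℝ) * (q * ξ₁) + (p.2.1 : ℝ) * (q * ξ₂)) ((p.2.2 : ℝ) * (q * x))
    have s2 := nn_add_le ((p.1 : ℝ) * (q * ξ₁)) ((p.2.1 : ℝ) * (q * ξ₂))
    have m1 : (p.1 : ℝ) * nn (q * ξ₁) ≤ t₁ * R₁ :=
      mul_le_mul (keyPCard_le t₁ hp1.le _ a1) q1 (nn_nonneg _) hp1.le
    have m2 : (p.2.1 : ℝ) * nn (q * ξ₂) ≤ t₂ * R₂ :=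
      mul_le_mul (keyPCard_le t₂ hp2.le _ a2) q2 (nn_nonneg _) hp2.le
    have m3 : (p.2.2 : ℝ) * nn (q * x) ≤ t₃ * R₃ :=
      mul_le_mul (keyPCard_le t₃ hp3.le _ a3) q3 (nn_nonneg _) hp3.le
    have u1 : t₁ * R₁ = 1 / 36 := by
      rw [ht₁]
      field_simp
    have u2 : t₂ * R₂ = 1 / 36 := by
      rw [ht₂]
      field_simp
    have u3 : t₃ * R₃ = 1 / 36 := by
      rw [ht₃]
      field_simp
    rw [u1] at m1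
    rw [u2] at m2
    rw [u3] at m3
    linarith

end Pool.A6405.LL
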