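import Pool.Agent.H.MP_a6405b_nt.helper54.KeyPCard

set_option autoImplicit false

namespace Pool.A6405.LL

/- PROOF (section 3, KP). S empty: trivial. Else R_i = (1/2)^b_i and vol > 2/η: for q in S, rP q < lam/2^(10l) and psi ≥ η/q give q^2 yy lam > η 2^(10l) = 2^(5l)
and vol = 2 N^2 R1 R2 lam > 2 q^2 yy lam (yy > 0, q < N = 2^(j+1)). keyP_card bounds |S|. For q in S: rP q ≤ psi(2^j)/(2^j 2^-B/4),
2^j psi(2^j) = max (δ 2^j/2^n) η. Product: 1119744 * 2 N^2 2^-B lam * 4 psi(2^j) 2^B/2^j = 32 * 1119744 * 2^j psi(2^j) lam. -/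
/-- one class of P-events -/
theorem keyP_class (n l : ℕ) (hl : 20 ≤ l) (hnl : n + 1 ≤ 2 ^ l) (hn : 1 ≤ n) (δ : ℝ) (hδ : 0 < δ)
    (ξ₁ ξ₂ x lam : ℝ) (hlam : 0 < lam) (hlam' : lam ≤ 1 / 2 ^ (n + 4))
    (hB1 : B1 n ξ₁ ξ₂) (hB2 : B2 n ((1 / 2 : ℝ) ^ (5 * l)) ξ₁ ξ₂)
    (hav : AvD n ((1 / 2 : ℝ) ^ (5 * l)) ξ₁ ξ₂ x lam)
    (j b₁ b₂ : ℕ) (hj : j ≤ n) (hb₁ : 1 ≤ b₁) (hb₂ : 1 ≤ b₂) (S : Finset ℕ)
    (hS : ∀ q ∈ S, q ∈ EP n ∧ 2 ^ j ≤ q ∧ q < 2 ^ (j + 1) ∧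
      nn (q * ξ₁) ≤ (1 / 2) ^ b₁ ∧ (1 / 2) ^ (b₁ + 1) < nn (q * ξ₁) ∧
      nn (q * ξ₂) ≤ (1 / 2) ^ b₂ ∧ (1 / 2) ^ (b₂ + 1) < nn (q * ξ₂) ∧
      rP n δ ((1 / 2 : ℝ) ^ (5 * l)) ξ₁ ξ₂ q < lam / 2 ^ (10 * l) ∧ nn (q * x) ≤ 2 * q * lam) :
    ∑ q ∈ S, rP n δ ((1 / 2 : ℝ) ^ (5 * l)) ξ₁ ξ₂ q ≤
      32 * 1119744 * (δ * 2 ^ j / 2 ^ n + (1 / 2 : ℝ) ^ (5 * l)) * lam := by
  have hη0 : (0 : ℝ) < (1 / 2 : ℝ) ^ (5 * l) := by positivity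
  have hηl : (1 / 2 : ℝ) ^ (5 * l) * 2 ^ (10 * l) = 2 ^ (5 * l) := by
    rw [show 10 * l = 5 * l + 5 * l by ring, pow_add, ← mul_assoc, ← mul_pow]
    norm_num
  generalize hη : (1 / 2 : ℝ) ^ (5 * l) = η at *
  have hY : 0 < δ * 2 ^ j / 2 ^ n + η := by positivity
  rcases S.eq_empty_or_nonempty with rfl | ⟨q₀, hq₀⟩
  · rw [Finset.sum_empty]
    positivity
  have h2j : (0 : ℝ) < 2 ^ j := by positivity
  have hR1 : (0 : ℝ) < (1 / 2) ^ b₁ := by positivity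
  have hR2 : (0 : ℝ) < (1 / 2) ^ b₂ := by positivity
  have hR1' : ((1 : ℝ) / 2) ^ b₁ ≤ 1 / 2 := by
    have := pow_le_pow_of_le_one (by norm_num : (0 : ℝ) ≤ 1 / 2) (by norm_num) hb₁
    rwa [pow_one] at this
  have hR2' : ((1 : ℝ) / 2) ^ b₂ ≤ 1 / 2 := by
    have := pow_le_pow_of_le_one (by norm_num : (0 : ℝ) ≤ 1 / 2) (by norm_num) hb₂
    rwa [pow_one] at this
  have hp1 : ((1 : ℝ) / 2) ^ (b₁ + 1) = (1 / 2) ^ b₁ * (1 / 2) := pow_succ _ _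
  have hp2 : ((1 : ℝ) / 2) ^ (b₂ + 1) = (1 / 2) ^ b₂ * (1 / 2) := pow_succ _ _
  generalize hr1 : ((1 : ℝ) / 2) ^ b₁ = R₁ at *
  generalize hr2 : ((1 : ℝ) / 2) ^ b₂ = R₂ at *
  rw [hp1, hp2] at hS
  have hN : (2 : ℝ) ^ (j + 1) = 2 * 2 ^ j := by rw [pow_succ]; ring
  -- facts for one element
  have hq : ∀ q ∈ S, (2 : ℝ) ^ j ≤ q ∧ (q : ℝ) ≤ 2 * 2 ^ j ∧ R₁ * R₂ / 4 ≤ yy ξ₁ ξ₂ q ∧
      yy ξ₁ ξ₂ q ≤ R₁ * R₂ := by
    intro q hqS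
    obtain ⟨-, h1, h2, h3, h4, h5, h6, -, -⟩ := hS q hqS
    refine ⟨by exact_mod_cast h1, ?_, ?_, ?_⟩
    · have h7 : ((q : ℕ) : ℝ) ≤ ((2 ^ (j + 1) : ℕ) : ℝ) := by exact_mod_cast h2.le
      rw [← hN]
      exact_mod_cast h7
    · have h7 := mul_le_mul h4.le h6.le (by positivity) (nn_nonneg _)
      have h8 : R₁ * (1 / 2) * (R₂ * (1 / 2)) = R₁ * R₂ / 4 := by ring
      rw [h8] at h7
      exact h7
    · exact mul_le_mul h3 h5 (nn_nonneg _) hR1.le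
  have hvol : 2 * 2 ^ (5 * l) < (2 : ℝ) ^ (j + 1) * R₁ * R₂ * (2 * 2 ^ (j + 1) * lam) := by
    obtain ⟨h1, h2, h3, h4⟩ := hq q₀ hq₀
    obtain ⟨-, -, -, -, -, -, -, h5, -⟩ := hS q₀ hq₀
    have hq0 : (0 : ℝ) < q₀ := lt_of_lt_of_le h2j h1
    have hyy : 0 < yy ξ₁ ξ₂ q₀ := lt_of_lt_of_le (by positivity) h3
    have h6 : η / q₀ ≤ psi n δ η q₀ := le_max_right _ _
    rw [rP, div_lt_div_iff₀ (by positivity) (by positivity)] at h5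
    have h7 : η / q₀ * 2 ^ (10 * l) < lam * (q₀ * yy ξ₁ ξ₂ q₀) :=
      lt_of_le_of_lt (mul_le_mul_of_nonneg_right h6 (by positivity)) h5
    rw [div_mul_eq_mul_div, hηl, div_lt_iff₀ hq0] at h7
    have h8 : lam * (q₀ * yy ξ₁ ξ₂ q₀) * q₀ ≤ lam * ((2 * 2 ^ j) * (R₁ * R₂)) * (2 * 2 ^ j) := by
      refine mul_le_mul (mul_le_mul_of_nonneg_left (mul_le_mul h2 h4 hyy.le (by positivity))
        hlam.le) h2 hq0.le (by positivity)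
    rw [hN]
    nlinarith [h7, h8]
  have hcard := keyP_card n l hl hnl ξ₁ ξ₂ x lam hlam hlam' (by rw [hη]; exact hB2)
    (by rw [hη]; exact hav) j hj R₁ R₂ hR1 hR1' hR2 hR2' hvol S (fun q hqS => by
      obtain ⟨-, -, h2, h3, -, h5, -, -, h8⟩ := hS q hqS
      refine ⟨h2.le, h3, h5, h8.trans ?_⟩
      have h9 := (hq q hqS).2.1
      rw [hN]
      exact mul_le_mul_of_nonneg_right (by linarith) hlam.le)
  have hrP : ∀ q ∈ S, rP n δ η ξ₁ ξ₂ q ≤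
      4 * (δ * 2 ^ j / 2 ^ n + η) / (2 ^ j * 2 ^ j * (R₁ * R₂)) := by
    intro q hqS
    obtain ⟨h1, h2, h3, h4⟩ := hq q hqS
    have hq0 : (0 : ℝ) < q := lt_of_lt_of_le h2j h1
    have hyy : 0 < yy ξ₁ ξ₂ q := lt_of_lt_of_le (by positivity) h3
    have h5 : psi n δ η q ≤ (δ * 2 ^ j / 2 ^ n + η) / 2 ^ j := by
      refine max_le ?_ ?_
      · rw [le_div_iff₀ h2j]
        have : δ / 2 ^ n * 2 ^ j = δ * 2 ^ j / 2 ^ n := by ring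
        rw [this]
        linarith
      · refine (div_le_div_of_nonneg_left hη0.le h2j h1).trans ?_
        refine div_le_div_of_nonneg_right ?_ h2j.le
        have : 0 ≤ δ * 2 ^ j / 2 ^ n := by positivity
        linarith
    have h6 : (0 : ℝ) < 2 ^ j * (R₁ * R₂ / 4) := by positivity
    rw [rP]
    refine (div_le_div₀ (by positivity) h5 h6
      (mul_le_mul h1 h3 (by positivity) hq0.le)).trans (le_of_eq ?_)
    field_simp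
  refine (Finset.sum_le_card_nsmul S _ _ hrP).trans ?_
  rw [nsmul_eq_mul]
  refine (mul_le_mul_of_nonneg_right hcard (by positivity)).trans (le_of_eq ?_)
  rw [hN]
  field_simp
  ring

end Pool.A6405.LL
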