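import Pool.Agent.H.MP_a6405b_nt.helper54.Basic

set_option autoImplicit false

namespace Pool.A6405.LL

/- PROOF. The integers i with |x + i*s - c| ≤ ρ lie in an interval of length 2ρ/s. -/
/-- at most `2ρ/s + 1` of the points `x + i s` lie within `ρ` of `c` -/
theorem card_near (M : ℕ) (x s c ρ : ℝ) (hs : 0 < s) (hρ : 0 ≤ ρ) :
    (((Finset.range M).filter (fun i : ℕ => |x + i * s - c| ≤ ρ)).card : ℝ) ≤ 2 * ρ / s + 1 := by
  set F := (Finset.range M).filter (fun i : ℕ => |x + i * s - c| ≤ ρ) with hF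
  rcases F.eq_empty_or_nonempty with h0 | hne
  · rw [h0, Finset.card_empty, Nat.cast_zero]; positivity
  · obtain ⟨a, ha, hmin⟩ := Finset.exists_min_image F id hne
    obtain ⟨b, hb, hmax⟩ := Finset.exists_max_image F id hne
    have hsub : F ⊆ Finset.Icc a b := fun i hi => Finset.mem_Icc.2 ⟨hmin i hi, hmax i hi⟩
    have hcard : F.card ≤ b + 1 - a := by
      have := Finset.card_le_card hsub
      rwa [Nat.card_Icc] at this
    have hab : a ≤ b := hmin b hb
    have h1 := (Finset.mem_filter.1 ha).2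
    have h2 := (Finset.mem_filter.1 hb).2
    rw [abs_le] at h1 h2
    have h3 : ((b : ℝ) - a) * s ≤ 2 * ρ := by nlinarith [h1.1, h2.2]
    have h4 : (b : ℝ) - a ≤ 2 * ρ / s := by rw [le_div_iff₀ hs]; exact h3
    have h5 : (F.card : ℝ) ≤ (b : ℝ) + 1 - a := by
      have : F.card + a ≤ b + 1 := by omega
      have h : ((F.card + a : ℕ) : ℝ) ≤ ((b + 1 : ℕ) : ℝ) := by exact_mod_cast this
      push_cast at h; linarith
    linarith

/- PROOF. p' the nearest integer of A x' + β: |A x' + β - p'| < A r, so |A x + β - p'| ≤ A lam/2 + A r < 3/2 A lam ≤ 3/16 < 1/2. -/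
/-- if the event is not avoided at a point `x'` near `x`, it is near `x`, and the centre is the one given by `round` -/
theorem centre_of_spoiled (A : ℕ) (hA : 1 ≤ A) (β r lam x x' : ℝ) (hlam : 0 < lam) (hAl : A * lam ≤ 1 / 8)
    (hr : r < lam) (hx : |x' - x| ≤ lam / 2) (hsp : nn (A * x' + β) < A * r) :
    nn (A * x + β) ≤ 2 * A * lam ∧ |x' - (round (A * x + β) - β) / A| ≤ r := by
  have hA0 : (0 : ℝ) < A := by exact_mod_cast (by omega : 0 < A)
  set p' : ℤ := round (A * x' + β) with hp'
  have h1 : |A * x' + β - p'| < A * r := hsp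
  have h2 : |A * x + β - p'| ≤ A * lam / 2 + A * r := by
    have e : A * x + β - p' = (A * x' + β - p') + A * (-(x' - x)) := by ring
    rw [e]
    refine (abs_add_le _ _).trans ?_
    rw [abs_mul, abs_neg, abs_of_pos hA0]
    have : (A : ℝ) * |x' - x| ≤ A * (lam / 2) := by gcongr
    linarith
  have h3 : (A : ℝ) * r ≤ A * lam := by gcongr
  have h4 : |A * x + β - p'| < 1 / 2 := by linarith
  have h5 := nn_eq_of_lt _ _ h4
  have hround : round (A * x + β) = p' := by
    rw [abs_lt] at h4
    rw [round_eq, Int.floor_eq_iff]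
    constructor <;> linarith [h4.1, h4.2]
  have h7 : 0 < (A : ℝ) * lam := by positivity
  constructor
  · rw [h5]; linarith
  · rw [hround]
    have e : x' - (p' - β) / A = (A * x' + β - p') / A := by field_simp; ring
    rw [e, abs_div, abs_of_pos hA0, div_le_iff₀ hA0]
    linarith

/- PROOF. |x' - c'| ≤ 2 lam', c' = (p' - β)/A, p' the nearest integer of A x' + β; then |x - c'| ≤ lam/2 + 2 lam' ≤ 3/2 lam. -/
/-- an event near the child centre `x'` is near the parent centre `x`, with the same centre -/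
theorem centre_of_child (A : ℕ) (hA : 1 ≤ A) (β lam lam' x x' : ℝ) (hlam : 0 < lam) (hlam' : 0 < lam')
    (hAl : A * lam ≤ 1 / 8) (h2 : 2 * lam' ≤ lam) (hx : |x' - x| ≤ lam / 2 - lam' / 2)
    (hn : nn (A * x' + β) ≤ 2 * A * lam') :
    nn (A * x + β) ≤ 2 * A * lam ∧ |x' - (round (A * x + β) - β) / A| ≤ 2 * lam' := by
  have hA0 : (0 : ℝ) < A := by exact_mod_cast (by omega : 0 < A)
  set p' : ℤ := round (A * x' + β) with hp'
  have h1 : |A * x' + β - p'| ≤ 2 * A * lam' := hn
  have h3 : |A * x + β - p'| ≤ A * (lam / 2 - lam' / 2) + 2 * A * lam' := by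
    have e : A * x + β - p' = (A * x' + β - p') + A * (-(x' - x)) := by ring
    rw [e]
    refine (abs_add_le _ _).trans ?_
    rw [abs_mul, abs_neg, abs_of_pos hA0]
    have : (A : ℝ) * |x' - x| ≤ A * (lam / 2 - lam' / 2) := by gcongr
    linarith
  have h6 : (A : ℝ) * (2 * lam') ≤ A * lam := by gcongr
  have h4 : |A * x + β - p'| < 1 / 2 := by nlinarith
  have h5 := nn_eq_of_lt _ _ h4
  have hround : round (A * x + β) = p' := by
    rw [abs_lt] at h4
    rw [round_eq, Int.floor_eq_iff]
    constructor <;> linarith [h4.1, h4.2]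
  constructor
  · rw [h5]; nlinarith
  · rw [hround]
    have e : x' - (p' - β) / A = (A * x' + β - p') / A := by field_simp; ring
    rw [e, abs_div, abs_of_pos hA0, div_le_iff₀ hA0]
    linarith

end Pool.A6405.LL
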