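import Pool.Agent.H.MP_a6405b_nt.helper54.NestA

set_option autoImplicit false

namespace Pool.A6405.LL

open Classical in
/-- union bound for the spoiled children -/
private theorem NestStep_union {ι : Type*} (M : ℕ) (F : Finset ι) (P : ℕ → ι → Prop) (Sp : ℕ → Prop)
    (h : ∀ i < M, Sp i → ∃ e ∈ F, P i e) :
    (((Finset.range M).filter Sp).card : ℝ) ≤ ∑ e ∈ F, (((Finset.range M).filter (fun i => P i e)).card : ℝ) := by
  have h1 : (Finset.range M).filter Sp ⊆ F.biUnion (fun e => (Finset.range M).filter (fun i => P i e)) := by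
    intro i hi
    rw [Finset.mem_filter, Finset.mem_range] at hi
    obtain ⟨e, he, hP⟩ := h i hi.1 hi.2
    rw [Finset.mem_biUnion]
    exact ⟨e, he, by rw [Finset.mem_filter, Finset.mem_range]; exact ⟨hi.1, hP⟩⟩
  have h2 := (Finset.card_le_card h1).trans Finset.card_biUnion_le
  exact_mod_cast h2

open Classical in
/-- a child which is neither spoiled nor heavy -/
private theorem NestStep_choose (M : ℕ) (hM : 0 < M) (Sp : ℕ → Prop) (S : ℕ → ℝ) (t : ℝ) (ht : 0 < t)
    (hS : ∀ i, 0 ≤ S i)
    (h1 : (((Finset.range M).filter Sp).card : ℝ) ≤ M / 8)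
    (h2 : ∑ i ∈ Finset.range M, S i ≤ M * t / 2) :
    ∃ i < M, ¬ Sp i ∧ S i ≤ t := by
  by_contra hcon
  push Not at hcon
  have h3 : (((Finset.range M).filter (fun i => t < S i)).card : ℝ) * t ≤ M * t / 2 := by
    refine le_trans ?_ h2
    calc (((Finset.range M).filter (fun i => t < S i)).card : ℝ) * t
        = ∑ _i ∈ (Finset.range M).filter (fun i => t < S i), t := by
          rw [Finset.sum_const, nsmul_eq_mul]
      _ ≤ ∑ i ∈ (Finset.range M).filter (fun i => t < S i), S i := by
          refine Finset.sum_le_sum ?_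
          intro i hi
          rw [Finset.mem_filter] at hi
          exact hi.2.le
      _ ≤ ∑ i ∈ Finset.range M, S i :=
          Finset.sum_le_sum_of_subset_of_nonneg (Finset.filter_subset _ _) (fun i _ _ => hS i)
  have h4 : (((Finset.range M).filter (fun i => t < S i)).card : ℝ) ≤ M / 2 := by
    have : (((Finset.range M).filter (fun i => t < S i)).card : ℝ) * t ≤ (M / 2) * t := by
      linarith
    exact le_of_mul_le_mul_right this ht
  have h5 : Finset.range M ⊆ (Finset.range M).filter Sp ∪ (Finset.range M).filter (fun i => t < S i) := by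
    intro i hi
    rw [Finset.mem_union, Finset.mem_filter, Finset.mem_filter]
    by_cases hs : Sp i
    · exact Or.inl ⟨hi, hs⟩
    · exact Or.inr ⟨hi, hcon i (Finset.mem_range.mp hi) hs⟩
  have h6 := (Finset.card_le_card h5).trans (Finset.card_union_le _ _)
  rw [Finset.card_range] at h6
  have h7 : (M : ℝ) ≤ (((Finset.range M).filter Sp).card : ℝ)
      + (((Finset.range M).filter (fun i => t < S i)).card : ℝ) := by exact_mod_cast h6
  have h8 : (0 : ℝ) < M := by exact_mod_cast hM
  linarith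

/- PROOF (section 2, the step). lam' = lam/M, children i < M with centre x_i = x - lam/2 + (i + 1/2) lam'. An event with lam' ≤ r < lam which
is not avoided at some point of the child i is near x (centre_of_spoiled) and |x_i - c_e| ≤ r + lam'/2: at most 2r/lam' + 2 ≤ 4r/lam'
children (card_near). So at most (4/lam')(lam/32) = M/8 children are spoiled. Events with lam'/M ≤ r < lam' near child i are near x
(centre_of_child), |x_i - c_e| ≤ 2 lam': at most 5 children each. The sum over the children of S(child) is at most 5 lam/320, so at most M/2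
children have S(child) > lam'/32. M/8 + M/2 < M. -/
open Classical in
/-- one step of the nested construction -/
theorem nested_step {ι : Type*} (E : Finset ι) (A : ι → ℕ) (β τ r : ι → ℝ)
    (hA : ∀ e ∈ E, 1 ≤ A e) (hτ : ∀ e ∈ E, 0 < τ e) (hr : ∀ e ∈ E, r e = τ e / A e)
    (lam : ℝ) (hlam : 0 < lam) (hAl : ∀ e ∈ E, A e * lam ≤ 1 / 8) (M : ℕ) (hM : 2 ≤ M) (x : ℝ)
    (I1 : ∀ x' : ℝ, |x' - x| ≤ lam / 2 → ∀ e ∈ E, lam ≤ r e → τ e ≤ nn (A e * x' + β e))
    (I2 : ∑ e ∈ E.filter (fun e => lam / M ≤ r e ∧ r e < lam ∧ nn (A e * x + β e) ≤ 2 * A e * lam), r e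
      ≤ lam / 32)
    (I3 : ∑ e ∈ E.filter (fun e => lam / M ^ 2 ≤ r e ∧ r e < lam / M ∧ nn (A e * x + β e) ≤ 2 * A e * lam), r e
      ≤ lam / 320) :
    ∃ x' : ℝ, |x' - x| + lam / M / 2 ≤ lam / 2 ∧
      (∀ x'' : ℝ, |x'' - x'| ≤ lam / M / 2 → ∀ e ∈ E, lam / M ≤ r e → τ e ≤ nn (A e * x'' + β e)) ∧
      ∑ e ∈ E.filter (fun e => lam / M / M ≤ r e ∧ r e < lam / M ∧ nn (A e * x' + β e) ≤ 2 * A e * (lam / M)), r e
        ≤ lam / M / 32 := by
  have hMr : (2 : ℝ) ≤ M := by exact_mod_cast hM
  have hM0 : (0 : ℝ) < M := by linarith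
  obtain ⟨lam', hlam'def⟩ : ∃ y : ℝ, y = lam / M := ⟨_, rfl⟩
  have hlam' : 0 < lam' := by rw [hlam'def]; positivity
  have hlamM : lam = M * lam' := by rw [hlam'def]; field_simp
  have h2 : 2 * lam' ≤ lam := by
    rw [hlamM]; exact mul_le_mul_of_nonneg_right hMr hlam'.le
  have hsq : lam / (M : ℝ) ^ 2 = lam' / M := by rw [hlam'def, div_div, sq]
  rw [hsq] at I3
  rw [← hlam'def] at I2 I3 ⊢
  have hrpos : ∀ e ∈ E, 0 < r e := by
    intro e he
    rw [hr e he]
    have : (0 : ℝ) < A e := by exact_mod_cast (hA e he)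
    exact div_pos (hτ e he) this
  have hAr : ∀ e ∈ E, (A e : ℝ) * r e = τ e := by
    intro e he
    rw [hr e he]
    have : (0 : ℝ) < A e := by exact_mod_cast (hA e he)
    field_simp
  -- centres
  obtain ⟨x0, hx0⟩ : ∃ y : ℝ, y = x - lam / 2 + lam' / 2 := ⟨_, rfl⟩
  have hxc : ∀ i : ℕ, i < M → |x0 + i * lam' - x| ≤ lam / 2 - lam' / 2 := by
    intro i hi
    have hi1 : (i : ℝ) + 1 ≤ M := by exact_mod_cast hi
    have hi0 : (0 : ℝ) ≤ i := Nat.cast_nonneg i
    have h3 : ((i : ℝ) + 1) * lam' ≤ M * lam' := mul_le_mul_of_nonneg_right hi1 hlam'.le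
    have h4 : 0 ≤ (i : ℝ) * lam' := mul_nonneg hi0 hlam'.le
    rw [← hlamM] at h3
    rw [abs_le, hx0]
    constructor <;> linarith
  obtain ⟨c, hc⟩ : ∃ c : ι → ℝ, ∀ e, c e = (round (A e * x + β e) - β e) / A e := ⟨_, fun _ => rfl⟩
  obtain ⟨Sp, hSp⟩ : ∃ Sp : ℕ → Prop, ∀ i, Sp i ↔ ∃ x'' : ℝ, |x'' - (x0 + i * lam')| ≤ lam' / 2 ∧
      ∃ e ∈ E, lam' ≤ r e ∧ nn (A e * x'' + β e) < τ e := ⟨_, fun _ => Iff.rfl⟩
  obtain ⟨S, hS⟩ : ∃ S : ℕ → ℝ, ∀ i, S i = ∑ e ∈ E.filter (fun e => lam' / M ≤ r e ∧ r e < lam' ∧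
      nn (A e * (x0 + i * lam') + β e) ≤ 2 * A e * lam'), r e := ⟨_, fun _ => rfl⟩
  -- spoiled children
  have hcard : (((Finset.range M).filter Sp).card : ℝ) ≤ M / 8 := by
    have hu := NestStep_union M
      (E.filter (fun e => lam' ≤ r e ∧ r e < lam ∧ nn (A e * x + β e) ≤ 2 * A e * lam))
      (fun i e => |x0 + i * lam' - c e| ≤ r e + lam' / 2) Sp (by
        intro i hi hs
        obtain ⟨x'', hx'', e, he, hre, hnn⟩ := (hSp i).mp hs
        have hxx : |x'' - x| ≤ lam / 2 := by
          have h3 := hxc i hi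
          have h4 : |x'' - x| ≤ |x'' - (x0 + i * lam')| + |x0 + i * lam' - x| := abs_sub_le _ _ _
          linarith
        have hrl : r e < lam := by
          by_contra hcon
          have := I1 x'' hxx e he (not_lt.mp hcon)
          linarith
        have h5 := centre_of_spoiled (A e) (hA e he) (β e) (r e) lam x x'' hlam (hAl e he) hrl hxx
          (by rw [hAr e he]; exact hnn)
        refine ⟨e, ?_, ?_⟩
        · rw [Finset.mem_filter]
          exact ⟨he, hre, hrl, h5.1⟩
        · have h6 : |x0 + i * lam' - c e| ≤ |x0 + i * lam' - x''| + |x'' - c e| := abs_sub_le _ _ _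
          have h7 : |x0 + i * lam' - x''| ≤ lam' / 2 := by rw [abs_sub_comm]; exact hx''
          have h8 : |x'' - c e| ≤ r e := by rw [hc]; exact h5.2
          linarith)
    refine hu.trans ?_
    have hb : ∀ e ∈ E.filter (fun e => lam' ≤ r e ∧ r e < lam ∧ nn (A e * x + β e) ≤ 2 * A e * lam),
        (((Finset.range M).filter (fun i : ℕ => |x0 + i * lam' - c e| ≤ r e + lam' / 2)).card : ℝ)
          ≤ (4 / lam') * r e := by
      intro e he
      rw [Finset.mem_filter] at he
      have h3 := card_near M x0 lam' (c e) (r e + lam' / 2) hlam' (by linarith [he.2.1])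
      refine h3.trans ?_
      have h4 : 2 * (r e + lam' / 2) / lam' + 1 = (2 * r e + 2 * lam') / lam' := by
        field_simp
        ring
      rw [h4, div_mul_eq_mul_div]
      apply div_le_div_of_nonneg_right _ hlam'.le
      linarith [he.2.1]
    refine (Finset.sum_le_sum hb).trans ?_
    rw [← Finset.mul_sum]
    refine (mul_le_mul_of_nonneg_left I2 (by positivity)).trans (le_of_eq ?_)
    rw [hlamM]
    field_simp
    norm_num
  -- heavy children
  have hsum : ∑ i ∈ Finset.range M, S i ≤ M * (lam' / 32) / 2 := by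
    have h3 : ∀ i ∈ Finset.range M, S i ≤
        ∑ e ∈ E.filter (fun e => lam' / M ≤ r e ∧ r e < lam' ∧ nn (A e * x + β e) ≤ 2 * A e * lam),
          (if |x0 + i * lam' - c e| ≤ 2 * lam' then r e else 0) := by
      intro i hi
      have hiM := Finset.mem_range.mp hi
      rw [hS, ← Finset.sum_filter]
      refine Finset.sum_le_sum_of_subset_of_nonneg ?_ ?_
      · intro e he
        rw [Finset.mem_filter] at he
        obtain ⟨heE, he1, he2, he3⟩ := he
        have h5 := centre_of_child (A e) (hA e heE) (β e) lam lam' x (x0 + i * lam') hlam hlam'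
          (hAl e heE) h2 (hxc i hiM) he3
        rw [Finset.mem_filter, Finset.mem_filter]
        exact ⟨⟨heE, he1, he2, h5.1⟩, by rw [hc]; exact h5.2⟩
      · intro e he _
        rw [Finset.mem_filter, Finset.mem_filter] at he
        exact (hrpos e he.1.1).le
    refine (Finset.sum_le_sum h3).trans ?_
    rw [Finset.sum_comm]
    have h4 : ∀ e ∈ E.filter (fun e => lam' / M ≤ r e ∧ r e < lam' ∧ nn (A e * x + β e) ≤ 2 * A e * lam),
        ∑ i ∈ Finset.range M, (if |x0 + i * lam' - c e| ≤ 2 * lam' then r e else 0) ≤ 5 * r e := by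
      intro e he
      rw [Finset.mem_filter] at he
      rw [← Finset.sum_filter, Finset.sum_const, nsmul_eq_mul]
      have h5 := card_near M x0 lam' (c e) (2 * lam') hlam' (by positivity)
      have h6 : 2 * (2 * lam') / lam' + 1 = 5 := by
        field_simp
        norm_num
      rw [h6] at h5
      exact mul_le_mul_of_nonneg_right h5 (hrpos e he.1).le
    refine (Finset.sum_le_sum h4).trans ?_
    rw [← Finset.mul_sum]
    refine (mul_le_mul_of_nonneg_left I3 (by norm_num)).trans (le_of_eq ?_)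
    rw [hlamM]
    ring
  obtain ⟨i, hiM, hns, hSi⟩ := NestStep_choose M (by omega) Sp S (lam' / 32) (by positivity)
    (by
      intro i
      rw [hS]
      refine Finset.sum_nonneg ?_
      intro e he
      rw [Finset.mem_filter] at he
      exact (hrpos e he.1).le) hcard hsum
  refine ⟨x0 + i * lam', ?_, ?_, ?_⟩
  · have := hxc i hiM
    linarith
  · intro x'' hx'' e he hre
    by_contra hcon
    exact hns ((hSp i).mpr ⟨x'', hx'', e, he, hre, not_le.mp hcon⟩)
  · rw [hS] at hSi
    exact hSi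

end Pool.A6405.LL
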