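import Pool.Agent.H.MP_a6405b_nt.helper54.NestStep

set_option autoImplicit false

namespace Pool.A6405.LL

/- PROOF (section 2). Induction on k with lam_k = lam0/M^k and the invariants I1, I2 of nested_step, |x_k - x0| + lam_k/2 ≤ lam0/2; I3 is h3 at x_k
(x_k avoids the events with r ≥ lam_k by I1). Start: |x' - x0| ≤ lam0/2 and lam0 ≤ r give nn ≥ 2τ - A lam0/2 ≥ 2τ - τ/2. Stop when lam_k is
smaller than all r e. -/
open Classical in
/-- Nested interval lemma -/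
theorem nested {ι : Type*} (E : Finset ι) (A : ι → ℕ) (β τ r : ι → ℝ)
    (hA : ∀ e ∈ E, 1 ≤ A e) (hτ : ∀ e ∈ E, 0 < τ e) (hr : ∀ e ∈ E, r e = τ e / A e)
    (lam0 : ℝ) (hlam0 : 0 < lam0) (hAl : ∀ e ∈ E, A e * lam0 ≤ 1 / 8) (M : ℕ) (hM : 2 ≤ M) (x0 : ℝ)
    (h1 : ∀ e ∈ E, lam0 ≤ r e → 2 * τ e ≤ nn (A e * x0 + β e))
    (h2 : ∑ e ∈ E.filter (fun e => lam0 / M ≤ r e ∧ r e < lam0 ∧ nn (A e * x0 + β e) ≤ 2 * A e * lam0), r e
      ≤ lam0 / 32)
    (h3 : ∀ x lam : ℝ, 0 < lam → lam ≤ lam0 → (∀ e ∈ E, lam ≤ r e → τ e ≤ nn (A e * x + β e)) →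
      ∑ e ∈ E.filter (fun e => lam / M ^ 2 ≤ r e ∧ r e < lam / M ∧ nn (A e * x + β e) ≤ 2 * A e * lam), r e
        ≤ lam / 320) :
    ∃ x : ℝ, |x - x0| ≤ lam0 / 2 ∧ ∀ e ∈ E, τ e ≤ nn (A e * x + β e) := by
  have hM0 : (2 : ℝ) ≤ M := by exact_mod_cast hM
  have main : ∀ k : ℕ, ∃ lam x : ℝ, 0 < lam ∧ lam ≤ lam0 / 2 ^ k ∧ lam ≤ lam0 ∧
      |x - x0| + lam / 2 ≤ lam0 / 2 ∧
      (∀ x'' : ℝ, |x'' - x| ≤ lam / 2 → ∀ e ∈ E, lam ≤ r e → τ e ≤ nn (A e * x'' + β e)) ∧
      ∑ e ∈ E.filter (fun e => lam / M ≤ r e ∧ r e < lam ∧ nn (A e * x + β e) ≤ 2 * A e * lam), r e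
        ≤ lam / 32 := by
    intro k
    induction k with
    | zero =>
      refine ⟨lam0, x0, hlam0, by simp, le_rfl, by simp, ?_, h2⟩
      intro x'' hx e he hle
      have hAe : (1 : ℝ) ≤ A e := by exact_mod_cast hA e he
      have hAe0 : (0 : ℝ) < A e := by linarith
      have hτr : (A e : ℝ) * lam0 ≤ τ e := by
        rw [hr e he, le_div_iff₀ hAe0] at hle
        linarith
      have h := nn_sub_abs (A e * x0 + β e) (A e * (x'' - x0))
      have h' : A e * x0 + β e + A e * (x'' - x0) = A e * x'' + β e := by ring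
      rw [h', abs_mul, abs_of_pos hAe0] at h
      have h3' := h1 e he hle
      have h4 : (A e : ℝ) * |x'' - x0| ≤ A e * (lam0 / 2) := mul_le_mul_of_nonneg_left hx hAe0.le
      have h6 := hτ e he
      linarith
    | succ k ih =>
      obtain ⟨lam, x, hlam, hle1, hle0, hx, I1, I2⟩ := ih
      have hAl' : ∀ e ∈ E, A e * lam ≤ 1 / 8 := fun e he =>
        (mul_le_mul_of_nonneg_left hle0 (Nat.cast_nonneg _)).trans (hAl e he)
      have I3 := h3 x lam hlam hle0 (fun e he hle => I1 x (by rw [sub_self, abs_zero]; linarith) e he hle)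
      obtain ⟨x', hx', J1, J2⟩ := nested_step E A β τ r hA hτ hr lam hlam hAl' M hM x I1 I2 I3
      have hM1 : (0 : ℝ) < M := by linarith
      have hlM : lam / M ≤ lam / 2 := by
        apply div_le_div_of_nonneg_left hlam.le (by norm_num) hM0
      refine ⟨lam / M, x', div_pos hlam hM1, ?_, by linarith, ?_, J1, J2⟩
      · calc lam / M ≤ lam / 2 := hlM
          _ ≤ (lam0 / 2 ^ k) / 2 := by linarith
          _ = lam0 / 2 ^ (k + 1) := by rw [pow_succ, div_div]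
      · have h5 : |x' - x0| ≤ |x' - x| + |x - x0| := by
          have := abs_add_le (x' - x) (x - x0)
          simpa using this
        linarith
  rcases E.eq_empty_or_nonempty with hE | hE
  · subst hE
    exact ⟨x0, by rw [sub_self, abs_zero]; linarith, by simp⟩
  obtain ⟨e0, he0, hmin⟩ := Finset.exists_min_image E r hE
  have hr0 : 0 < r e0 := by
    rw [hr e0 he0]
    have : (1 : ℝ) ≤ A e0 := by exact_mod_cast hA e0 he0
    exact div_pos (hτ e0 he0) (by linarith)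
  obtain ⟨k, hk⟩ := pow_unbounded_of_one_lt (lam0 / r e0) (by norm_num : (1 : ℝ) < 2)
  have hk' : lam0 / 2 ^ k ≤ r e0 := by
    rw [div_lt_iff₀ hr0] at hk
    rw [div_le_iff₀ (by positivity)]
    linarith
  obtain ⟨lam, x, hlam, hle1, hle0, hx, I1, I2⟩ := main k
  refine ⟨x, by linarith [hlam], fun e he => ?_⟩
  exact I1 x (by rw [sub_self, abs_zero]; linarith) e he ((hle1.trans hk').trans (hmin e he))

end Pool.A6405.LL
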