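import Pool.Agent.H.MP_a6405b_nt.helper54.Nested
import Pool.Agent.H.MP_a6405b_nt.helper54.KeyP
import Pool.Agent.H.MP_a6405b_nt.helper54.KeyD
import Pool.Agent.H.MP_a6405b_nt.helper54.Init

set_option autoImplicit false

namespace Pool.A6405.LL

lemma yy_pos_of_B1 {n : ℕ} {ξ₁ ξ₂ : ℝ} (hB1 : B1 n ξ₁ ξ₂) {q : ℕ} (h1 : 1 ≤ q) (h2 : q ≤ 2 ^ n) :
    0 < yy ξ₁ ξ₂ q := by
  obtain ⟨ha, hb⟩ := hB1 q h1 h2
  have h0 : (0 : ℝ) < 1 / 2 ^ (2 * n) := by positivity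
  exact mul_pos (lt_of_lt_of_le h0 ha) (lt_of_lt_of_le h0 hb)

lemma psi_pos {n : ℕ} {δ η : ℝ} (hδ : 0 < δ) (q : ℕ) : 0 < psi n δ η q :=
  lt_of_lt_of_le (by positivity) (le_max_left _ _)

/- PROOF (section 6). nested with E = P-events and D-events (ι = ℕ ⊕ (ℤ × ℤ × ℕ)), lam0 = 1/2^(n+4), M = 2^(10l); h1, h2 from init, h3 from keyP and keyD. -/
open Classical in
theorem oneScale (u₁ u₂ u₃ w : ℝ) (hw : 0 < w) : ∃ n0 : ℕ, ∀ n ≥ n0, ∀ l : ℕ, l = Nat.log 2 n + 1 →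
    ∃ ξ₁ ξ₂ x : ℝ, u₁ ≤ ξ₁ ∧ ξ₁ ≤ u₁ + w ∧ u₂ ≤ ξ₂ ∧ ξ₂ ≤ u₂ + w ∧
      u₃ - 1 / 2 ^ n ≤ x ∧ x ≤ u₃ + w + 1 / 2 ^ n ∧
      ∀ q : ℕ, 1 ≤ q → q ≤ 2 ^ n →
        (1 / 2 : ℝ) ^ 42 / (n * l) / 2 ^ n ≤ nn (q * ξ₁) * nn (q * ξ₂) * nn (q * x) := by
  obtain ⟨n1, hn1⟩ := init u₁ u₂ u₃ w hw
  refine ⟨max n1 (2 ^ 20), fun n hn l hl => ?_⟩
  have hn_1 : n1 ≤ n := le_trans (le_max_left _ _) hn
  have hn_2 : 2 ^ 20 ≤ n := le_trans (le_max_right _ _) hn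
  have hn0 : 1 ≤ n := le_trans (by norm_num) hn_2
  have hl20 : 20 ≤ l := by
    rw [hl]
    have : 20 ≤ Nat.log 2 n := (Nat.le_log_iff_pow_le (by norm_num) (by omega)).2 hn_2
    omega
  have hnl : n + 1 ≤ 2 ^ l := by
    rw [hl]; exact Nat.lt_pow_succ_log_self (by norm_num) n
  have hnR : (0 : ℝ) < n := by exact_mod_cast hn0
  have hlR : (0 : ℝ) < l := by exact_mod_cast (by omega : 0 < l)
  set δ : ℝ := (1 / 2 : ℝ) ^ 42 / (n * l) with hδdef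
  have hδ : 0 < δ := by positivity
  have hδn : n * l * δ ≤ (1 / 2 : ℝ) ^ 42 := by
    rw [hδdef]; field_simp; exact le_refl _
  set η : ℝ := (1 / 2 : ℝ) ^ (5 * l) with hη
  have hηpos : 0 < η := by positivity
  obtain ⟨ξ₁, ξ₂, x₀, h1, h2, h3, h4, h5, h6, hB1, hB2, hiP, hiD, hsum⟩ := hn1 n hn_1 l hl δ hδdef
  set lam0 : ℝ := 1 / 2 ^ (n + 4) with hlam0
  have hlam0pos : 0 < lam0 := by positivity
  -- the family of events
  let E : Finset (ℕ ⊕ (ℤ × ℤ × ℕ)) := (EP n).disjSum (ED n)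
  let A : ℕ ⊕ (ℤ × ℤ × ℕ) → ℕ := Sum.elim (fun q => q) (fun a => a.2.2)
  let β : ℕ ⊕ (ℤ × ℤ × ℕ) → ℝ := Sum.elim (fun _ => 0) (fun a => a.1 * ξ₁ + a.2.1 * ξ₂)
  let τ : ℕ ⊕ (ℤ × ℤ × ℕ) → ℝ := Sum.elim (fun q => tauP n δ η ξ₁ ξ₂ q) (fun a => tauD η a)
  let r : ℕ ⊕ (ℤ × ℤ × ℕ) → ℝ := Sum.elim (fun q => rP n δ η ξ₁ ξ₂ q) (fun a => rD η a)
  have hEP : ∀ q ∈ EP n, 1 ≤ q ∧ q ≤ 2 ^ n := fun q hq => by
    simpa [EP] using hq
  have hED : ∀ a ∈ ED n, 1 ≤ a.2.2 ∧ a.2.2 ≤ 2 ^ n := fun a ha => by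
    unfold ED at ha
    rw [Finset.mem_filter, Finset.mem_product, Finset.mem_product] at ha
    exact Finset.mem_Icc.1 ha.1.2.2
  have hA : ∀ e ∈ E, 1 ≤ A e := by
    intro e he
    rcases Finset.mem_disjSum.1 he with ⟨q, hq, rfl⟩ | ⟨a, ha, rfl⟩
    · exact (hEP q hq).1
    · exact (hED a ha).1
  have hτ : ∀ e ∈ E, 0 < τ e := by
    intro e he
    rcases Finset.mem_disjSum.1 he with ⟨q, hq, rfl⟩ | ⟨a, ha, rfl⟩
    · exact div_pos (psi_pos hδ q) (yy_pos_of_B1 hB1 (hEP q hq).1 (hEP q hq).2)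
    · have : (0 : ℝ) < a.2.2 := by exact_mod_cast (hED a ha).1
      have h1 := hb_pos a.1
      have h2 := hb_pos a.2.1
      change 0 < tauD η a
      unfold tauD; positivity
  have hr : ∀ e ∈ E, r e = τ e / A e := by
    intro e he
    rcases Finset.mem_disjSum.1 he with ⟨q, hq, rfl⟩ | ⟨a, ha, rfl⟩
    · have hqp : (0 : ℝ) < q := by exact_mod_cast (hEP q hq).1
      have hy := yy_pos_of_B1 hB1 (hEP q hq).1 (hEP q hq).2
      change rP n δ η ξ₁ ξ₂ q = tauP n δ η ξ₁ ξ₂ q / q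
      unfold rP tauP; field_simp
    · have hqp : (0 : ℝ) < a.2.2 := by exact_mod_cast (hED a ha).1
      have h1 := hb_pos a.1
      have h2 := hb_pos a.2.1
      change rD η a = tauD η a / a.2.2
      unfold rD tauD; field_simp
  have hAl : ∀ e ∈ E, A e * lam0 ≤ 1 / 8 := by
    intro e he
    have hA2 : A e ≤ 2 ^ n := by
      rcases Finset.mem_disjSum.1 he with ⟨q, hq, rfl⟩ | ⟨a, ha, rfl⟩
      · exact (hEP q hq).2
      · exact (hED a ha).2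
    have hA3 : (A e : ℝ) ≤ 2 ^ n := by exact_mod_cast hA2
    have h2n : (0 : ℝ) < 2 ^ n := by positivity
    calc (A e : ℝ) * lam0 ≤ 2 ^ n * lam0 := by gcongr
      _ = 1 / 16 := by rw [hlam0, pow_add]; field_simp; norm_num
      _ ≤ 1 / 8 := by norm_num
  have hMcast : ((2 ^ (10 * l) : ℕ) : ℝ) = 2 ^ (10 * l) := by push_cast; rfl
  have hM : 2 ≤ 2 ^ (10 * l) := by
    calc 2 = 2 ^ 1 := by norm_num
      _ ≤ 2 ^ (10 * l) := Nat.pow_le_pow_right (by norm_num) (by omega)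
  have key := nested E A β τ r hA hτ hr lam0 hlam0pos hAl (2 ^ (10 * l)) hM x₀
    (by
      intro e he hle
      rcases Finset.mem_disjSum.1 he with ⟨q, hq, rfl⟩ | ⟨a, ha, rfl⟩
      · have := hiP q hq hle
        change 2 * tauP n δ η ξ₁ ξ₂ q ≤ nn (q * x₀ + 0)
        rw [add_zero]; exact this
      · exact hiD a ha hle)
    (by
      rw [Finset.sum_filter, Finset.sum_disjSum, ← Finset.sum_filter, ← Finset.sum_filter]
      rw [hMcast]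
      refine le_trans (le_of_eq ?_) hsum
      congr 1
      · apply Finset.sum_congr _ (fun _ _ => rfl)
        apply Finset.filter_congr
        intro q _
        change (lam0 / 2 ^ (10 * l) ≤ rP n δ η ξ₁ ξ₂ q ∧ rP n δ η ξ₁ ξ₂ q < lam0 ∧
          nn (q * x₀ + 0) ≤ 2 * q * lam0) ↔ _
        rw [add_zero, hlam0, div_div]
      · apply Finset.sum_congr _ (fun _ _ => rfl)
        apply Finset.filter_congr
        intro a _
        change (lam0 / 2 ^ (10 * l) ≤ rD η a ∧ rD η a < lam0 ∧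
          nn (a.2.2 * x₀ + (a.1 * ξ₁ + a.2.1 * ξ₂)) ≤ 2 * a.2.2 * lam0) ↔ _
        rw [hlam0, div_div])
    (by
      intro x lam hlam hlam' hav
      have hlam'' : lam ≤ 1 / 2 ^ (n + 4) := hlam'
      have havP : AvP n δ η ξ₁ ξ₂ x lam := by
        intro q hq hle
        have := hav (Sum.inl q) (Finset.mem_disjSum.2 (Or.inl ⟨q, hq, rfl⟩)) hle
        change tauP n δ η ξ₁ ξ₂ q ≤ nn (q * x + 0) at this
        rwa [add_zero] at this
      have havD : AvD n η ξ₁ ξ₂ x lam := by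
        intro a ha hle
        exact hav (Sum.inr a) (Finset.mem_disjSum.2 (Or.inr ⟨a, ha, rfl⟩)) hle
      have kP := keyP n l hl20 hnl hn0 δ hδ hδn ξ₁ ξ₂ x lam hlam hlam'' hB1 hB2 havD
      have kD := keyD n l hl20 hnl δ hδ ξ₁ ξ₂ x lam hlam hlam'' hB1 havP
      rw [Finset.sum_filter, Finset.sum_disjSum, ← Finset.sum_filter, ← Finset.sum_filter]
      rw [hMcast]
      have e320 : lam / 320 = lam / 640 + lam / 640 := by ring
      rw [e320]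
      refine add_le_add ?_ ?_
      · refine le_trans (le_of_eq ?_) kP
        apply Finset.sum_congr _ (fun _ _ => rfl)
        apply Finset.filter_congr
        intro q _
        change (lam / (2 ^ (10 * l)) ^ 2 ≤ rP n δ η ξ₁ ξ₂ q ∧ rP n δ η ξ₁ ξ₂ q < lam / 2 ^ (10 * l) ∧
          nn (q * x + 0) ≤ 2 * q * lam) ↔ _
        rw [add_zero]
      · exact kD)
  obtain ⟨x, hx, hxE⟩ := key
  rw [abs_le] at hx
  have hl2 : lam0 / 2 ≤ 1 / 2 ^ n := by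
    rw [hlam0, pow_add]
    have h2n : (0 : ℝ) < 2 ^ n := by positivity
    rw [div_div, div_le_div_iff₀ (by positivity) (by positivity)]
    nlinarith
  refine ⟨ξ₁, ξ₂, x, h1, h2, h3, h4, by linarith [hx.1], by linarith [hx.2], ?_⟩
  intro q hq1 hq2
  have hqE : q ∈ EP n := by simp [EP, hq1, hq2]
  have := hxE (Sum.inl q) (Finset.mem_disjSum.2 (Or.inl ⟨q, hqE, rfl⟩))
  change tauP n δ η ξ₁ ξ₂ q ≤ nn (q * x + 0) at this
  rw [add_zero] at this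
  have hy := yy_pos_of_B1 hB1 hq1 hq2
  unfold tauP at this
  rw [div_le_iff₀ hy] at this
  have hpsi : δ / 2 ^ n ≤ psi n δ η q := le_max_left _ _
  calc δ / 2 ^ n ≤ psi n δ η q := hpsi
    _ ≤ nn (q * x) * yy ξ₁ ξ₂ q := this
    _ = nn (q * ξ₁) * nn (q * ξ₂) * nn (q * x) := by unfold yy; ring

end Pool.A6405.LL
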